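import Mathlib
import Pool.Agent.H2.PD.Stm

set_option autoImplicit false

namespace Pool.Agent.H213.PD

open Pool.Agent.H2.PD

theorem hold : S_hold := by
  intro u v C h x y
  have hpq : Real.HolderConjugate (5 / 3 : ℝ) (5 / 2 : ℝ) := by
    rw [Real.holderConjugate_iff]
    constructor <;> norm_num
  have h1 := Real.inner_le_Lp_mul_Lq (Finset.univ : Finset (Fin 2)) ![(u : ℝ) ^ 3, (v : ℝ) ^ 3]
    ![x, y] hpq
  simp only [Fin.sum_univ_two, Matrix.cons_val_zero, Matrix.cons_val_one] at h1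
  have h2 : ∀ w : ℤ, |(w : ℝ) ^ 3| ^ (5 / 3 : ℝ) = |(w : ℝ)| ^ 5 := by
    intro w
    rw [abs_pow, ← Real.rpow_natCast, ← Real.rpow_mul (abs_nonneg _), ← Real.rpow_natCast]
    norm_num
  rw [h2, h2] at h1
  have h3 : ((|(u : ℝ)| ^ 5 + |(v : ℝ)| ^ 5) ^ 3 : ℝ) ≤ (C : ℝ) ^ 5 := by
    have := (Int.cast_le (R := ℝ)).2 h
    push_cast at this
    exact this
  have hA : (0 : ℝ) ≤ |(u : ℝ)| ^ 5 + |(v : ℝ)| ^ 5 := by positivity
  have h4 : (|(u : ℝ)| ^ 5 + |(v : ℝ)| ^ 5) ^ (1 / (5 / 3) : ℝ) ≤ C := by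
    have h5 : ∀ A : ℝ, 0 ≤ A → A ^ (1 / (5 / 3) : ℝ) = (A ^ 3) ^ (1 / 5 : ℝ) := by
      intro A hA
      rw [← Real.rpow_natCast A 3, ← Real.rpow_mul hA]
      norm_num
    rw [h5 _ hA]
    calc ((|(u : ℝ)| ^ 5 + |(v : ℝ)| ^ 5) ^ 3) ^ (1 / 5 : ℝ) ≤ ((C : ℝ) ^ 5) ^ (1 / 5 : ℝ) :=
          Real.rpow_le_rpow (by positivity) h3 (by norm_num)
      _ = C := by
          rw [← Real.rpow_natCast, ← Real.rpow_mul (Nat.cast_nonneg _)]
          norm_num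
  have h6 : (|x| ^ (5 / 2 : ℝ) + |y| ^ (5 / 2 : ℝ)) ^ (1 / (5 / 2) : ℝ) = N x y := by
    rw [N]
    norm_num
  rw [h6] at h1
  have h7 : 0 ≤ N x y := by
    rw [N]
    positivity
  exact h1.trans (mul_le_mul_of_nonneg_right h4 h7)

end Pool.Agent.H213.PD
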