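import Mathlib
import Pool.Agent.H2.PD.Stm

set_option autoImplicit false

namespace Pool.Agent.H213.PD

open Pool.Agent.H2.PD

/-- rotation of the edges -/
def rot : Fin 18 → Fin 18 := ![1, 2, 3, 4, 5, 6, 7, 8, 0, 10, 11, 12, 13, 14, 15, 16, 17, 9]

def rotInv : Fin 18 → Fin 18 := ![8, 0, 1, 2, 3, 4, 5, 6, 7, 17, 9, 10, 11, 12, 13, 14, 15, 16]

/-- rotation of the vertices -/
def rotV : Fin 12 → Fin 12 := ![1, 2, 3, 4, 5, 6, 7, 8, 0, 10, 11, 9]

theorem rot_left : ∀ e, rotInv (rot e) = e := by decide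
theorem rot_right : ∀ e, rot (rotInv e) = e := by decide
theorem tl_rot : ∀ e v, tl (rot e) = rotV v ↔ tl e = v := by decide
theorem hd_rot : ∀ e v, hd (rot e) = rotV v ↔ hd e = v := by decide

def rotE : Fin 18 ≃ Fin 18 where
  toFun := rot
  invFun := rotInv
  left_inv := rot_left
  right_inv := rot_right

theorem sum_rot (X : Fin 18 → ℝ) (g : Fin 18 → Fin 12) (hg : ∀ e v, g (rot e) = rotV v ↔ g e = v)
    (v : Fin 12) : ∑ e with g e = v, X (rot e) = ∑ e with g e = rotV v, X e := by
  refine Finset.sum_bij (fun e _ => rot e) ?_ ?_ ?_ ?_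
  · intro e he
    simp only [Finset.mem_filter, Finset.mem_univ, true_and] at he ⊢
    exact (hg e v).2 he
  · intro e _ e' _ h
    have := congrArg rotInv h
    rwa [rot_left, rot_left] at this
  · intro e he
    simp only [Finset.mem_filter, Finset.mem_univ, true_and] at he
    refine ⟨rotInv e, ?_, rot_right e⟩
    simp only [Finset.mem_filter, Finset.mem_univ, true_and]
    rw [← hg, rot_right]
    exact he
  · intro e _
    rfl

theorem Fl_rot {X : Fin 18 → ℝ} (h : Fl X) : Fl (fun e => X (rot e)) := by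
  intro v
  rw [sum_rot X tl tl_rot v, sum_rot X hd hd_rot v]
  exact h _

theorem Good_rot {X Y : Fin 18 → ℝ} (h : Good X Y) :
    Good (fun e => X (rot e)) (fun e => Y (rot e)) :=
  ⟨Fl_rot h.1, Fl_rot h.2.1, fun e => h.2.2 (rot e)⟩

theorem Good_iter {X Y : Fin 18 → ℝ} (h : Good X Y) (j : ℕ) :
    Good (fun e => X (rot^[j] e)) (fun e => Y (rot^[j] e)) := by
  induction j with
  | zero => exact h
  | succ j ih => 
    have := Good_rot ih
    simpa only [Function.iterate_succ_apply] using this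

theorem rot_lt : ∀ e : Fin 18, e.val < 9 → (rot e).val < 9 := by decide

theorem rot_iter_lt (j : ℕ) : ∀ e : Fin 18, e.val < 9 → (rot^[j] e).val < 9 := by
  induction j with
  | zero => exact fun e h => h
  | succ j ih =>
    intro e h
    rw [Function.iterate_succ_apply]
    exact ih _ (rot_lt e h)

theorem rot_iter_zero : ∀ j : Fin 18, j.val < 9 → rot^[j.val] 0 = j := by decide

theorem Fl_mul {X : Fin 18 → ℝ} (h : Fl X) (c : ℝ) : Fl (fun e => c * X e) := by
  intro v
  rw [← Finset.mul_sum, ← Finset.mul_sum, h v]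

theorem N_abs (x y x' y' : ℝ) (h : |x| = |x'|) (h' : |y| = |y'|) : N x y = N x' y' := by
  rw [N, N, h, h']

theorem N_symm (x y : ℝ) : N x y = N y x := by
  rw [N, N, add_comm]

theorem exists_sign (x : ℝ) : ∃ s : ℝ, |s| = 1 ∧ s * x = |x| := by
  rcases le_or_gt 0 x with h | h
  · exact ⟨1, by simp, by rw [abs_of_nonneg h, one_mul]⟩
  · exact ⟨-1, by simp, by rw [abs_of_neg h, neg_one_mul]⟩

theorem max_pos {X Y : Fin 18 → ℝ} (h : Good X Y) (e : Fin 18) : 0 < max |X e| |Y e| := by
  by_contra hc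
  have h1 : |X e| ≤ 0 := (le_max_left _ _).trans (not_lt.1 hc)
  have h2 : |Y e| ≤ 0 := (le_max_right _ _).trans (not_lt.1 hc)
  have h3 : |X e| = 0 := le_antisymm h1 (abs_nonneg _)
  have h4 : |Y e| = 0 := le_antisymm h2 (abs_nonneg _)
  have h5 := (h.2.2 e).1
  rw [N, h3, h4, Real.zero_rpow (by norm_num), add_zero, Real.zero_rpow (by norm_num)] at h5
  linarith

theorem wlog : S_wlog := by
  intro hno
  rintro ⟨X, Y, hg⟩
  apply hno
  obtain ⟨j, hj, hmax⟩ := Finset.exists_max_image
    (Finset.univ.filter fun e : Fin 18 => e.val < 9)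
    (fun e => min |X e| |Y e| / max |X e| |Y e|) ⟨0, by simp⟩
  simp only [Finset.mem_filter, Finset.mem_univ, true_and] at hj hmax
  have hcross : ∀ e : Fin 18, e.val < 9 →
      min |X e| |Y e| * max |X j| |Y j| ≤ max |X e| |Y e| * min |X j| |Y j| := by
    intro e he
    have := hmax e he
    rw [div_le_div_iff₀ (max_pos hg e) (max_pos hg j)] at this
    linarith
  obtain ⟨s, hs1, hs2⟩ := exists_sign (X j)
  obtain ⟨t, ht1, ht2⟩ := exists_sign (Y j)
  have hg' := Good_iter hg j.val
  have hz := rot_iter_zero j hj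
  have habs : ∀ (c x : ℝ), |c| = 1 → |c * x| = |x| := by
    intro c x hc
    rw [abs_mul, hc, one_mul]
  rcases le_total |Y j| |X j| with h | h
  · refine ⟨fun e => s * X (rot^[j.val] e), fun e => t * Y (rot^[j.val] e), ⟨Fl_mul hg'.1 s,
      Fl_mul hg'.2.1 t, ?_⟩, ?_, ?_, ?_⟩
    · intro e
      simp only
      rw [N_abs _ _ (X (rot^[j.val] e)) (Y (rot^[j.val] e)) (habs _ _ hs1) (habs _ _ ht1)]
      exact hg'.2.2 e
    · simp only [hz, ht2]
      exact abs_nonneg _
    · simp only [hz, ht2, hs2]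
      exact h
    · intro e he
      simp only [hz, ht2, hs2, habs _ _ hs1, habs _ _ ht1]
      have := hcross _ (rot_iter_lt j.val e he)
      rwa [max_eq_left h, min_eq_right h] at this
  · refine ⟨fun e => t * Y (rot^[j.val] e), fun e => s * X (rot^[j.val] e), ⟨Fl_mul hg'.2.1 t,
      Fl_mul hg'.1 s, ?_⟩, ?_, ?_, ?_⟩
    · intro e
      simp only
      rw [N_symm, N_abs _ _ (X (rot^[j.val] e)) (Y (rot^[j.val] e)) (habs _ _ hs1) (habs _ _ ht1)]
      exact hg'.2.2 e
    · simp only [hz, hs2]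
      exact abs_nonneg _
    · simp only [hz, ht2, hs2]
      exact h
    · intro e he
      simp only [hz, ht2, hs2, habs _ _ hs1, habs _ _ ht1]
      have := hcross _ (rot_iter_lt j.val e he)
      rw [max_eq_right h, min_eq_left h] at this
      rwa [min_comm, max_comm]

end Pool.Agent.H213.PD
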