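import Mathlib

/-! Algebra behind the equation of Chern-Moser chains: a commutative ring with three derivations. -/

namespace Pool.Agent.H213

/-- A commutative ring with derivations `L`, `Lb`, `T`, a conjugation and a decreasing sequence of
ideals, modelled on germs of real-analytic functions on a hypersurface. -/
structure CRRing (R : Type*) [CommRing R] where
  L : Derivation ℤ R R
  Lb : Derivation ℤ R R
  T : Derivation ℤ R R
  cj : R →+* R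
  J : ℕ → Ideal R
  i : R
  h : R
  au : R
  ell : R
  hi : i * i = -1
  hh : 2 * h = 1
  Li : L i = 0
  Lbi : Lb i = 0
  Ti : T i = 0
  cji : cj i = - i
  cjcj : ∀ f, cj (cj f) = f
  cjL : ∀ f, cj (L f) = Lb (cj f)
  cjT : ∀ f, cj (T f) = T (cj f)
  cjell : cj ell = - ell
  LbL : ∀ f, Lb (L f) = L (Lb f) + ell * T f
  TL : ∀ f, T (L f) = L (T f) + au * T f
  Tell : T ell = Lb au - L (cj au)
  anti : ∀ k, J (k+1) ≤ J k
  JL : ∀ k f, f ∈ J (k+1) → L f ∈ J k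
  JLb : ∀ k f, f ∈ J (k+1) → Lb f ∈ J k
  JT : ∀ k f, f ∈ J (k+1) → T f ∈ J k
  Jcj : ∀ k f, f ∈ J k → cj f ∈ J k

variable {R : Type*} [CommRing R] (S : CRRing R)

theorem CRRing.hL (f g : R) : S.L (f * g) = S.L f * g + f * S.L g := by
  rw [Derivation.leibniz]; simp only [smul_eq_mul]; ring
theorem CRRing.hLb (f g : R) : S.Lb (f * g) = S.Lb f * g + f * S.Lb g := by
  rw [Derivation.leibniz]; simp only [smul_eq_mul]; ring
theorem CRRing.hT (f g : R) : S.T (f * g) = S.T f * g + f * S.T g := by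
  rw [Derivation.leibniz]; simp only [smul_eq_mul]; ring
theorem CRRing.L2 : S.L 2 = 0 := by
  have := S.L.map_natCast 2
  simpa using this
theorem CRRing.Lb2 : S.Lb 2 = 0 := by
  have := S.Lb.map_natCast 2
  simpa using this
theorem CRRing.T2 : S.T 2 = 0 := by
  have := S.T.map_natCast 2
  simpa using this

theorem CRRing.anti' {j k : ℕ} (hjk : j ≤ k) : S.J k ≤ S.J j := by
  induction hjk with
  | refl => exact le_rfl
  | step _ ih => exact (S.anti _).trans ih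

/-- First consequences of the normal form. -/
theorem CRRing.first (Z W : R)
    (LbZ : S.Lb Z = 0) (LbW : S.Lb W = 0) :
    S.L (W - S.cj W - 2 * S.i * Z * S.cj Z) = S.L W - 2 * S.i * S.L Z * S.cj Z ∧
    S.ell * (S.T W - 2 * S.i * S.cj Z * S.T Z) = 2 * S.i * S.L Z * S.cj (S.L Z) +
      S.Lb (S.L (W - S.cj W - 2 * S.i * Z * S.cj Z)) := by
  obtain ⟨B, hB⟩ : ∃ B, B = S.L Z := ⟨_, rfl⟩
  obtain ⟨Zb, hZb⟩ : ∃ Zb, Zb = S.cj Z := ⟨_, rfl⟩
  obtain ⟨Wb, hWb⟩ : ∃ Wb, Wb = S.cj W := ⟨_, rfl⟩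
  obtain ⟨Bb, hBb⟩ : ∃ Bb, Bb = S.cj B := ⟨_, rfl⟩
  rw [← hB, ← hZb, ← hWb, ← hBb]
  have LbZb : S.Lb Zb = Bb := by rw [hZb, ← S.cjL, hBb, hB]
  have LZb : S.L Zb = 0 := by
    have : S.cj (S.L Zb) = 0 := by rw [S.cjL, hZb, S.cjcj, LbZ]
    have h2 := congrArg S.cj this
    rwa [S.cjcj, map_zero] at h2
  have LWb : S.L Wb = 0 := by
    have : S.cj (S.L Wb) = 0 := by rw [S.cjL, hWb, S.cjcj, LbW]
    have h2 := congrArg S.cj this
    rwa [S.cjcj, map_zero] at h2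
  have s1 : S.L (W - Wb - 2 * S.i * Z * Zb) = S.L W - 2 * S.i * B * Zb := by
    rw [map_sub, map_sub, LWb, S.hL, S.hL, S.hL, S.L2, S.Li, LZb, ← hB]; ring
  have LbB : S.Lb B = S.ell * S.T Z := by rw [hB, S.LbL, LbZ, map_zero]; ring
  refine ⟨s1, ?_⟩
  rw [s1, map_sub, S.LbL, LbW, map_zero, S.hLb, S.hLb, S.hLb, S.Lb2, S.Lbi, LbZb, LbB]; ring

/-- The conclusion of the algebraic computation. -/
theorem CRRing.main (Z W Bi Ei x sg e' : R)
    (LbZ : S.Lb Z = 0) (LbW : S.Lb W = 0)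
    (hn : W - S.cj W - 2 * S.i * Z * S.cj Z ∈ S.J 6)
    (hBi : S.L Z * Bi = 1)
    (hEi : (S.T W - 2 * S.i * S.cj Z * S.T Z) * Ei = 1)
    (hx : x * (S.T W - 2 * S.i * S.cj Z * S.T Z) = S.L (S.T W - 2 * S.i * S.cj Z * S.T Z) +
      S.au * (S.T W - 2 * S.i * S.cj Z * S.T Z))
    (hsg : sg * S.ell = S.L S.ell - S.au * S.ell)
    (he : e' * (S.T W - 2 * S.i * S.cj Z * S.T Z) = S.T (S.T W - 2 * S.i * S.cj Z * S.T Z)) :
    (∃ n1 ∈ S.J 4, S.ell * (S.T W - 2 * S.i * S.cj Z * S.T Z) = 2 * S.i * S.L Z * S.cj (S.L Z) + n1) ∧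
    (∃ n2 ∈ S.J 4, x * (S.T W - 2 * S.i * S.cj Z * S.T Z) = 2 * S.i * S.L Z * S.T (S.cj Z) + n2) ∧
    S.L x - (x * x + sg * x) ∈ S.J 1 ∧
    4 * S.Lb x - (-2 * x * S.cj x - S.Lb sg + 2 * (S.ell * e' + S.T S.ell)) ∈ S.J 1 ∧
    6 * S.ell * S.T x * 2 - (-6 * x * x * S.cj x + 3 * S.Lb sg * x + 6 * x * (S.ell * e' + S.T S.ell)
      - 2 * sg * S.Lb sg + 2 * S.L (S.Lb sg) - 4 * S.ell * S.T sg) ∈ S.J 1 := by
  obtain ⟨B, hB⟩ : ∃ B, B = S.L Z := ⟨_, rfl⟩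
  obtain ⟨Zb, hZb⟩ : ∃ Zb, Zb = S.cj Z := ⟨_, rfl⟩
  obtain ⟨Wb, hWb⟩ : ∃ Wb, Wb = S.cj W := ⟨_, rfl⟩
  obtain ⟨Bb, hBb⟩ : ∃ Bb, Bb = S.cj B := ⟨_, rfl⟩
  obtain ⟨xb, hxb⟩ : ∃ xb, xb = S.cj x := ⟨_, rfl⟩
  obtain ⟨E, hE⟩ : ∃ E, E = S.T W - 2 * S.i * S.cj Z * S.T Z := ⟨_, rfl⟩
  obtain ⟨n, hnn⟩ : ∃ n, n = W - S.cj W - 2 * S.i * Z * S.cj Z := ⟨_, rfl⟩
  rw [← hE] at hEi hx he ⊢
  rw [← hB] at hBi ⊢
  rw [← hnn] at hn
  rw [← hZb, ← hxb, ← hBb]
  have aub := S.cj S.au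
  -- conjugates
  have LbZb : S.Lb Zb = Bb := by rw [hZb, ← S.cjL, hBb, hB]
  have LZb : S.L Zb = 0 := by
    have : S.cj (S.L Zb) = 0 := by rw [S.cjL, hZb, S.cjcj, LbZ]
    have h2 := congrArg S.cj this
    rwa [S.cjcj, map_zero] at h2
  have LWb : S.L Wb = 0 := by
    have : S.cj (S.L Wb) = 0 := by rw [S.cjL, hWb, S.cjcj, LbW]
    have h2 := congrArg S.cj this
    rwa [S.cjcj, map_zero] at h2
  have hn' : n = W - Wb - 2 * S.i * Z * Zb := by rw [hnn, hWb, hZb]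
  have hE' : E = S.T W - 2 * S.i * Zb * S.T Z := by rw [hE, hZb]
  -- S1
  have s1 : S.L n = S.L W - 2 * S.i * B * Zb := by
    rw [hn', map_sub, map_sub, LWb, S.hL, S.hL, S.hL, S.L2, S.Li, LZb, ← hB]; ring
  have LbB : S.Lb B = S.ell * S.T Z := by rw [hB, S.LbL, LbZ, map_zero]; ring
  -- S2
  have s2 : S.ell * E = 2 * S.i * B * Bb + S.Lb (S.L n) := by
    rw [s1, map_sub, S.LbL, LbW, map_zero, S.hLb, S.hLb, S.hLb, S.Lb2, S.Lbi, LbZb, LbB, hE']; ring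
  -- S3
  have Eb : S.cj E = S.T Wb + 2 * S.i * Z * S.T Zb := by
    rw [hE', map_sub, map_mul, map_mul, map_mul, S.cjT, S.cjT, S.cji, ← hWb, hZb, S.cjcj, ← hZb]
    simp only [map_ofNat]; ring
  have s3 : E - S.cj E = S.T n := by
    rw [Eb, hE', hn', map_sub, map_sub, S.hT, S.hT, S.hT, S.T2, S.Ti]; ring
  -- S4
  have TB : S.T B = S.L (S.T Z) + S.au * S.T Z := by rw [hB, S.TL]
  have s4 : S.L E + S.au * E = 2 * S.i * B * S.T Zb + S.T (S.L n) := by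
    rw [s1, map_sub, S.TL, S.hT, S.hT, S.hT, S.T2, S.Ti, TB, hE', map_sub, S.hL, S.hL, S.hL, S.L2,
      S.Li, LZb]; ring
  -- S5
  have LBb : S.L Bb = - (S.ell * S.T Zb) := by
    have := S.LbL Zb
    rw [LZb, map_zero, LbZb] at this
    linear_combination -this
  -- memberships
  have J5n : S.L n ∈ S.J 5 := S.JL 5 _ hn
  have n1m : S.Lb (S.L n) ∈ S.J 4 := S.JLb 4 _ J5n
  have n2m : S.T (S.L n) ∈ S.J 4 := S.JT 4 _ J5n
  have Tnm : S.T n ∈ S.J 5 := S.JT 5 _ hn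
  obtain ⟨n1, hn1⟩ : ∃ n1, n1 = S.Lb (S.L n) := ⟨_, rfl⟩
  obtain ⟨n2, hn2⟩ : ∃ n2, n2 = S.T (S.L n) := ⟨_, rfl⟩
  rw [← hn1] at n1m s2
  rw [← hn2] at n2m s4
  have i2 : S.i * S.i = -1 := S.hi
  have hh := S.hh
  have LE : S.L E = x * E - S.au * E := by linear_combination -hx
  have Lell : S.L S.ell = sg * S.ell + S.au * S.ell := by linear_combination -hsg
  have xE : x * E = 2 * S.i * B * S.T Zb + n2 := by rw [hx, s4]
  have BBi : Bb * S.cj Bi = 1 := by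
    have := congrArg S.cj hBi
    rwa [map_mul, map_one, ← hBb] at this
  have mem3 : ∀ {k : ℕ} {a b c : R} (p q r : R), a ∈ S.J k → b ∈ S.J k → c ∈ S.J k →
      p * a + q * b + r * c ∈ S.J k := fun p q r ha hb hc =>
    (S.J _).add_mem ((S.J _).add_mem ((S.J _).mul_mem_left _ ha) ((S.J _).mul_mem_left _ hb))
      ((S.J _).mul_mem_left _ hc)
  -- S6
  have s6a : 2 * S.i * Bb * S.L B = (sg + 2 * x) * (S.ell * E) - S.ell * n2 - S.L n1 := by
    have e1 := congrArg S.L s2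
    rw [map_add, S.hL, S.hL, S.hL, S.hL, S.L2, S.Li, LE, Lell, LBb] at e1
    linear_combination -e1 - S.ell * xE
  obtain ⟨m3, hm3⟩ : ∃ m3, m3 = S.L B - (sg + 2 * x) * B := ⟨_, rfl⟩
  have m3m : m3 ∈ S.J 3 := by
    have e : m3 = (-S.i * S.h * S.cj Bi * (sg + 2 * x)) * n1 +
        (S.i * S.h * S.cj Bi * S.ell) * n2 + (S.i * S.h * S.cj Bi) * S.L n1 := by
      have e1 : 2 * S.i * Bb * m3 = (sg + 2 * x) * n1 - S.ell * n2 - S.L n1 := by
        rw [hm3]; linear_combination s6a + (sg + 2 * x) * s2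
      have e2 : m3 = (-S.i * S.h * S.cj Bi) * (2 * S.i * Bb * m3) := by
        linear_combination (2 * S.h * S.cj Bi * Bb * m3) * i2 - m3 * (Bb * S.cj Bi) * hh - m3 * BBi
      rw [e2, e1]; ring
    rw [e]
    exact mem3 _ _ _ (S.anti 3 n1m) (S.anti 3 n2m) (S.JL 3 _ n1m)
  have LB : S.L B = (sg + 2 * x) * B + m3 := by rw [hm3]; ring
  -- S7
  have LTZb : S.L (S.T Zb) = - (S.au * S.T Zb) := by
    have := S.TL Zb
    rw [LZb, map_zero] at this
    linear_combination -this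
  obtain ⟨rA, hrA⟩ : ∃ rA, rA = S.L x - (x * x + sg * x) := ⟨_, rfl⟩
  have rAm : rA ∈ S.J 3 := by
    have e1 := congrArg S.L xE
    rw [map_add, S.hL, S.hL, S.hL, S.hL, S.L2, S.Li, LE, LTZb, LB] at e1
    have e2 : E * rA = (-(sg + 2 * x) + S.au) * n2 + (2 * S.i * S.T Zb) * m3 + 1 * S.L n2 := by
      rw [hrA]; linear_combination e1 - ((sg + 2 * x) - S.au) * xE
    have e3 : rA = Ei * (E * rA) := by linear_combination -rA * hEi
    rw [e3, e2]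
    exact (S.J 3).mul_mem_left _ (mem3 _ _ _ (S.anti 3 n2m) m3m (S.JL 3 _ n2m))
  have Lx : S.L x = x * x + sg * x + rA := by rw [hrA]; ring
  -- S8
  obtain ⟨m4, hm4⟩ : ∃ m4, m4 = 2 * S.i * Bb * S.T Z + xb * E := ⟨_, rfl⟩
  have m4m : m4 ∈ S.J 4 := by
    have e1 := congrArg S.cj xE
    rw [map_mul, map_add, map_mul, map_mul, map_mul, S.cji, ← hxb, ← hBb, S.cjT, hZb, S.cjcj] at e1
    simp only [map_ofNat] at e1
    have e2 : m4 = xb * S.T n + 1 * S.cj n2 + 0 * S.cj n2 := by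
      rw [hm4]; linear_combination e1 + xb * s3
    rw [e2]
    exact mem3 _ _ _ (S.anti 4 Tnm) (S.Jcj 4 _ n2m) (S.Jcj 4 _ n2m)
  have TZ : 2 * S.i * Bb * S.T Z = - xb * E + m4 := by rw [hm4]; ring
  -- S9
  obtain ⟨m9, hm9⟩ : ∃ m9, m9 = S.L Bb + x * Bb := ⟨_, rfl⟩
  have m9m : m9 ∈ S.J 4 := by
    have e1 : 2 * S.i * B * m9 = S.ell * n2 - x * n1 := by
      rw [hm9, LBb]; linear_combination (S.ell) * xE - x * s2
    have e2 : m9 = (-S.i * S.h * Bi) * (2 * S.i * B * m9) := by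
      linear_combination (2 * S.h * Bi * B * m9) * i2 - m9 * (B * Bi) * hh - m9 * hBi
    have e3 : m9 = (-S.i * S.h * Bi * S.ell) * n2 + (S.i * S.h * Bi * x) * n1 + 0 * n1 := by
      rw [e2, e1]; ring
    rw [e3]
    exact mem3 _ _ _ n2m n1m n1m
  have LBb' : S.L Bb = - x * Bb + m9 := by rw [hm9]; ring
  obtain ⟨m9b, hm9b⟩ : ∃ m9b, m9b = S.cj m9 := ⟨_, rfl⟩
  have m9bm : m9b ∈ S.J 4 := by rw [hm9b]; exact S.Jcj 4 _ m9m
  have LbB' : S.Lb B = - xb * B + m9b := by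
    have e1 := congrArg S.cj hm9
    rw [map_add, S.cjL, map_mul, hBb, S.cjcj, ← hxb, ← hm9b] at e1
    linear_combination -e1
  -- S10
  obtain ⟨m10, hm10⟩ : ∃ m10, m10 = S.L m4 + x * m4 - 2 * S.i * S.T Z * m9 + S.au * m4 := ⟨_, rfl⟩
  have m10m : m10 ∈ S.J 3 := by
    rw [hm10]
    refine (S.J 3).add_mem ((S.J 3).sub_mem ((S.J 3).add_mem (S.JL 3 _ m4m)
      ((S.J 3).mul_mem_left _ (S.anti 3 m4m))) ((S.J 3).mul_mem_left _ (S.anti 3 m9m)))
      ((S.J 3).mul_mem_left _ (S.anti 3 m4m))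
  have s10 : 2 * S.i * Bb * S.T B = - (S.L xb + 2 * x * xb) * E + m10 := by
    have e1 := congrArg S.L TZ
    rw [map_add, S.hL, S.hL, S.hL, S.hL, S.L2, S.Li, LE, map_neg, LBb'] at e1
    rw [TB, hm10]
    linear_combination e1 + (x + S.au) * TZ
  -- S11
  have s11 : 2 * S.i * B * Bb * (S.Lb sg + 2 * S.Lb x + 2 * S.L xb + 2 * x * xb) =
      - (2 * S.i * Bb) * ((sg + 2 * x) * m9b + S.Lb m3 + xb * m3 - S.L m9b)
      - (S.L xb + 2 * x * xb) * n1 + S.ell * m10 := by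
    have e1 := S.LbL B
    rw [LB, LbB', map_add, map_add, S.hLb, map_add, S.hLb, S.hL, map_neg, LbB', LB, S.Lb2] at e1
    linear_combination (2 * S.i * Bb) * e1 + S.ell * s10 - (S.L xb + 2 * x * xb) * s2
  obtain ⟨r2, hr2⟩ : ∃ r2, r2 = S.Lb sg + 2 * S.Lb x + 2 * S.L xb + 2 * x * xb := ⟨_, rfl⟩
  have r2m : r2 ∈ S.J 2 := by
    rw [← hr2] at s11
    have e2 : r2 = (-S.i * S.h * Bi * S.cj Bi) * (2 * S.i * B * Bb * r2) := by
      linear_combination (2 * S.h * Bi * B * Bb * S.cj Bi * r2) * i2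
        - r2 * (B * Bi * Bb * S.cj Bi) * hh - r2 * (Bb * S.cj Bi) * hBi - r2 * BBi
    rw [e2, s11]
    refine (S.J 2).mul_mem_left _ ((S.J 2).add_mem ((S.J 2).sub_mem ((S.J 2).mul_mem_left _ ?_)
      ((S.J 2).mul_mem_left _ (S.anti' (by norm_num) n1m)))
      ((S.J 2).mul_mem_left _ (S.anti' (by norm_num) m10m)))
    exact (S.J 2).sub_mem ((S.J 2).add_mem ((S.J 2).add_mem
      ((S.J 2).mul_mem_left _ (S.anti' (by norm_num) m9bm)) (S.JLb 2 _ m3m))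
      ((S.J 2).mul_mem_left _ (S.anti' (by norm_num) m3m)))
      (S.anti' (by norm_num) (S.JL 3 _ m9bm))
  -- S12
  obtain ⟨ab, hab⟩ : ∃ ab, ab = S.cj S.au := ⟨_, rfl⟩
  have Tell : S.T S.ell = S.Lb S.au - S.L ab := by rw [hab]; exact S.Tell
  obtain ⟨xt, hxt⟩ : ∃ xt, xt = Ei * (S.Lb E + ab * E) := ⟨_, rfl⟩
  have hxt' : E * xt = S.Lb E + ab * E := by
    rw [hxt]; linear_combination (S.Lb E + ab * E) * hEi
  have hxtm : xb - xt ∈ S.J 4 := by
    have e1 := congrArg S.cj hx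
    rw [map_mul, map_add, map_mul, S.cjL, ← hab, ← hxb] at e1
    have e3 : S.cj E = E - S.T n := by linear_combination -s3
    rw [e3, map_sub] at e1
    have e4 : xb - xt = Ei * (xb * S.T n + (-ab) * S.T n + (-1) * S.Lb (S.T n)) := by
      linear_combination Ei * e1 - (xb - xt) * hEi - Ei * hxt'
    rw [e4]
    exact (S.J 4).mul_mem_left _ (mem3 _ _ _ (S.anti 4 Tnm) (S.anti 4 Tnm) (S.JLb 4 _ Tnm))
  have hxC : S.Lb x - S.L xt = S.ell * e' + S.T S.ell := by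
    have e1 := congrArg S.Lb hx
    have e2 := congrArg S.L hxt'
    rw [map_add, S.hLb, S.hLb, S.LbL] at e1
    rw [map_add, S.hL, S.hL] at e2
    have e3 : E * (x * S.Lb E - xt * S.L E - (S.au * S.Lb E - ab * S.L E)) = 0 := by
      linear_combination (S.Lb E) * hx - (S.L E) * hxt'
    have e4 : x * S.Lb E - xt * S.L E - (S.au * S.Lb E - ab * S.L E) = 0 := by
      have : x * S.Lb E - xt * S.L E - (S.au * S.Lb E - ab * S.L E) =
        Ei * (E * (x * S.Lb E - xt * S.L E - (S.au * S.Lb E - ab * S.L E))) := by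
        linear_combination -(x * S.Lb E - xt * S.L E - (S.au * S.Lb E - ab * S.L E)) * hEi
      rw [this, e3, mul_zero]
    have e5 : E * (S.Lb x - S.L xt - (S.ell * e' + S.T S.ell)) = 0 := by
      rw [Tell]
      linear_combination e1 - e2 - S.ell * he - e4
    have : S.Lb x - S.L xt - (S.ell * e' + S.T S.ell) =
      Ei * (E * (S.Lb x - S.L xt - (S.ell * e' + S.T S.ell))) := by
      linear_combination -(S.Lb x - S.L xt - (S.ell * e' + S.T S.ell)) * hEi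
    rw [e5, mul_zero] at this
    linear_combination this
  obtain ⟨D', hD⟩ : ∃ D', D' = S.ell * e' + S.T S.ell := ⟨_, rfl⟩
  rw [← hD] at hxC ⊢
  obtain ⟨r3, hr3⟩ : ∃ r3, r3 = S.Lb x - S.L xb - D' := ⟨_, rfl⟩
  have r3m : r3 ∈ S.J 3 := by
    have e1 : r3 = - S.L (xb - xt) := by
      rw [hr3, map_sub]; linear_combination hxC
    rw [e1]
    exact (S.J 3).neg_mem (S.JL 3 _ hxtm)
  -- S13
  have Le' : S.L e' = S.T x - S.T S.au - S.au * e' := by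
    have e1 := congrArg S.L he
    rw [S.hL] at e1
    have e2 := S.TL E
    have e3 := congrArg S.T hx
    rw [S.hT, map_add, S.hT, e2] at e3
    have e4 : E * (S.L e' - (S.T x - S.T S.au - S.au * e')) = 0 := by
      linear_combination e1 - e3 - x * he + e' * hx + 2 * S.au * he
    have : S.L e' - (S.T x - S.T S.au - S.au * e') =
      Ei * (E * (S.L e' - (S.T x - S.T S.au - S.au * e'))) := by
      linear_combination -(S.L e' - (S.T x - S.T S.au - S.au * e')) * hEi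
    rw [e4, mul_zero] at this
    linear_combination this
  -- S14
  have LD : S.L D' = sg * D' + S.ell * S.T x + S.ell * S.T sg := by
    have e1 := S.TL S.ell
    rw [Lell, map_add, S.hT, S.hT] at e1
    rw [hD, map_add, S.hL, Le', Lell]
    linear_combination -e1
  -- S15
  have hB4 : 4 * S.Lb x = -2 * x * xb - S.Lb sg + 2 * D' + r2 + 2 * r3 := by
    rw [hr2, hr3]; ring
  have hL4 : 4 * S.L xb = -2 * x * xb - S.Lb sg - 2 * D' + r2 - 2 * r3 := by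
    rw [hr2, hr3]; ring
  have L4 : S.L 4 = 0 := by
    have := S.L.map_natCast 4
    simpa using this
  have hLB4 := congrArg S.L hB4
  rw [S.hL, L4, map_add, map_add, map_add, map_sub, S.hL, S.hL, S.hL, S.hL, S.L2, map_neg, S.L2,
    Lx, LD] at hLB4
  have hcomm := S.LbL x
  rw [Lx, map_add, map_add, S.hLb, S.hLb] at hcomm
  have main12 : 6 * S.ell * S.T x * 2 = (-6 * x * x * xb + 3 * S.Lb sg * x + 6 * x * D'
      - 2 * sg * S.Lb sg + 2 * S.L (S.Lb sg) - 4 * S.ell * S.T sg) +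
      (2 * (2 * x + sg) * (r2 + 2 * r3) + 8 * S.Lb rA + 4 * rA * xb + x * (r2 - 2 * r3)
        - 2 * S.L r2 - 4 * S.L r3) := by
    linear_combination (-8) * hcomm - 2 * hLB4 + 2 * (2 * x + sg) * hB4 + x * hL4
  refine ⟨⟨n1, n1m, s2⟩, ⟨n2, n2m, ?_⟩, ?_, ?_, ?_⟩
  · exact xE
  · rw [← hrA]; exact S.anti' (by norm_num) rAm
  · have e : 4 * S.Lb x - (-2 * x * xb - S.Lb sg + 2 * D') = 1 * r2 + 2 * r3 + 0 * r3 := by
      rw [hB4]; ring
    rw [e]
    exact mem3 _ _ _ (S.anti' (by norm_num) r2m) (S.anti' (by norm_num) r3m)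
      (S.anti' (by norm_num) r3m)
  · rw [main12, add_sub_cancel_left]
    have r2' : r2 ∈ S.J 1 := S.anti' (by norm_num) r2m
    have r3' : r3 ∈ S.J 1 := S.anti' (by norm_num) r3m
    have rA' : rA ∈ S.J 1 := S.anti' (by norm_num) rAm
    refine (S.J 1).sub_mem ((S.J 1).sub_mem ((S.J 1).add_mem ((S.J 1).add_mem ((S.J 1).add_mem
      ((S.J 1).mul_mem_left _ ((S.J 1).add_mem r2' ((S.J 1).mul_mem_left _ r3')))
      ((S.J 1).mul_mem_left _ (S.anti' (by norm_num) (S.JLb 2 _ rAm))))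
      ((S.J 1).mul_mem_right _ ((S.J 1).mul_mem_left _ rA')))
      ((S.J 1).mul_mem_left _ ((S.J 1).sub_mem r2' ((S.J 1).mul_mem_left _ r3'))))
      ((S.J 1).mul_mem_left _ (S.JL 1 _ r2m)))
      ((S.J 1).mul_mem_left _ (S.anti' (by norm_num) (S.JL 2 _ r3m)))

end Pool.Agent.H213
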