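import Pool.Agent.H979.BK.Stm

/-!
# Project BK: iteration of the contraction
-/

open Filter Topology Finset Pool.Agent.H979.BK

namespace Pool.Agent.H213.BKI

theorem exists_perm {d n : ℕ} {u : Ball d n → Fin d} (hu : Bal u) :
    ∃ ρ : Equiv.Perm (Ball d n), ∀ b, (ρ b).1 = u b := by
  have h1 : ∀ i : Fin d, Fintype.card {b : Ball d n // u b = i} =
      Fintype.card {b : Ball d n // b.1 = i} := by
    intro i
    have h2 : Fintype.card {b : Ball d n // u b = i} = n := by
      rw [Fintype.card_subtype]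
      exact hu i
    have h3 : Fintype.card {b : Ball d n // b.1 = i} = n := by
      have e : {b : Ball d n // b.1 = i} ≃ Fin n :=
        { toFun := fun b => b.1.2
          invFun := fun a => ⟨(i, a), rfl⟩
          left_inv := by
            rintro ⟨⟨j, a⟩, h⟩
            simp only at h
            subst h
            rfl
          right_inv := fun a => rfl }
      rw [Fintype.card_congr e, Fintype.card_fin]
    rw [h2, h3]
  let e : ∀ i : Fin d, {b : Ball d n // u b = i} ≃ {b : Ball d n // b.1 = i} :=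
    fun i => Fintype.equivOfCardEq (h1 i)
  exact ⟨Equiv.ofFiberEquiv e, fun b => Equiv.ofFiberEquiv_map e b⟩

theorem card_comp {d n : ℕ} (ρ : Equiv.Perm (Ball d n)) (P : Ball d n → Prop) [DecidablePred P] :
    (univ.filter fun b => P (ρ.symm b)).card = (univ.filter fun b => P b).card := by
  refine Finset.card_bij (fun b _ => ρ.symm b) ?_ ?_ ?_
  · intro b hb
    rw [Finset.mem_filter] at hb ⊢
    exact ⟨Finset.mem_univ _, hb.2⟩
  · intro a _ b _ h
    exact ρ.symm.injective h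
  · intro b hb
    rw [Finset.mem_filter] at hb
    refine ⟨ρ b, ?_, ρ.symm_apply_apply b⟩
    rw [Finset.mem_filter]
    refine ⟨Finset.mem_univ _, ?_⟩
    rw [ρ.symm_apply_apply]
    exact hb.2

theorem bal_comp {d n : ℕ} {c : Ball d n → Fin d} (hc : Bal c) (ρ : Equiv.Perm (Ball d n)) :
    Bal (c ∘ ρ.symm) := by
  intro i
  have h := card_comp ρ (fun b => c b = i)
  rw [hc i] at h
  exact h

theorem cnt_comp {d n : ℕ} (c : Ball d n → Fin d) {u : Ball d n → Fin d}
    {ρ : Equiv.Perm (Ball d n)} (hρ : ∀ b, (ρ b).1 = u b) :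
    cnt c u = cnt (c ∘ ρ.symm) Prod.fst := by
  funext l j
  unfold cnt
  have h := card_comp ρ (fun b => u b = l ∧ c b = j)
  rw [← h]
  have h2 : ∀ b, u (ρ.symm b) = b.1 := by
    intro b
    rw [← hρ, ρ.apply_symm_apply]
  refine congrArg Finset.card (Finset.filter_congr fun b _ => ?_)
  rw [h2]
  exact Iff.rfl

open Classical in
/-- the value of the chain as a function of the counts at time 0 -/
noncomputable def gx (d n k : ℕ) (μ : Equiv.Perm (Fin d) → ℝ) (M : ℕ)
    (f : (Fin d → Fin d → ℕ) → ℝ) (x : Fin d → Fin d → ℕ) : ℝ :=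
  if h : ∃ c : Ball d n → Fin d, Bal c ∧ cnt c Prod.fst = x then
    E μ k M (fun u => f (cnt h.choose u)) else 0

theorem gx_spec (h2 : S_A2) {d n k : ℕ} {μ : Equiv.Perm (Fin d) → ℝ} (M : ℕ)
    (f : (Fin d → Fin d → ℕ) → ℝ) (c : Ball d n → Fin d) (hc : Bal c) :
    gx d n k μ M f (cnt c Prod.fst) = E μ k M (fun u => f (cnt c u)) := by
  have h : ∃ c' : Ball d n → Fin d, Bal c' ∧ cnt c' Prod.fst = cnt c Prod.fst := ⟨c, hc, rfl⟩
  unfold gx
  rw [dif_pos h]
  exact (h2 d n k μ M).2 f h.choose c h.choose_spec.2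

theorem step (h1 : S_A1) (h2 : S_A2) (h4 : S_A4) (hM : S_MATCH) {d n k : ℕ}
    {μ : Equiv.Perm (Fin d) → ℝ} (hμ : IsProb μ) (hk : k ≤ n) (m r : ℕ) (ρ C Lc ν : ℝ)
    (f β : (Fin d → Fin d → ℕ) → ℝ) (hρ : 0 ≤ ρ) (hLc : 0 ≤ Lc)
    (H1 : ∀ c c' : Ball d n → Fin d, Bal c → Bal c' →
      (dif c c' : ℝ) ≤ ell (cnt c Prod.fst) (cnt c' Prod.fst) →
      E μ k m (fun u => ell (cnt c u) (cnt c' u)) ≤
        ρ * ell (cnt c Prod.fst) (cnt c' Prod.fst) + C)
    (H2 : ∀ c c' : Ball d n → Fin d, Bal c → Bal c' →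
      |E μ k r (fun u => f (cnt c u)) - E μ k r (fun u => f (cnt c' u))| ≤
        Lc * ell (cnt c Prod.fst) (cnt c' Prod.fst) + ν + β (cnt c' Prod.fst)) :
    ∀ (b : ℕ) (c c' : Ball d n → Fin d), Bal c → Bal c' →
      |E μ k (b * m + r) (fun u => f (cnt c u)) - E μ k (b * m + r) (fun u => f (cnt c' u))| ≤
        Lc * (ρ ^ b * ell (cnt c Prod.fst) (cnt c' Prod.fst) + (∑ i ∈ range b, ρ ^ i) * C) + ν +
          E μ k (b * m) (fun u => β (cnt c' u)) := by
  intro b
  induction b with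
  | zero =>
    intro c c' hc hc'
    have h := H2 c c' hc hc'
    have e : E μ k (0 * m) (fun u => β (cnt c' u)) = β (cnt c' Prod.fst) := by
      rw [Nat.zero_mul]
      rfl
    rw [e, Nat.zero_mul, Nat.zero_add, pow_zero, one_mul, Finset.sum_range_zero, zero_mul, add_zero]
    exact h
  | succ b ih =>
    intro c c' hc hc'
    obtain ⟨c1, c1', hb1, hb1', e1, e1', hd⟩ := hM d n c c' hc hc'
    -- replace the colourings
    have r1 : ∀ (M : ℕ) (φ : (Fin d → Fin d → ℕ) → ℝ),
        E μ k M (fun u => φ (cnt c u)) = E μ k M (fun u => φ (cnt c1 u)) :=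
      fun M φ => (h2 d n k μ M).2 φ c c1 e1.symm
    have r1' : ∀ (M : ℕ) (φ : (Fin d → Fin d → ℕ) → ℝ),
        E μ k M (fun u => φ (cnt c' u)) = E μ k M (fun u => φ (cnt c1' u)) :=
      fun M φ => (h2 d n k μ M).2 φ c' c1' e1'.symm
    have hd' : (dif c1 c1' : ℝ) ≤ ell (cnt c1 Prod.fst) (cnt c1' Prod.fst) := by
      rw [e1, e1']
      exact hd
    have hH := H1 c1 c1' hb1 hb1' hd'
    -- Markov property
    have hexp : (b + 1) * m + r = m + (b * m + r) := by ring
    have hexp' : (b + 1) * m = m + b * m := by ring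
    have m1 : ∀ c2 : Ball d n → Fin d, Bal c2 →
        E μ k ((b + 1) * m + r) (fun u => f (cnt c2 u)) =
          E μ k m (fun u => gx d n k μ (b * m + r) f (cnt c2 u)) := by
      intro c2 hc2
      rw [hexp]
      exact h4 d n k μ hμ hk m (b * m + r) f (gx d n k μ (b * m + r) f)
        (fun c3 hc3 => gx_spec h2 (b * m + r) f c3 hc3) c2 hc2
    have m2 : E μ k ((b + 1) * m) (fun u => β (cnt c1' u)) =
        E μ k m (fun u => gx d n k μ (b * m) β (cnt c1' u)) := by
      rw [hexp']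
      exact h4 d n k μ hμ hk m (b * m) β (gx d n k μ (b * m) β)
        (fun c3 hc3 => gx_spec h2 (b * m) β c3 hc3) c1' hb1'
    rw [r1, r1', r1', m1 c1 hb1, m1 c1' hb1', m2, ← e1, ← e1']
    -- the law after m moves
    obtain ⟨p, hp0, hp1, hpb, hpE⟩ := h1 d n k μ hμ hk m
    rw [hpE, hpE, hpE]
    rw [hpE] at hH
    rw [← Finset.sum_sub_distrib]
    have key : ∀ u : Ball d n → Fin d,
        |p u * gx d n k μ (b * m + r) f (cnt c1 u) - p u * gx d n k μ (b * m + r) f (cnt c1' u)| ≤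
          Lc * (ρ ^ b * (p u * ell (cnt c1 u) (cnt c1' u)) +
            (∑ i ∈ range b, ρ ^ i) * C * p u) + ν * p u +
            p u * gx d n k μ (b * m) β (cnt c1' u) := by
      intro u
      by_cases hu : Bal u
      · obtain ⟨ς, hς⟩ := exists_perm hu
        have a1 := cnt_comp c1 hς
        have a2 := cnt_comp c1' hς
        have hI := ih (c1 ∘ ς.symm) (c1' ∘ ς.symm) (bal_comp hb1 ς) (bal_comp hb1' ς)
        rw [← gx_spec h2 (b * m + r) f _ (bal_comp hb1 ς),
          ← gx_spec h2 (b * m + r) f _ (bal_comp hb1' ς),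
          ← gx_spec h2 (b * m) β _ (bal_comp hb1' ς), ← a1, ← a2] at hI
        rw [← mul_sub, abs_mul, abs_of_nonneg (hp0 u)]
        refine (mul_le_mul_of_nonneg_left hI (hp0 u)).trans (le_of_eq ?_)
        ring
      · rw [hpb u hu]
        simp
    refine (Finset.abs_sum_le_sum_abs _ _).trans ?_
    refine (Finset.sum_le_sum fun u _ => key u).trans ?_
    rw [Finset.sum_add_distrib, Finset.sum_add_distrib, ← Finset.mul_sum, Finset.sum_add_distrib,
      ← Finset.mul_sum, ← Finset.mul_sum, ← Finset.mul_sum, hp1, mul_one, mul_one]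
    have hmul := mul_le_mul_of_nonneg_left hH (mul_nonneg hLc (pow_nonneg hρ b))
    have hs : (∑ i ∈ range (b + 1), ρ ^ i) = (∑ i ∈ range b, ρ ^ i) + ρ ^ b :=
      Finset.sum_range_succ _ _
    rw [hs, pow_succ]
    nlinarith [hmul]

end Pool.Agent.H213.BKI

namespace Pool.Agent.H213

theorem bk_iter (h1 : S_A1) (h2 : S_A2) (h4 : S_A4) (hM : S_MATCH) : S_ITER := by
  intro d n k μ hμ hk m r ρ C Lc ν f β hρ hρ1 hC hLc hν hβ H1 H2 b c c' hc hc'
  refine (BKI.step h1 h2 h4 hM hμ hk m r ρ C Lc ν f β hρ hLc H1 H2 b c c' hc hc').trans ?_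
  have hgeo : (∑ i ∈ range b, ρ ^ i) ≤ 1 / (1 - ρ) := by
    have h0 : 0 < 1 - ρ := by linarith
    rw [le_div_iff₀ h0, mul_comm]
    have h5 : (1 - ρ) * ∑ i ∈ range b, ρ ^ i = 1 - ρ ^ b := by
      rw [mul_comm]
      exact geom_sum_mul_neg ρ b
    rw [h5]
    have := pow_nonneg hρ b
    linarith
  have h6 : (∑ i ∈ range b, ρ ^ i) * C ≤ C / (1 - ρ) := by
    have := mul_le_mul_of_nonneg_right hgeo hC
    rwa [one_div, inv_mul_eq_div] at this
  have h7 := mul_le_mul_of_nonneg_left h6 hLc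
  nlinarith [h7]

end Pool.Agent.H213
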