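import Pool.Agent.H213.Ring2

/-! The equation of Chern-Moser chains on a hypersurface `Im w = Fr (z, Re w)`. -/

open Filter Topology

namespace Pool.Agent.H213

open Complex (I)

/-- `a = i F_z / (1 - i F_u)`. -/
noncomputable def aF (Fr : V → ℝ) (p : V) : ℂ :=
  I * dz (fun q => (Fr q : ℂ)) p / (1 - I * du (fun q => (Fr q : ℂ)) p)
/-- The operator `L` on functions. -/
noncomputable def Lo (a : V → ℂ) (f : V → ℂ) (p : V) : ℂ := dz f p + a p * du f p
/-- The operator `L` conjugate on functions. -/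
noncomputable def Lbo (a : V → ℂ) (f : V → ℂ) (p : V) : ℂ := dzb f p + starRingEnd ℂ (a p) * du f p
/-- The Levi function. -/
noncomputable def elF (a : V → ℂ) (p : V) : ℂ := Lbo a a p - Lo a (fun q => starRingEnd ℂ (a q)) p
/-- The function `sigma`. -/
noncomputable def sgF (a : V → ℂ) (p : V) : ℂ := Lo a (elF a) p / elF a p - du a p
/-- The function `k`. -/
noncomputable def kF (a : V → ℂ) (p : V) : ℂ := Lbo a (sgF a) p
/-- The function `Q`. -/
noncomputable def QF (a : V → ℂ) (p : V) : ℂ :=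
  (Lo a (kF a) p - sgF a p * kF a p) / (6 * elF a p) - (1 / 3) * du (sgF a) p

/-- Parametrization of the hypersurface. -/
noncomputable def PF (Fr : V → ℝ) (p : V) : ℂ × ℂ := (p.1, (p.2 : ℂ) + I * (Fr p : ℂ))

theorem analytic_ofReal {E : Type*} [NormedAddCommGroup E] [NormedSpace ℝ E] {f : E → ℝ} {p : E}
    (h : AnalyticAt ℝ f p) : AnalyticAt ℝ (fun q => (f q : ℂ)) p :=
  (ContinuousLinearMap.analyticAt Complex.ofRealCLM (f p)).comp h

theorem PF_analytic {Fr : V → ℝ} {p : V} (h : AnalyticAt ℝ Fr p) : AnalyticAt ℝ (PF Fr) p := by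
  unfold PF
  refine AnalyticAt.prod analyticAt_fst ?_
  exact (analytic_ofReal analyticAt_snd).add (analyticAt_const.mul (analytic_ofReal h))

theorem fderiv_formula (f : V → ℂ) (p : V) (ζ : ℂ) (υ : ℝ) :
    fderiv ℝ f p (ζ, υ) = ζ * dz f p + starRingEnd ℂ ζ * dzb f p + υ * du f p := by
  have e : ((ζ, υ) : V) = ζ.re • ((1, 0) : V) + ζ.im • ((I, 0) : V) + υ • ((0, 1) : V) := by
    refine Prod.ext ?_ ?_
    · simp
    · simp
  have e2 : fderiv ℝ f p (ζ, υ) = ζ.re * fderiv ℝ f p (1, 0) + ζ.im * fderiv ℝ f p (I, 0) +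
      υ * fderiv ℝ f p (0, 1) := by
    rw [e, map_add, map_add, map_smul, map_smul, map_smul]
    simp only [Complex.real_smul]
  rw [e2]
  unfold dz dzb du
  have h1 : ζ = ζ.re + ζ.im * I := (Complex.re_add_im ζ).symm
  have h2 : starRingEnd ℂ ζ = ζ.re - ζ.im * I := by
    apply Complex.ext <;> simp
  rw [h2]
  nth_rewrite 3 [h1]
  have hI : I * I = -1 := Complex.I_mul_I
  linear_combination ((ζ.im : ℂ) * fderiv ℝ f p (I, 0)) * hI

theorem PF_fderiv {Fr : V → ℝ} {p : V} (h : AnalyticAt ℝ Fr p) (v : V) :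
    fderiv ℝ (PF Fr) p v = (v.1, (v.2 : ℂ) + I * (fderiv ℝ (fun q => (Fr q : ℂ)) p v)) := by
  have h1 : HasFDerivAt (fun q : V => q.1) (ContinuousLinearMap.fst ℝ ℂ ℝ) p := hasFDerivAt_fst
  have h2 : HasFDerivAt (fun q : V => (q.2 : ℂ))
      (Complex.ofRealCLM.comp (ContinuousLinearMap.snd ℝ ℂ ℝ)) p :=
    Complex.ofRealCLM.hasFDerivAt.comp p hasFDerivAt_snd
  have h3 : HasFDerivAt (fun q : V => (Fr q : ℂ)) (fderiv ℝ (fun q => (Fr q : ℂ)) p) p :=
    (analytic_ofReal h).differentiableAt.hasFDerivAt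
  have h4 : HasFDerivAt (PF Fr) _ p := h1.prodMk (h2.add (h3.const_mul I))
  rw [h4.fderiv]
  simp

theorem comp_fderiv {Fr : V → ℝ} {p : V} (h : AnalyticAt ℝ Fr p) {ψ : ℂ × ℂ → ℂ}
    (hψ : AnalyticAt ℂ ψ (PF Fr p)) (v : V) :
    fderiv ℝ (fun q => ψ (PF Fr q)) p v = fderiv ℂ ψ (PF Fr p) (fderiv ℝ (PF Fr) p v) := by
  have h1 : HasFDerivAt ψ ((fderiv ℂ ψ (PF Fr p)).restrictScalars ℝ) (PF Fr p) :=
    hψ.differentiableAt.hasFDerivAt.restrictScalars ℝ
  have h2 := h1.comp p (PF_analytic h).differentiableAt.hasFDerivAt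
  have h3 : (ψ ∘ PF Fr) = (fun q => ψ (PF Fr q)) := rfl
  rw [h3] at h2
  rw [h2.fderiv]
  rfl

theorem real_du (Fr : V → ℝ) {p : V} (h : AnalyticAt ℝ Fr p) :
    ∃ r : ℝ, du (fun q => (Fr q : ℂ)) p = r := by
  refine ⟨fderiv ℝ Fr p (0, 1), ?_⟩
  unfold du
  have := (Complex.ofRealCLM.hasFDerivAt (x := Fr p)).comp p h.differentiableAt.hasFDerivAt
  have h3 : (Complex.ofRealCLM ∘ Fr) = (fun q => (Fr q : ℂ)) := rfl
  rw [h3] at this
  rw [this.fderiv]
  rfl

theorem den_ne (Fr : V → ℝ) {p : V} (h : AnalyticAt ℝ Fr p) :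
    1 - I * du (fun q => (Fr q : ℂ)) p ≠ 0 := by
  obtain ⟨r, hr⟩ := real_du Fr h
  rw [hr]
  intro h0
  have := congrArg Complex.re h0
  simp at this

theorem conj_dz (Fr : V → ℝ) {p : V} (h : AnalyticAt ℝ Fr p) :
    starRingEnd ℂ (dz (fun q => (Fr q : ℂ)) p) = dzb (fun q => (Fr q : ℂ)) p := by
  have := (Complex.ofRealCLM.hasFDerivAt (x := Fr p)).comp p h.differentiableAt.hasFDerivAt
  have h3 : (Complex.ofRealCLM ∘ Fr) = (fun q => (Fr q : ℂ)) := rfl
  rw [h3] at this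
  unfold dz dzb
  rw [this.fderiv, map_mul, map_div₀, map_one, map_ofNat]
  simp

theorem L_hol {Fr : V → ℝ} {p : V} (h : AnalyticAt ℝ Fr p) {ψ : ℂ × ℂ → ℂ}
    (hψ : AnalyticAt ℂ ψ (PF Fr p)) :
    Lo (aF Fr) (fun q => ψ (PF Fr q)) p = fderiv ℂ ψ (PF Fr p) (1, I * dz (fun q => (Fr q : ℂ)) p +
      aF Fr p * (1 + I * du (fun q => (Fr q : ℂ)) p)) ∧
    Lbo (aF Fr) (fun q => ψ (PF Fr q)) p = 0 := by
  obtain ⟨r, hr⟩ := real_du Fr h
  constructor
  · unfold Lo dz du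
    rw [comp_fderiv h hψ, comp_fderiv h hψ, comp_fderiv h hψ, PF_fderiv h, PF_fderiv h, PF_fderiv h]
    have e : ∀ (A : ℂ × ℂ →L[ℂ] ℂ) (x y w : ℂ × ℂ) (a : ℂ), (1/2) * (A x - I * A y) + a * A w =
        A ((1/2 : ℂ) • (x - I • y) + a • w) := by
      intro A x y w a
      simp [mul_sub]
    rw [e]
    congr 1
    refine Prod.ext ?_ ?_
    · simp; norm_num
    · simp
      ring
  · unfold Lbo dzb du
    rw [comp_fderiv h hψ, comp_fderiv h hψ, comp_fderiv h hψ, PF_fderiv h, PF_fderiv h, PF_fderiv h]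
    have e : ∀ (A : ℂ × ℂ →L[ℂ] ℂ) (x y w : ℂ × ℂ) (a : ℂ), (1/2) * (A x + I * A y) + a * A w =
        A ((1/2 : ℂ) • (x + I • y) + a • w) := by
      intro A x y w a
      simp [mul_add]
    rw [e]
    have e2 : ((1/2 : ℂ) • ((((1, 0) : V).1, (((1, 0) : V).2 : ℂ) +
        I * (fderiv ℝ (fun q => (Fr q : ℂ)) p (1, 0))) +
        I • (((I, 0) : V).1, (((I, 0) : V).2 : ℂ) + I * (fderiv ℝ (fun q => (Fr q : ℂ)) p (I, 0)))) +
        (starRingEnd ℂ) (aF Fr p) • (((0, 1) : V).1, (((0, 1) : V).2 : ℂ) +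
          I * (fderiv ℝ (fun q => (Fr q : ℂ)) p (0, 1)))) = 0 := by
      refine Prod.ext ?_ ?_
      · simp
      · have e3 : starRingEnd ℂ (aF Fr p) * (1 + I * du (fun q => (Fr q : ℂ)) p) =
            - I * dzb (fun q => (Fr q : ℂ)) p := by
          unfold aF
          rw [map_div₀, map_mul, map_sub, map_mul, conj_dz Fr h, hr]
          have : (1 : ℂ) + I * r ≠ 0 := by
            intro h0
            have := congrArg Complex.re h0
            simp at this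
          simp only [Complex.conj_I, Complex.conj_ofReal, map_one]
          have h5 : (1 : ℂ) - -I * r = 1 + I * r := by ring
          rw [h5, div_mul_cancel₀ _ this]
        unfold du dzb at e3
        simp
        have hI : I * I = -1 := Complex.I_mul_I
        linear_combination e3
    rw [e2, map_zero]

theorem An_aF {Fr : V → ℝ} {F : OFilter V} (h : ∀ᶠ p in F.f, AnalyticAt ℝ Fr p) : An F (aF Fr) := by
  have hF : An F (fun q => (Fr q : ℂ)) := by
    filter_upwards [h] with p hp using analytic_ofReal hp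
  refine ((An.const I).mul hF.dz).div ((An.const 1).sub ((An.const I).mul hF.du)) ?_
  filter_upwards [h] with p hp using den_ne Fr hp

theorem anLo {F : OFilter V} {a f : V → ℂ} (ha : An F a) (hf : An F f) : An F (Lo a f) :=
  hf.dz.add (ha.mul hf.du)
theorem anLbo {F : OFilter V} {a f : V → ℂ} (ha : An F a) (hf : An F f) : An F (Lbo a f) :=
  hf.dzb.add (ha.conj.mul hf.du)
theorem LL_mk {F : OFilter V} {a f : V → ℂ} (ha : An F a) (hf : An F f) :
    LL (mk a ha) (mk f hf) = mk (Lo a f) (anLo ha hf) := by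
  rw [LL_apply, Dz_mk, Du_mk]; rfl
theorem LLb_mk {F : OFilter V} {a f : V → ℂ} (ha : An F a) (hf : An F f) :
    LLb (mk a ha) (mk f hf) = mk (Lbo a f) (anLbo ha hf) := by
  rw [LLb_apply, Dzb_mk, Du_mk, cj_mk]; rfl
theorem anEl {F : OFilter V} {a : V → ℂ} (ha : An F a) : An F (elF a) :=
  (anLbo ha ha).sub (anLo ha ha.conj)
theorem anSg {F : OFilter V} {a : V → ℂ} (ha : An F a) (h0 : ∀ᶠ p in F.f, elF a p ≠ 0) :
    An F (sgF a) :=
  ((anLo ha (anEl ha)).div (anEl ha) h0).sub ha.du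
theorem elF_mk {F : OFilter V} {a : V → ℂ} (ha : An F a) :
    LLb (mk a ha) (mk a ha) - LL (mk a ha) (cj (mk a ha)) = mk (elF a) (anEl ha) := by
  rw [LLb_mk, cj_mk, LL_mk, mk_sub]; rfl
theorem sgF_mk {F : OFilter V} {a : V → ℂ} (ha : An F a) (h0 : ∀ᶠ p in F.f, elF a p ≠ 0) :
    mk (sgF a) (anSg ha h0) * mk (elF a) (anEl ha) = LL (mk a ha) (mk (elF a) (anEl ha)) -
      Du (mk a ha) * mk (elF a) (anEl ha) := by
  rw [LL_mk, Du_mk, mk_mul, mk_mul, mk_sub, mk_eq]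
  filter_upwards [h0] with p hp
  simp only [sgF]
  rw [sub_mul, div_mul_cancel₀ _ hp]

end Pool.Agent.H213
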