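import Pool.Agent.H213.Chain

/-! The equation of Chern-Moser chains: derivation at a point of a chain. -/

open Filter Topology

namespace Pool.Agent.H213

open Complex (I)

/-- Velocity in `z`. -/
noncomputable def zd (γ : ℝ → V) (s : ℝ) : ℂ := deriv (fun r => (γ r).1) s
/-- Velocity in `u`. -/
noncomputable def ud (γ : ℝ → V) (s : ℝ) : ℝ := deriv (fun r => (γ r).2) s
/-- Transverse velocity. -/
noncomputable def kap (a : V → ℂ) (γ : ℝ → V) (s : ℝ) : ℂ :=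
  (ud γ s : ℂ) - a (γ s) * zd γ s - starRingEnd ℂ (a (γ s) * zd γ s)

theorem curve_deriv {γ : ℝ → V} {s : ℝ} (hγ : AnalyticAt ℝ γ s) {f : V → ℂ}
    (hf : AnalyticAt ℝ f (γ s)) :
    HasDerivAt (fun r => f (γ r)) (zd γ s * dz f (γ s) + starRingEnd ℂ (zd γ s) * dzb f (γ s) +
      ud γ s * du f (γ s)) s := by
  have h1 : HasDerivAt γ (zd γ s, ud γ s) s := by
    have h2 : HasDerivAt γ (deriv γ s) s := hγ.differentiableAt.hasDerivAt
    have h3 : zd γ s = (deriv γ s).1 := by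
      have := (ContinuousLinearMap.fst ℝ ℂ ℝ).hasFDerivAt.comp_hasDerivAt s h2
      exact this.deriv
    have h4 : ud γ s = (deriv γ s).2 := by
      have := (ContinuousLinearMap.snd ℝ ℂ ℝ).hasFDerivAt.comp_hasDerivAt s h2
      exact this.deriv
    rw [h3, h4]
    exact h2
  have h2 := hf.differentiableAt.hasFDerivAt.comp_hasDerivAt s h1
  rw [fderiv_formula] at h2
  exact h2

theorem curve_deriv_LL {γ : ℝ → V} {s : ℝ} (hγ : AnalyticAt ℝ γ s) {f : V → ℂ} (a : V → ℂ)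
    (hf : AnalyticAt ℝ f (γ s)) :
    HasDerivAt (fun r => f (γ r)) (zd γ s * Lo a f (γ s) + starRingEnd ℂ (zd γ s) * Lbo a f (γ s) +
      kap a γ s * du f (γ s)) s := by
  have h := curve_deriv hγ hf
  have e : zd γ s * Lo a f (γ s) + starRingEnd ℂ (zd γ s) * Lbo a f (γ s) +
      kap a γ s * du f (γ s) = zd γ s * dz f (γ s) + starRingEnd ℂ (zd γ s) * dzb f (γ s) +
      ud γ s * du f (γ s) := by
    unfold Lo Lbo kap
    rw [map_mul]; ring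
  rw [e]; exact h

theorem an_zd {γ : ℝ → V} {s : ℝ} (hγ : AnalyticAt ℝ γ s) : AnalyticAt ℝ (zd γ) s := by
  have h : AnalyticAt ℝ (fun r => (γ r).1) s :=
    ((ContinuousLinearMap.fst ℝ ℂ ℝ).analyticAt (γ s)).comp hγ
  exact h.deriv

theorem an_ud {γ : ℝ → V} {s : ℝ} (hγ : AnalyticAt ℝ γ s) : AnalyticAt ℝ (ud γ) s := by
  have h : AnalyticAt ℝ (fun r => (γ r).2) s :=
    ((ContinuousLinearMap.snd ℝ ℂ ℝ).analyticAt (γ s)).comp hγ
  exact h.deriv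

theorem an_kap {γ : ℝ → V} {s : ℝ} {a : V → ℂ} (hγ : AnalyticAt ℝ γ s)
    (ha : AnalyticAt ℝ a (γ s)) : AnalyticAt ℝ (kap a γ) s := by
  have h1 : AnalyticAt ℝ (fun r => (ud γ r : ℂ)) s := analytic_ofReal (an_ud hγ)
  have h2 : AnalyticAt ℝ (fun r => a (γ r) * zd γ r) s := (ha.comp hγ).mul (an_zd hγ)
  exact (h1.sub h2).sub (analytic_conj h2)

theorem anK {F : OFilter V} {a : V → ℂ} (ha : An F a) (h0 : ∀ᶠ p in F.f, elF a p ≠ 0) :
    An F (kF a) := anLbo ha (anSg ha h0)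
theorem kF_mk {F : OFilter V} {a : V → ℂ} (ha : An F a) (h0 : ∀ᶠ p in F.f, elF a p ≠ 0) :
    LLb (mk a ha) (mk (sgF a) (anSg ha h0)) = mk (kF a) (anK ha h0) := by
  rw [LLb_mk]; rfl

/-- If an element vanishes to order two, its derivative along a curve vanishes. -/
theorem curve_deriv_J {γ : ℝ → V} {t : ℝ} (hγ : AnalyticAt ℝ γ t) {f : V → ℂ}
    (hf : An (nhdsO (γ t)) f) (hJ : mk f hf ∈ Jid (γ t) 2) :
    f (γ t) = 0 ∧ HasDerivAt (fun r => f (γ r)) 0 t := by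
  have h0 : f (γ t) = 0 := hJ.1
  refine ⟨h0, ?_⟩
  have hd : ∀ v, fderiv ℝ f (γ t) v = 0 := by
    intro v
    have h1 : ev (γ t) (D v (mk f hf)) = 0 := (hJ.2 v).1
    rw [D_mk, ev_mk] at h1
    exact h1
  have h := curve_deriv hγ (f := f) hf.self_of_nhds
  have e : zd γ t * dz f (γ t) + starRingEnd ℂ (zd γ t) * dzb f (γ t) +
      ud γ t * du f (γ t) = 0 := by
    unfold dz dzb du
    rw [hd, hd, hd]; ring
  rw [e] at h
  exact h

/-- The purely algebraic last step. -/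
theorem last_step (x xb l s k Lk Ts Ll Lbl Tl Lx Lbx Tx D' zt ztb zdd K Kd au : ℂ)
    (hl : l ≠ 0)
    (h1 : Lx = x * x + s * x)
    (h2 : 4 * Lbx = -2 * x * xb - k + 2 * D')
    (h3 : 6 * l * Tx * 2 = -6 * x * x * xb + 3 * k * x + 6 * x * D' - 2 * s * k + 2 * Lk - 4 * l * Ts)
    (h4 : s * l = Ll - au * l)
    (h5 : K * x = - l * ztb)
    (h6 : Kd * x + K * (zt * Lx + ztb * Lbx + K * Tx) +
      ((zt * Ll + ztb * Lbl + K * Tl) * ztb + l * zdd) = 0) :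
    l * (ztb * Kd - K * zdd) = K * ztb ^ 2 * Lbl + K ^ 2 * ztb * Tl + l ^ 2 * zt * ztb ^ 2 +
      l * au * (zt * ztb) * K - (1/2) * k * ztb * K ^ 2 +
      K ^ 3 * ((Lk - s * k) / (6 * l) - (1/3) * Ts) := by
  obtain ⟨q, hq⟩ : ∃ q, q = (Lk - s * k) / (6 * l) := ⟨_, rfl⟩
  have hq' : 6 * l * q = Lk - s * k := by rw [hq]; field_simp
  rw [← hq]
  have e1 : l * (ztb * Kd - K * zdd) = K ^ 2 * (zt * Lx + ztb * Lbx + K * Tx) +
      K * ztb * (zt * Ll + ztb * Lbl + K * Tl) := by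
    linear_combination Kd * h5 - K * h6
  rw [e1]
  have hl12 : (12 * l) ≠ 0 := mul_ne_zero (by norm_num) hl
  apply mul_left_cancel₀ hl12
  linear_combination (12 * l * K ^ 2 * zt) * h1 + (3 * l * K ^ 2 * ztb) * h2 + (K ^ 3) * h3 -
    (12 * l * K * ztb * zt) * h4 + (12 * l * zt * (K * x - l * ztb) + 12 * l * s * K * zt +
      K ^ 2 * (-6 * x * xb + 3 * k + 6 * D')) * h5 - 2 * K ^ 3 * hq'

/-- The equation satisfied by Chern-Moser chains. -/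
def ChainEq (a : V → ℂ) (γ : ℝ → V) (t : ℝ) : Prop :=
  elF a (γ t) * (starRingEnd ℂ (zd γ t) * deriv (kap a γ) t -
      kap a γ t * starRingEnd ℂ (deriv (zd γ) t)) =
    kap a γ t * starRingEnd ℂ (zd γ t) ^ 2 * Lbo a (elF a) (γ t) +
    kap a γ t ^ 2 * starRingEnd ℂ (zd γ t) * du (elF a) (γ t) +
    elF a (γ t) ^ 2 * zd γ t * starRingEnd ℂ (zd γ t) ^ 2 +
    elF a (γ t) * du a (γ t) * (zd γ t * starRingEnd ℂ (zd γ t)) * kap a γ t -
    (1/2) * kF a (γ t) * starRingEnd ℂ (zd γ t) * kap a γ t ^ 2 +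
    kap a γ t ^ 3 * QF a (γ t)

theorem two_eq {F : OFilter V} : (2 : AR F) = cst F 2 := by
  have := mk_nat (F := F) 2
  rw [Nat.cast_two, Nat.cast_two] at this
  exact this

theorem normal_mem {x₀ : V} {Z W G : V → ℂ} (anZ : An (nhdsO x₀) Z) (anW : An (nhdsO x₀) W)
    (anG : An (nhdsO x₀) G) (hZ : Z x₀ = 0)
    (hN : ∀ᶠ p in 𝓝 x₀, (W p).im = ‖Z p‖ ^ 2 + (Z p ^ 4 * starRingEnd ℂ (Z p) ^ 2 * G p).re) :
    mk W anW - cj (mk W anW) - 2 * cst (nhdsO x₀) I * mk Z anZ * cj (mk Z anZ) ∈ Jid x₀ 6 := by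
  obtain ⟨T, hT⟩ : ∃ T, T = mk G anG * mk Z anZ * mk Z anZ * mk Z anZ * mk Z anZ * cj (mk Z anZ) *
    cj (mk Z anZ) := ⟨_, rfl⟩
  have hZ1 : inJ x₀ 1 (mk Z anZ) := ⟨hZ, fun _ => trivial⟩
  have hZ2 : inJ x₀ 1 (cj (mk Z anZ)) := inJ_cj _ _ hZ1
  have hTm : T ∈ Jid x₀ 6 := by
    rw [hT]
    exact inJ_mul1 5 _ _ (inJ_mul1 4 _ _ (inJ_mul1 3 _ _ (inJ_mul1 2 _ _ (inJ_mul1 1 _ _
      (inJ_mul1 0 _ _ trivial hZ1) hZ1) hZ1) hZ1) hZ2) hZ2
  have e : mk W anW - cj (mk W anW) - 2 * cst (nhdsO x₀) I * mk Z anZ * cj (mk Z anZ) =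
      cst (nhdsO x₀) I * (T + cj T) := by
    rw [hT, two_eq]
    simp only [map_mul, cj_cj]
    simp only [cj_mk, cst, mk_mul, mk_add, mk_sub]
    rw [mk_eq]
    filter_upwards [hN] with p hp
    have h1 := Complex.sub_conj (W p)
    have h2 := Complex.mul_conj (Z p)
    have h3 := Complex.add_conj (Z p ^ 4 * starRingEnd ℂ (Z p) ^ 2 * G p)
    rw [map_mul, map_mul, map_pow, map_pow, Complex.conj_conj] at h3
    rw [Complex.normSq_eq_norm_sq] at h2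
    rw [hp] at h1
    push_cast at h1 h2 h3
    linear_combination h1 - 2 * I * h2 - I * h3
  rw [e]
  exact (Jid x₀ 6).mul_mem_left _ ((Jid x₀ 6).add_mem hTm (inJ_cj _ _ hTm))

theorem chain_eq {Fr : V → ℝ} {γ : ℝ → V} {t : ℝ} (hF : AnalyticAt ℝ Fr (γ t))
    (hγ : AnalyticAt ℝ γ t) {Φ : ℂ × ℂ → ℂ × ℂ} (hΦ : AnalyticAt ℂ Φ (PF Fr (γ t)))
    (hinj : Function.Injective (fderiv ℂ Φ (PF Fr (γ t))))
    (h0 : Φ (PF Fr (γ t)) = 0)
    {G : V → ℂ} (hG : AnalyticAt ℝ G 0)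
    (hN : ∀ᶠ p in 𝓝 (γ t), (Φ (PF Fr p)).2.im = ‖(Φ (PF Fr p)).1‖ ^ 2 +
      ((Φ (PF Fr p)).1 ^ 4 * starRingEnd ℂ (Φ (PF Fr p)).1 ^ 2 *
        G ((Φ (PF Fr p)).1, (Φ (PF Fr p)).2.re)).re)
    (hZ : ∀ᶠ s in 𝓝 t, (Φ (PF Fr (γ s))).1 = 0) :
    elF (aF Fr) (γ t) ≠ 0 ∧ ChainEq (aF Fr) γ t := by
  obtain ⟨x₀, hx₀⟩ : ∃ x₀, x₀ = γ t := ⟨_, rfl⟩
  obtain ⟨a, haa⟩ : ∃ a, a = aF Fr := ⟨_, rfl⟩
  have hFe : ∀ᶠ p in (nhdsO x₀).f, AnalyticAt ℝ Fr p := by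
    rw [hx₀]; exact hF.eventually_analyticAt
  have ha : An (nhdsO x₀) a := by rw [haa]; exact An_aF hFe
  have hΦe : ∀ᶠ p in (nhdsO x₀).f, AnalyticAt ℂ Φ (PF Fr p) := by
    rw [hx₀]
    exact (PF_analytic hF).continuousAt.eventually hΦ.eventually_analyticAt
  have hfst : ∀ q : ℂ × ℂ, AnalyticAt ℂ Φ q → AnalyticAt ℂ (fun q => (Φ q).1) q := fun q hq =>
    ((ContinuousLinearMap.fst ℂ ℂ ℂ).analyticAt (Φ q)).comp hq
  have hsnd : ∀ q : ℂ × ℂ, AnalyticAt ℂ Φ q → AnalyticAt ℂ (fun q => (Φ q).2) q := fun q hq =>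
    ((ContinuousLinearMap.snd ℂ ℂ ℂ).analyticAt (Φ q)).comp hq
  obtain ⟨Z, hZd⟩ : ∃ Z : V → ℂ, Z = fun p => (Φ (PF Fr p)).1 := ⟨_, rfl⟩
  obtain ⟨W, hWd⟩ : ∃ W : V → ℂ, W = fun p => (Φ (PF Fr p)).2 := ⟨_, rfl⟩
  have anZ : An (nhdsO x₀) Z := by
    filter_upwards [hFe, hΦe] with p h1 h2
    rw [hZd]
    exact AnalyticAt.comp (g := fun q => (Φ q).1) ((hfst _ h2).restrictScalars) (PF_analytic h1)
  have anW : An (nhdsO x₀) W := by
    filter_upwards [hFe, hΦe] with p h1 h2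
    rw [hWd]
    exact AnalyticAt.comp (g := fun q => (Φ q).2) ((hsnd _ h2).restrictScalars) (PF_analytic h1)
  obtain ⟨Gt, hGt⟩ : ∃ Gt : V → ℂ, Gt = fun p => G (Z p, (W p).re) := ⟨_, rfl⟩
  have hZ0 : Z x₀ = 0 := by rw [hZd, hx₀]; exact congrArg Prod.fst h0
  have hW0 : W x₀ = 0 := by rw [hWd, hx₀]; exact congrArg Prod.snd h0
  have anG : An (nhdsO x₀) Gt := by
    have hm : ∀ p, AnalyticAt ℝ Z p → AnalyticAt ℝ W p →
        AnalyticAt ℝ (fun p => (Z p, (W p).re)) p := fun p h1 h2 =>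
      h1.prod ((Complex.reCLM.analyticAt (W p)).comp h2)
    have h1 : ∀ᶠ q in 𝓝 ((fun p => (Z p, (W p).re)) x₀), AnalyticAt ℝ G q := by
      have : (fun p => (Z p, (W p).re)) x₀ = 0 := by
        simp only [hZ0, hW0]; rfl
      rw [this]; exact hG.eventually_analyticAt
    have h2 := (hm x₀ anZ.self_of_nhds anW.self_of_nhds).continuousAt.eventually h1
    have h2' : ∀ᶠ p in (nhdsO x₀).f, AnalyticAt ℝ G (Z p, (W p).re) := h2
    filter_upwards [h2', anZ, anW] with p h3 h4 h5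
    rw [hGt]
    exact AnalyticAt.comp (g := G) h3 (hm p h4 h5)
  have hn : mk W anW - cj (mk W anW) - 2 * cst (nhdsO x₀) I * mk Z anZ * cj (mk Z anZ) ∈
      Jid x₀ 6 := by
    refine normal_mem anZ anW anG hZ0 ?_
    rw [hGt, hZd, hWd, hx₀]
    exact hN
  obtain ⟨S, hS⟩ : ∃ S : CRRing (AR (nhdsO x₀)), S = crOf (mk a ha) := ⟨_, rfl⟩
  have SL : S.L = LL (mk a ha) := by rw [hS]; rfl
  have SLb : S.Lb = LLb (mk a ha) := by rw [hS]; rfl
  have ST : S.T = Du := by rw [hS]; rfl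
  have Scj : S.cj = cj := by rw [hS]; rfl
  have SJ : S.J = Jid x₀ := by rw [hS]; rfl
  have Si : S.i = cst _ I := by rw [hS]; rfl
  have Sau : S.au = mk (du a) ha.du := by rw [hS, ← Du_mk ha]; rfl
  have Sell : S.ell = mk (elF a) (anEl ha) := by rw [hS, ← elF_mk]; rfl
  have LbZ : S.Lb (mk Z anZ) = 0 := by
    rw [SLb, LLb_mk, mk_zero, mk_eq]
    filter_upwards [hFe, hΦe] with p h1 h2
    rw [haa, hZd]
    exact (L_hol h1 (hfst _ h2)).2
  have LbW : S.Lb (mk W anW) = 0 := by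
    rw [SLb, LLb_mk, mk_zero, mk_eq]
    filter_upwards [hFe, hΦe] with p h1 h2
    rw [haa, hWd]
    exact (L_hol h1 (hsnd _ h2)).2
  rw [← Scj, ← SJ, ← Si] at hn
  have evJ : ∀ g : AR (nhdsO x₀), g ∈ S.J 1 → ev x₀ g = 0 := by
    intro g hg; rw [SJ] at hg; exact Jid_one.1 hg
  have hB0 : ev x₀ (S.L (mk Z anZ)) ≠ 0 := by
    intro hB
    have h1 := (S.first _ _ LbZ LbW).1
    have h2 : ev x₀ (S.L (mk W anW)) = 0 := by
      have h3 := evJ _ (S.anti' (by norm_num) (S.JL 5 _ hn))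
      rw [h1, map_sub, map_mul, map_mul, map_mul, hB] at h3
      linear_combination h3
    rw [SL, LL_mk, ev_mk, haa, hZd] at hB
    rw [SL, LL_mk, ev_mk, haa, hWd] at h2
    have hFx : AnalyticAt ℝ Fr x₀ := by rw [hx₀]; exact hF
    have hΦx : AnalyticAt ℂ Φ (PF Fr x₀) := by rw [hx₀]; exact hΦ
    rw [(L_hol hFx (hfst _ hΦx)).1] at hB
    rw [(L_hol hFx (hsnd _ hΦx)).1] at h2
    rw [hΦx.differentiableAt.hasFDerivAt.fst.fderiv] at hB
    rw [hΦx.differentiableAt.hasFDerivAt.snd.fderiv] at h2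
    have h3 : fderiv ℂ Φ (PF Fr x₀) (1, I * dz (fun q => (Fr q : ℂ)) x₀ +
      aF Fr x₀ * (1 + I * du (fun q => (Fr q : ℂ)) x₀)) = fderiv ℂ Φ (PF Fr x₀) 0 := by
      rw [map_zero]
      exact Prod.ext hB h2
    rw [hx₀] at h3
    have h4 := congrArg Prod.fst (hinj h3)
    simp at h4
  obtain ⟨Bi, hBi⟩ := exists_inv _ hB0
  obtain ⟨E, hE⟩ : ∃ E, E = S.T (mk W anW) - 2 * S.i * S.cj (mk Z anZ) * S.T (mk Z anZ) := ⟨_, rfl⟩
  have hf2 := (S.first _ _ LbZ LbW).2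
  rw [← hE] at hf2
  have hn1 : ev x₀ (S.Lb (S.L (mk W anW - S.cj (mk W anW) - 2 * S.i * mk Z anZ * S.cj (mk Z anZ)))) = 0 :=
    evJ _ (S.anti' (by norm_num) (S.JLb 4 _ (S.JL 5 _ hn)))
  have hprod : ev x₀ S.ell * ev x₀ E ≠ 0 := by
    rw [← map_mul, hf2, map_add, hn1, add_zero, map_mul, map_mul, map_mul, Scj, ev_cj, Si, ev_cst,
      map_ofNat]
    exact mul_ne_zero (mul_ne_zero (mul_ne_zero two_ne_zero Complex.I_ne_zero) hB0)
      ((map_ne_zero _).2 hB0)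
  have hl0 : ev x₀ S.ell ≠ 0 := left_ne_zero_of_mul hprod
  have hE0 : ev x₀ E ≠ 0 := right_ne_zero_of_mul hprod
  obtain ⟨Ei, hEi⟩ := exists_inv _ hE0
  have hel0 : elF a x₀ ≠ 0 := by rw [Sell, ev_mk] at hl0; exact hl0
  have hele : ∀ᶠ p in (nhdsO x₀).f, elF a p ≠ 0 := (anEl ha).self_of_nhds.continuousAt.eventually_ne hel0
  obtain ⟨x, hx⟩ : ∃ x, x = (S.L E + S.au * E) * Ei := ⟨_, rfl⟩
  obtain ⟨e', he'⟩ : ∃ e', e' = S.T E * Ei := ⟨_, rfl⟩
  have hxE : x * E = S.L E + S.au * E := by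
    rw [hx]; linear_combination (S.L E + S.au * E) * hEi
  have heE : e' * E = S.T E := by
    rw [he']; linear_combination (S.T E) * hEi
  have hsg : mk (sgF a) (anSg ha hele) * S.ell = S.L S.ell - S.au * S.ell := by
    rw [SL, Sell, Sau, sgF_mk ha hele, Du_mk]
  have hmain := S.main (mk Z anZ) (mk W anW) Bi Ei x (mk (sgF a) (anSg ha hele)) e' LbZ LbW hn hBi
    (by rw [← hE]; exact hEi) (by rw [← hE]; exact hxE) hsg (by rw [← hE]; exact heE)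
  rw [← hE] at hmain
  obtain ⟨⟨n1, hn1m, hn1⟩, ⟨n2, hn2m, hn2⟩, hA, hB4, hT12⟩ := hmain
  refine ⟨by rw [← hx₀, ← haa]; exact hel0, ?_⟩
  obtain ⟨xf, anx, hxf⟩ := exists_mk x
  obtain ⟨Ef, anE, hEf⟩ := exists_mk E
  obtain ⟨n1f, ann1, hn1f⟩ := exists_mk n1
  obtain ⟨n2f, ann2, hn2f⟩ := exists_mk n2
  obtain ⟨Dp, hDp⟩ : ∃ Dp, Dp = ev x₀ (S.ell * e' + S.T S.ell) := ⟨_, rfl⟩
  have vA : Lo a xf x₀ = xf x₀ * xf x₀ + sgF a x₀ * xf x₀ := by
    have := evJ _ hA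
    rw [← hxf, SL, LL_mk, map_sub, map_add, map_mul, map_mul, ev_mk, ev_mk, ev_mk] at this
    linear_combination this
  have vB : 4 * Lbo a xf x₀ = -2 * xf x₀ * starRingEnd ℂ (xf x₀) - kF a x₀ + 2 * Dp := by
    have := evJ _ hB4
    rw [← hxf, SLb, LLb_mk, LLb_mk, map_sub, map_add, map_sub, map_mul, map_mul, map_mul, map_mul,
      ← hDp, Scj, ev_cj, map_neg, ev_mk, ev_mk, ev_mk, map_ofNat, map_ofNat] at this
    have e : kF a x₀ = Lbo a (sgF a) x₀ := rfl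
    rw [e]
    linear_combination this
  have vT : 6 * elF a x₀ * du xf x₀ * 2 = -6 * xf x₀ * xf x₀ * starRingEnd ℂ (xf x₀) +
      3 * kF a x₀ * xf x₀ + 6 * xf x₀ * Dp - 2 * sgF a x₀ * kF a x₀ + 2 * Lo a (kF a) x₀ -
      4 * elF a x₀ * du (sgF a) x₀ := by
    have := evJ _ hT12
    have e1 : S.Lb (mk (sgF a) (anSg ha hele)) = mk (kF a) (anK ha hele) := by
      rw [SLb, kF_mk ha hele]
    rw [e1, ← hxf, SL, LL_mk, ST, Du_mk, Du_mk, Sell, Scj, map_sub, map_sub, map_add, map_sub,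
      map_add, map_add] at this
    simp only [map_mul, map_neg, map_ofNat, ev_mk, ev_cj] at this
    rw [ST, Sell] at hDp
    rw [← hDp] at this
    linear_combination this
  have vS : sgF a x₀ * elF a x₀ = Lo a (elF a) x₀ - du a x₀ * elF a x₀ := by
    have := congrArg (ev x₀) hsg
    rw [Sell, SL, LL_mk, Sau, map_mul, map_sub, map_mul, ev_mk, ev_mk, ev_mk, ev_mk] at this
    exact this
  -- identities near the point
  have f1 : ∀ᶠ p in 𝓝 x₀, elF a p * Ef p = 2 * I * Lo a Z p * starRingEnd ℂ (Lo a Z p) + n1f p := by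
    rw [Sell, SL, LL_mk, Scj, Si, two_eq, ← hEf, ← hn1f] at hn1
    simp only [cj_mk, cst, mk_mul, mk_add] at hn1
    exact mk_eq.1 hn1
  have f2 : ∀ᶠ p in 𝓝 x₀, xf p * Ef p = 2 * I * Lo a Z p *
      du (fun q => starRingEnd ℂ (Z q)) p + n2f p := by
    rw [SL, LL_mk, Scj, Si, ST, two_eq, ← hEf, ← hn2f, ← hxf, cj_mk, Du_mk] at hn2
    simp only [cj_mk, cst, mk_mul, mk_add] at hn2
    exact mk_eq.1 hn2
  have f3 : ∀ᶠ p in 𝓝 x₀, starRingEnd ℂ (du Z p) = du (fun q => starRingEnd ℂ (Z q)) p := by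
    have := cj_Du (mk Z anZ)
    rw [Du_mk, cj_mk, cj_mk, Du_mk] at this
    exact mk_eq.1 this
  have f4 : ∀ᶠ p in 𝓝 x₀, Lbo a Z p = 0 := by
    rw [SLb, LLb_mk, mk_zero] at LbZ
    exact mk_eq.1 LbZ
  have f5 : ∀ᶠ p in 𝓝 x₀, AnalyticAt ℝ Z p := anZ
  have hγc : Tendsto γ (𝓝 t) (𝓝 x₀) := by rw [hx₀]; exact hγ.continuousAt
  have hax : AnalyticAt ℝ a (γ t) := by rw [← hx₀]; exact ha.self_of_nhds
  -- the relation along the curve
  have hrel : ∀ᶠ s in 𝓝 t, starRingEnd ℂ (zd γ s) * starRingEnd ℂ (Lo a Z (γ s)) +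
      kap a γ s * du (fun q => starRingEnd ℂ (Z q)) (γ s) = 0 := by
    have hZ' : ∀ᶠ s in 𝓝 t, (fun r => Z (γ r)) =ᶠ[𝓝 s] fun _ => 0 := by
      have : ∀ᶠ s in 𝓝 t, Z (γ s) = 0 := by rw [hZd]; exact hZ
      exact eventually_eventually_nhds.2 this
    filter_upwards [hZ', hγc.eventually f3, hγc.eventually f4, hγc.eventually f5,
      hγ.eventually_analyticAt] with s h1 h3 h4 h5 h6
    have h7 := curve_deriv_LL h6 a h5
    have h8 : HasDerivAt (fun r => Z (γ r)) 0 s := (hasDerivAt_const s (0:ℂ)).congr_of_eventuallyEq h1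
    have h9 := h7.unique h8
    rw [h4] at h9
    have h10 := congrArg (starRingEnd ℂ) h9
    have hk : starRingEnd ℂ (kap a γ s) = kap a γ s := by
      unfold kap
      rw [map_sub, map_sub, Complex.conj_conj, Complex.conj_ofReal]
      ring
    rw [map_add, map_add, map_mul, map_mul, map_mul, hk, h3, map_zero] at h10
    linear_combination h10
  have hE' : Ef x₀ ≠ 0 := by rw [← hEf, ev_mk] at hE0; exact hE0
  have hJ1 := curve_deriv_J hγ (f := n1f) (by rw [← hx₀]; exact ann1) (by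
    have : mk n1f ann1 ∈ Jid x₀ 2 := by
      rw [hn1f, ← SJ]; exact S.anti' (by norm_num) hn1m
    subst hx₀; exact this)
  have hJ2 := curve_deriv_J hγ (f := n2f) (by rw [← hx₀]; exact ann2) (by
    have : mk n2f ann2 ∈ Jid x₀ 2 := by
      rw [hn2f, ← SJ]; exact S.anti' (by norm_num) hn2m
    subst hx₀; exact this)
  have hEq : ∀ᶠ s in 𝓝 t, Ef (γ s) * (kap a γ s * xf (γ s) + elF a (γ s) * starRingEnd ℂ (zd γ s)) =
      kap a γ s * n2f (γ s) + starRingEnd ℂ (zd γ s) * n1f (γ s) := by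
    filter_upwards [hrel, hγc.eventually f1, hγc.eventually f2] with s h1 h2 h3
    linear_combination kap a γ s * h3 + starRingEnd ℂ (zd γ s) * h2 + 2 * I * Lo a Z (γ s) * h1
  have hdk : HasDerivAt (kap a γ) (deriv (kap a γ) t) t := (an_kap hγ hax).differentiableAt.hasDerivAt
  have hdz : HasDerivAt (fun s => starRingEnd ℂ (zd γ s)) (starRingEnd ℂ (deriv (zd γ) t)) t := by
    have h1 : HasDerivAt (zd γ) (deriv (zd γ) t) t := (an_zd hγ).differentiableAt.hasDerivAt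
    exact (Complex.conjCLE : ℂ →L[ℝ] ℂ).hasFDerivAt.comp_hasDerivAt t h1
  have hdx := curve_deriv_LL hγ a (f := xf) (by rw [← hx₀]; exact anx.self_of_nhds)
  have hdl := curve_deriv_LL hγ a (f := elF a) (by rw [← hx₀]; exact (anEl ha).self_of_nhds)
  have hdE := curve_deriv_LL hγ a (f := Ef) (by rw [← hx₀]; exact anE.self_of_nhds)
  have hdg := (hdk.mul hdx).add (hdl.mul hdz)
  have hR : HasDerivAt (fun s => kap a γ s * n2f (γ s) + starRingEnd ℂ (zd γ s) * n1f (γ s)) 0 t := by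
    have := (hdk.mul hJ2.2).add (hdz.mul hJ1.2)
    rw [hJ1.1, hJ2.1] at this
    simp only [mul_zero, add_zero] at this
    exact this
  have hL := hdE.mul hdg
  have hval := hEq.self_of_nhds
  rw [hJ1.1, hJ2.1, mul_zero, mul_zero, add_zero] at hval
  have hg0 : kap a γ t * xf (γ t) + elF a (γ t) * starRingEnd ℂ (zd γ t) = 0 := by
    rcases mul_eq_zero.1 hval with h | h
    · rw [← hx₀] at h; exact absurd h hE'
    · exact h
  have hL' := (hL.congr_of_eventuallyEq (hEq.mono fun s hs => hs.symm)).unique hR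
  have hg0' : kap a γ t * xf (γ t) + elF a (γ t) * starRingEnd ℂ (zd γ t) = 0 := hg0
  have hL'' := hL'
  simp only [Pi.add_apply, Pi.mul_apply, hg0', mul_zero, zero_add] at hL''
  rcases mul_eq_zero.1 hL'' with h | h
  · rw [← hx₀] at h; exact absurd h hE'
  rw [← haa]
  rw [hx₀] at vA vB vT vS hel0
  exact last_step _ _ _ _ _ _ _ _ _ _ _ _ _ _ _ _ _ _ _ _ hel0 vA vB vT vS
    (by linear_combination hg0') h

end Pool.Agent.H213
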