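import Pool.Agent.H213.Fin

/-! Every smooth curve through the origin fails the chain equation near the origin. -/

open Filter Topology Asymptotics

namespace Pool.Agent.H213

open Complex (I)

variable {γ : ℝ → V}

/-- Leading term of first order. -/
theorem Ld_one {f : ℝ → ℂ} (hf : AnalyticAt ℝ f 0) (h0 : f 0 = 0) : Ld 1 (deriv f 0) f := by
  have h1 : BO 1 f := by
    have h1 := Ld_of_analytic hf
    rw [h0] at h1
    exact h1.ld0
  obtain ⟨g, hg, hfg⟩ := analytic_factor hf 1 (by simpa using h1)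
  have h2 : Ld (0 + 1 : ℕ) (g 0) f := by
    have h2 := (Ld_pow 1).mul (Ld_of_analytic hg)
    have h3 := h2.congr ((hfg.filter_mono nhdsWithin_le_nhds).mono fun t ht => ht.symm)
    simpa using h3
  have h3 := Ld_deriv hf 0 h2
  have h4 : Ld 0 (deriv f 0) (deriv f) := Ld_of_analytic hf.deriv
  have h5 : ((0 + 1 : ℕ) : ℂ) * g 0 = deriv f 0 := by
    apply Ld.unique (n := 0) (f := deriv f) _ h4
    exact h3.cast (by norm_num) rfl
  have h6 : g 0 = deriv f 0 := by simpa using h5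
  rw [h6] at h2
  simpa using h2

theorem order_cases {u : ℝ → ℝ} (hu : AnalyticAt ℝ (fun t => (u t : ℂ)) 0)
    (h1 : BO 2 (fun t => (u t : ℂ))) (n : ℕ) :
    (∃ k : ℕ, k < n ∧ ∃ c : ℝ, c ≠ 0 ∧ Ld (k + 2 : ℕ) (c : ℂ) (fun t => (u t : ℂ))) ∨
      BO (n + 2 : ℕ) (fun t => (u t : ℂ)) := by
  induction n with
  | zero => right; simpa using h1
  | succ n ih =>
    rcases ih with ⟨k, hk, c, hc, hl⟩ | hb
    · left; exact ⟨k, by omega, c, hc, hl⟩
    · obtain ⟨g, hg, hfg⟩ := analytic_factor hu (n + 2) hb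
      have h2 : Ld (n + 2 : ℕ) (g 0) (fun t => (u t : ℂ)) := by
        have h2 := (Ld_pow (n+2)).mul (Ld_of_analytic hg)
        have h3 := h2.congr ((hfg.filter_mono nhdsWithin_le_nhds).mono fun t ht => ht.symm)
        simpa using h3
      have h3 := h2.conj
      simp only [Complex.conj_ofReal] at h3
      have h4 := h3.unique h2
      have h5 : ((g 0).re : ℂ) = g 0 := Complex.conj_eq_iff_re.1 h4
      rw [← h5] at h2
      by_cases h6 : (g 0).re = 0
      · right
        rw [h6] at h2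
        have h7 := Ld.ld0 (by simpa using h2)
        exact h7.mono (by push_cast; omega)
      · left
        exact ⟨n, by omega, _, h6, h2⟩

theorem order_real {u : ℝ → ℝ} (hu : AnalyticAt ℝ (fun t => (u t : ℂ)) 0) {n : ℕ}
    (hb : BO (n : ℕ) (fun t => (u t : ℂ))) : ∃ c : ℝ, Ld (n : ℕ) (c : ℂ) (fun t => (u t : ℂ)) := by
  obtain ⟨g, hg, hfg⟩ := analytic_factor hu n hb
  have h2 : Ld (n : ℕ) (g 0) (fun t => (u t : ℂ)) := by
    have h2 := (Ld_pow n).mul (Ld_of_analytic hg)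
    have h3 := h2.congr ((hfg.filter_mono nhdsWithin_le_nhds).mono fun t ht => ht.symm)
    simpa using h3
  have h3 := h2.conj
  simp only [Complex.conj_ofReal] at h3
  have h4 := h3.unique h2
  have h5 : ((g 0).re : ℂ) = g 0 := Complex.conj_eq_iff_re.1 h4
  rw [← h5] at h2
  exact ⟨_, h2⟩

theorem noChain (hγ : AnalyticAt ℝ γ 0) (h0 : γ 0 = 0) (hd : deriv γ 0 ≠ 0) :
    ∀ᶠ t in 𝓝[≠] (0:ℝ), ¬ ChainEq (aF Fex) γ t := by
  have hu0 : (fun t => ((γ t).2 : ℂ)) 0 = 0 := by simp [h0]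
  have hz0 : (fun t => (γ t).1) 0 = 0 := by simp [h0]
  have huL := Ld_one (an_u hγ) hu0
  have hzL := Ld_one (an_z hγ) hz0
  by_cases hu1 : deriv (fun t => ((γ t).2 : ℂ)) 0 = 0
  · rw [hu1] at huL
    have hu2 : BO 2 (fun t => ((γ t).2 : ℂ)) := huL.ld0
    have hz1 : deriv (fun t => (γ t).1) 0 ≠ 0 := by
      intro h
      apply hd
      have h2 : HasDerivAt γ (deriv γ 0) 0 := hγ.differentiableAt.hasDerivAt
      have h3 := (ContinuousLinearMap.fst ℝ ℂ ℝ).hasFDerivAt.comp_hasDerivAt 0 h2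
      have h4 := (ContinuousLinearMap.snd ℝ ℂ ℝ).hasFDerivAt.comp_hasDerivAt 0 h2
      have h5 := Complex.ofRealCLM.hasFDerivAt.comp_hasDerivAt 0 h4
      have h6 : (deriv γ 0).1 = 0 := by
        rw [← h]; exact h3.deriv.symm
      have h7 : (((deriv γ 0).2 : ℝ) : ℂ) = 0 := by
        rw [← hu1]; exact h5.deriv.symm
      exact Prod.ext h6 (by exact_mod_cast h7)
    rcases order_cases (u := fun t => (γ t).2) (an_u hγ) hu2 6 with ⟨k, hk, c, hc, hl⟩ | hb
    · exact noChain_B hγ hz1 hzL (j := k) (by omega) (fun _ => hc) hl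
    · obtain ⟨c, hc⟩ := order_real (u := fun t => (γ t).2) (an_u hγ) hb
      exact noChain_B hγ hz1 hzL (j := 6) (by omega) (fun h => by omega) hc
  · exact noChain_A hγ h0 hu1 huL

end Pool.Agent.H213
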