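import Mathlib

/-! Levi form, isolated weakly pseudoconvex points and Chern-Moser chains in `ℂ × ℂ`. -/

open Filter Topology

namespace Pool.Agent.H213

/-- The Levi form of `ρ` at `x` in the direction `w` (four times the complex Hessian of `ρ`). -/
noncomputable def leviForm (ρ : ℂ × ℂ → ℝ) (x w : ℂ × ℂ) : ℝ :=
  fderiv ℝ (fderiv ℝ ρ) x w w +
    fderiv ℝ (fderiv ℝ ρ) x (Complex.I • w) (Complex.I • w)

/-- `w` is tangent to `{ρ = 0}` at `x` and so is `i w`. -/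
def IsComplexTangent (ρ : ℂ × ℂ → ℝ) (x w : ℂ × ℂ) : Prop :=
  fderiv ℝ ρ x w = 0 ∧ fderiv ℝ ρ x (Complex.I • w) = 0

/-- `p` is an isolated weakly pseudoconvex point of the real-analytic hypersurface `{ρ = 0}`:
the Levi form on the complex tangent line vanishes at `p` and is positive at all other points of
the hypersurface near `p`. -/
structure IsIsolatedWeaklyPseudoconvex (ρ : ℂ × ℂ → ℝ) (p : ℂ × ℂ) : Prop where
  analytic : ∀ x, AnalyticAt ℝ ρ x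
  mem : ρ p = 0
  regular : fderiv ℝ ρ p ≠ 0
  levi_zero : ∀ w, IsComplexTangent ρ p w → leviForm ρ p w = 0
  levi_pos : ∀ᶠ x in 𝓝 p, ρ x = 0 → x ≠ p → ∀ w, w ≠ 0 → IsComplexTangent ρ x w →
    0 < leviForm ρ x w

/-- `Φ` is a system of Chern-Moser normal coordinates for the hypersurface `M` centred at `q`:
a local biholomorphism with `Φ q = 0` in which `M` is given near `q` by
`Im w = |z| ^ 2 + N (z, Re w)`, where `N` is real-analytic and consists of terms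
`N_kl(u) z ^ k (conj z) ^ l` with `k, l ≥ 2` and `N_22 = N_23 = N_32 = N_33 = 0`, that is,
`N = Re (z ^ 4 (conj z) ^ 2 G (z, u))` with `G` real-analytic. -/
def IsNormalCoordinates (M : Set (ℂ × ℂ)) (q : ℂ × ℂ) (Φ : ℂ × ℂ → ℂ × ℂ) : Prop :=
  AnalyticAt ℂ Φ q ∧ Function.Bijective (fderiv ℂ Φ q) ∧ Φ q = 0 ∧
    ∃ G : ℂ × ℝ → ℂ, AnalyticAt ℝ G 0 ∧ ∀ᶠ x in 𝓝 q, x ∈ M ↔
      (Φ x).2.im = ‖(Φ x).1‖ ^ 2 +
        ((Φ x).1 ^ 4 * (starRingEnd ℂ) (Φ x).1 ^ 2 * G ((Φ x).1, (Φ x).2.re)).re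

/-- The curve `c` is a Chern-Moser chain of `M` near the parameter `t`: in some normal coordinates
centred at `c t`, the points `c s` with `s` near `t` lie on the line `z = 0`, `Im w = 0`. -/
def IsChainAt (M : Set (ℂ × ℂ)) (c : ℝ → ℂ × ℂ) (t : ℝ) : Prop :=
  ∃ Φ : ℂ × ℂ → ℂ × ℂ, IsNormalCoordinates M (c t) Φ ∧
    ∀ᶠ s in 𝓝 t, (Φ (c s)).1 = 0 ∧ (Φ (c s)).2.im = 0

/-- The defining function of the hypersurface
`Im w = |z| ^ 8 + 2 (Re w) ^ 2 |z| ^ 4 (Re z) + 4 (Re w) ^ 4 |z| ^ 2`. -/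
noncomputable def rho (x : ℂ × ℂ) : ℝ :=
  ‖x.1‖ ^ 8 + 2 * x.2.re ^ 2 * ‖x.1‖ ^ 4 * x.1.re + 4 * x.2.re ^ 4 * ‖x.1‖ ^ 2 - x.2.im

end Pool.Agent.H213
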