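import Pool.Agent.H213.Ord

/-! The hypersurface `Im w = |z|^8 + 2 u^2 |z|^4 Re z + 4 u^4 |z|^2`. -/

open Filter Topology Asymptotics

namespace Pool.Agent.H213

open Complex (I)

/-- The defining function. -/
noncomputable def Fex (p : V) : ℝ :=
  Complex.normSq p.1 ^ 4 + 2 * p.2 ^ 2 * Complex.normSq p.1 ^ 2 * p.1.re +
    4 * p.2 ^ 4 * Complex.normSq p.1

theorem Fex_eq (p : V) : (Fex p : ℂ) = p.1 ^ 4 * starRingEnd ℂ p.1 ^ 4 +
    (p.2 : ℂ) ^ 2 * (p.1 ^ 3 * starRingEnd ℂ p.1 ^ 2 + p.1 ^ 2 * starRingEnd ℂ p.1 ^ 3) +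
    4 * (p.2 : ℂ) ^ 4 * (p.1 * starRingEnd ℂ p.1) := by
  unfold Fex
  have h1 := Complex.mul_conj p.1
  have h2 := Complex.add_conj p.1
  push_cast
  rw [← h1]
  have h3 : (p.1.re : ℂ) = (p.1 + starRingEnd ℂ p.1) / 2 := by rw [h2]; push_cast; ring
  rw [h3]
  ring

theorem an_fst (p : V) : AnalyticAt ℝ (fun q : V => q.1) p :=
  (ContinuousLinearMap.fst ℝ ℂ ℝ).analyticAt p
theorem an_snd (p : V) : AnalyticAt ℝ (fun q : V => (q.2 : ℂ)) p :=
  (Complex.ofRealCLM.comp (ContinuousLinearMap.snd ℝ ℂ ℝ)).analyticAt p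

theorem Fex_analytic (p : V) : AnalyticAt ℝ Fex p := by
  have h : AnalyticAt ℝ (fun p : V => p.1 ^ 4 * starRingEnd ℂ p.1 ^ 4 +
    (p.2 : ℂ) ^ 2 * (p.1 ^ 3 * starRingEnd ℂ p.1 ^ 2 + p.1 ^ 2 * starRingEnd ℂ p.1 ^ 3) +
    4 * (p.2 : ℂ) ^ 4 * (p.1 * starRingEnd ℂ p.1)) p := by
    have h1 := an_fst p
    have h2 := an_snd p
    have h3 := analytic_conj h1
    exact (((h1.pow 4).mul (h3.pow 4)).add ((h2.pow 2).mul
      (((h1.pow 3).mul (h3.pow 2)).add ((h1.pow 2).mul (h3.pow 3))))).add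
      ((analyticAt_const.mul (h2.pow 4)).mul (h1.mul h3))
  have h' := (Complex.reCLM.analyticAt _).comp h
  refine h'.congr ?_
  filter_upwards with q
  have := Fex_eq q
  simp only [Function.comp]
  rw [← this]
  simp

variable {F : OFilter V}

theorem An_z : An F (fun p : V => p.1) := Eventually.of_forall an_fst
theorem An_u : An F (fun p : V => (p.2 : ℂ)) := Eventually.of_forall an_snd

variable (F) in
/-- The germ `z`. -/
noncomputable def zg : AR F := mk _ An_z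
variable (F) in
/-- The germ `u`. -/
noncomputable def ug : AR F := mk _ An_u

theorem D_z (v : V) : D v (zg F) = cst F v.1 := by
  unfold zg cst
  rw [D_mk, mk_eq]
  filter_upwards with p
  have : fderiv ℝ (fun q : V => q.1) p = ContinuousLinearMap.fst ℝ ℂ ℝ :=
    (hasFDerivAt_fst).fderiv
  rw [this]; rfl

theorem D_u (v : V) : D v (ug F) = cst F v.2 := by
  unfold ug cst
  rw [D_mk, mk_eq]
  filter_upwards with p
  have : fderiv ℝ (fun q : V => (q.2 : ℂ)) p =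
      Complex.ofRealCLM.comp (ContinuousLinearMap.snd ℝ ℂ ℝ) :=
    (Complex.ofRealCLM.comp (ContinuousLinearMap.snd ℝ ℂ ℝ)).hasFDerivAt.fderiv
  rw [this]; rfl

theorem cst_mul (a b : ℂ) : cst F a * cst F b = cst F (a * b) := rfl
theorem cst_add (a b : ℂ) : cst F a + cst F b = cst F (a + b) := rfl
theorem cst_sub (a b : ℂ) : cst F a - cst F b = cst F (a - b) := rfl
theorem cst_one : cst F 1 = 1 := rfl
theorem cst_zero : cst F 0 = 0 := rfl

theorem Dz_z : Dz (zg F) = 1 := by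
  rw [Dz_apply, D_z, D_z, cst_mul, cst_sub, cst_mul, ← cst_one]
  congr 1
  simp
  norm_num
theorem Dzb_z : Dzb (zg F) = 0 := by
  rw [Dzb_apply, D_z, D_z, cst_mul, cst_add, cst_mul, ← cst_zero]
  congr 1
  simp
theorem Du_z : Du (zg F) = 0 := by
  rw [Du_apply, D_z]; rfl
theorem Dz_b : Dz (cj (zg F)) = 0 := by
  rw [← cj_Dzb, Dzb_z, map_zero]
theorem Dzb_b : Dzb (cj (zg F)) = 1 := by
  rw [← cj_Dz, Dz_z, map_one]
theorem Du_b : Du (cj (zg F)) = 0 := by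
  rw [← cj_Du, Du_z, map_zero]
theorem Dz_u : Dz (ug F) = 0 := by
  rw [Dz_apply, D_u, D_u, cst_mul, cst_sub, cst_mul, ← cst_zero]
  congr 1
  simp
theorem Dzb_u : Dzb (ug F) = 0 := by
  rw [Dzb_apply, D_u, D_u, cst_mul, cst_add, cst_mul, ← cst_zero]
  congr 1
  simp
theorem Du_u : Du (ug F) = 1 := by
  rw [Du_apply, D_u, ← cst_one]; rfl
theorem cj_u : cj (ug F) = ug F := by
  unfold ug
  rw [cj_mk, mk_eq]
  filter_upwards with p
  simp

theorem An_Fex : An F (fun p => (Fex p : ℂ)) :=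
  Eventually.of_forall fun p => analytic_ofReal (Fex_analytic p)

variable (F) in
/-- The germ of the defining function. -/
noncomputable def Fg : AR F := mk _ An_Fex

theorem four_eq : (4 : AR F) = cst F 4 := by
  have := mk_nat (F := F) 4
  rw [Nat.cast_ofNat, Nat.cast_ofNat] at this
  exact this

theorem Fg_eq : Fg F = zg F ^ 4 * cj (zg F) ^ 4 +
    ug F ^ 2 * (zg F ^ 3 * cj (zg F) ^ 2 + zg F ^ 2 * cj (zg F) ^ 3) +
    4 * ug F ^ 4 * (zg F * cj (zg F)) := by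
  have e : ∀ (φ ψ χ τ : V → ℂ) (h1 : An F φ) (h2 : An F ψ) (h3 : An F χ) (h4 : An F τ)
    (_ : ∀ p, φ p = ψ p ^ 4 * χ p ^ 4 + τ p ^ 2 * (ψ p ^ 3 * χ p ^ 2 + ψ p ^ 2 * χ p ^ 3) +
      4 * τ p ^ 4 * (ψ p * χ p)),
    mk φ h1 = mk ψ h2 ^ 4 * mk χ h3 ^ 4 + mk τ h4 ^ 2 * (mk ψ h2 ^ 3 * mk χ h3 ^ 2 +
      mk ψ h2 ^ 2 * mk χ h3 ^ 3) + 4 * mk τ h4 ^ 4 * (mk ψ h2 * mk χ h3) := by
    intro φ ψ χ τ h1 h2 h3 h4 h
    have hφ : φ = fun p => ψ p ^ 4 * χ p ^ 4 + τ p ^ 2 * (ψ p ^ 3 * χ p ^ 2 + ψ p ^ 2 * χ p ^ 3) +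
      4 * τ p ^ 4 * (ψ p * χ p) := funext h
    subst hφ
    rw [four_eq]
    simp only [pow_succ, pow_zero, one_mul, cst, mk_mul, mk_add]
  exact e (fun p => (Fex p : ℂ)) (fun p => p.1) (fun p => starRingEnd ℂ p.1)
    (fun p => (p.2 : ℂ)) An_Fex An_z An_z.conj An_u Fex_eq

/-- All derivatives of polynomials. -/
theorem der_pow (d : Derivation ℤ (AR F) (AR F)) (f : AR F) (n : ℕ) :
    d (f ^ (n+1)) = (n + 1 : ℕ) * f ^ n * d f := by
  rw [Derivation.leibniz_pow]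
  simp [mul_assoc]

theorem der_2 (d : Derivation ℤ (AR F) (AR F)) : d (2 : AR F) = 0 := by
  have := d.map_natCast 2
  rwa [Nat.cast_ofNat] at this

theorem der_3 (d : Derivation ℤ (AR F) (AR F)) : d (3 : AR F) = 0 := by
  have := d.map_natCast 3
  rwa [Nat.cast_ofNat] at this

theorem der_4 (d : Derivation ℤ (AR F) (AR F)) : d (4 : AR F) = 0 := by
  have := d.map_natCast 4
  rwa [Nat.cast_ofNat] at this

theorem der_6 (d : Derivation ℤ (AR F) (AR F)) : d (6 : AR F) = 0 := by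
  have := d.map_natCast 6
  rwa [Nat.cast_ofNat] at this

theorem der_8 (d : Derivation ℤ (AR F) (AR F)) : d (8 : AR F) = 0 := by
  have := d.map_natCast 8
  rwa [Nat.cast_ofNat] at this

theorem der_12 (d : Derivation ℤ (AR F) (AR F)) : d (12 : AR F) = 0 := by
  have := d.map_natCast 12
  rwa [Nat.cast_ofNat] at this

theorem der_16 (d : Derivation ℤ (AR F) (AR F)) : d (16 : AR F) = 0 := by
  have := d.map_natCast 16
  rwa [Nat.cast_ofNat] at this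

theorem der_32 (d : Derivation ℤ (AR F) (AR F)) : d (32 : AR F) = 0 := by
  have := d.map_natCast 32
  rwa [Nat.cast_ofNat] at this

theorem Dz_F : Dz (Fg F) = 4 * zg F ^ 3 * cj (zg F) ^ 4 +
    ug F ^ 2 * (3 * zg F ^ 2 * cj (zg F) ^ 2 + 2 * zg F * cj (zg F) ^ 3) +
    4 * ug F ^ 4 * cj (zg F) := by
  rw [Fg_eq]
  simp only [map_add, lbz, der_pow, Dz_z, Dz_b, Dz_u, der_2, der_3, der_4, der_16]
  push_cast
  ring

theorem Dzb_F : Dzb (Fg F) = 4 * zg F ^ 4 * cj (zg F) ^ 3 +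
    ug F ^ 2 * (2 * zg F ^ 3 * cj (zg F) + 3 * zg F ^ 2 * cj (zg F) ^ 2) +
    4 * ug F ^ 4 * zg F := by
  rw [Fg_eq]
  simp only [map_add, lbz, der_pow, Dzb_z, Dzb_b, Dzb_u, der_2, der_3, der_4, der_16]
  push_cast
  ring

theorem Du_F : Du (Fg F) = 2 * ug F * (zg F ^ 3 * cj (zg F) ^ 2 + zg F ^ 2 * cj (zg F) ^ 3) +
    16 * ug F ^ 3 * (zg F * cj (zg F)) := by
  rw [Fg_eq]
  simp only [map_add, lbz, der_pow, Du_z, Du_b, Du_u, der_2, der_3, der_4, der_16]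
  push_cast
  ring

theorem Dzb_Dz_F : Dzb (Dz (Fg F)) = 16 * zg F ^ 3 * cj (zg F) ^ 3 +
    6 * ug F ^ 2 * (zg F ^ 2 * cj (zg F) + zg F * cj (zg F) ^ 2) + 4 * ug F ^ 4 := by
  rw [Dz_F]
  simp only [map_add, lbz, der_pow, Dzb_z, Dzb_b, Dzb_u, der_2, der_3, der_4, der_16]
  push_cast
  ring

end Pool.Agent.H213
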