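import Pool.Agent.H213.Steps

/-! Orders of the invariants of the example along a curve tangent to the complex tangent line. -/

open Filter Topology Asymptotics

namespace Pool.Agent.H213

open Complex (I)

section gen
variable {F : OFilter V}

theorem An_a : An F (aF Fex) := An_aF (Eventually.of_forall Fex_analytic)

variable (F) in
/-- Germ of `a`. -/
noncomputable def aG : AR F := mk (aF Fex) An_a
variable (F) in
/-- Germ of the Levi function. -/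
noncomputable def elG : AR F := mk (elF (aF Fex)) (anEl An_a)

theorem a_rel : aG F * (1 - cst F I * Du (Fg F)) = cst F I * Dz (Fg F) := by
  unfold aG Fg cst
  rw [Du_mk, Dz_mk, mk_one, mk_mul, mk_mul, mk_sub, mk_mul, mk_eq]
  filter_upwards with p
  unfold aF
  rw [div_mul_cancel₀ _ (den_ne Fex (Fex_analytic p))]

theorem cj_F : cj (Fg F) = Fg F := by
  unfold Fg
  rw [cj_mk, mk_eq]
  filter_upwards with p
  simp

theorem cj_I : cj (cst F I) = - cst F I := by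
  rw [cj_cst, Complex.conj_I]; rfl

theorem Dz_Dzb_F : Dz (Dzb (Fg F)) = Dzb (Dz (Fg F)) := (Dzb_Dz _).symm

theorem el_decomp : elG F = 2 * cst F I * Dzb (Dz (Fg F)) +
    (Dzb (aG F - cst F I * Dz (Fg F)) - Dz (cj (aG F - cst F I * Dz (Fg F))) +
      cj (aG F) * Du (aG F) - aG F * Du (cj (aG F))) := by
  have h1 : elG F = LLb (aG F) (aG F) - LL (aG F) (cj (aG F)) := by
    unfold elG aG; rw [elF_mk]
  have hc : cj (cst F I * Dz (Fg F)) = - cst F I * Dzb (Fg F) := by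
    rw [map_mul, cj_I, cj_Dz, cj_F]
  rw [h1, LLb_apply, LL_apply, map_sub, map_sub, map_sub, hc, lbz, lbz,
    map_neg, Dzb_cst, Dz_cst, Dz_Dzb_F]
  ring

theorem e_eq : aG F - cst F I * Dz (Fg F) = cst F I * (aG F * Du (Fg F)) := by
  linear_combination a_rel (F := F)

end gen

variable {γ : ℝ → V}

theorem Or_z {m : ℤ} (h : O0 1 (zg (CO γ))) : Or m 1 (zg (CO γ)) := by
  intro K
  cases K with
  | zero => exact h
  | succ K =>
    refine ⟨h, ?_, ?_, ?_⟩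
    · rw [Dz_z]; exact Or_one K
    · rw [Dzb_z]; exact OK_zero K _
    · rw [Du_z]; exact OK_zero K _

theorem Or_u {m : ℤ} (h : O0 m (ug (CO γ))) : Or m m (ug (CO γ)) := by
  intro K
  cases K with
  | zero => exact h
  | succ K =>
    refine ⟨h, ?_, ?_, ?_⟩
    · rw [Dz_u]; exact OK_zero K _
    · rw [Dzb_u]; exact OK_zero K _
    · rw [Du_u, sub_self]; exact Or_one K

theorem unit_one_add {x : AR (CO γ)} (hx : O0 1 x) : ∃ h, (1 + x) * h = 1 ∧ O0 0 h := by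
  obtain ⟨φ, hφ, rfl⟩ := exists_mk x
  rw [O0_mk] at hx
  have h1 : Ld 0 1 (fun t => 1 + φ (γ t)) := by
    have := (Ld.const 1).add (hx.ld (n := 0))
    simpa using this
  have h2 := exists_inv_CO (γ := γ) (φ := fun p => 1 + φ p) (h := (An.const 1).add hφ) h1 one_ne_zero
  obtain ⟨g, hg1, hg2⟩ := h2
  exact ⟨g, hg1, by simpa using hg2⟩

theorem Or.pow {m n : ℤ} {f : AR (CO γ)} (h : Or m n f) (k : ℕ) : Or m (k * n) (f ^ k) := by
  induction k with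
  | zero => simpa using Or_one
  | succ k ih =>
    rw [pow_succ]
    refine ih.mul' h (le_of_eq ?_)
    push_cast; ring

theorem Or.pow' {m n : ℤ} {f : AR (CO γ)} (h : Or m n f) (k : ℕ) {j : ℤ} (hj : j ≤ k * n) :
    Or m j (f ^ k) := (h.pow k).mono hj

/-- Order of `a` and of `a - i F_z`. -/
theorem a_order {m α β : ℤ} (hβ : 1 ≤ β) (h1 : Or m α (Dz (Fg (CO γ))))
    (h2 : Or m β (Du (Fg (CO γ)))) :
    Or m α (aG (CO γ)) ∧ Or m (α + β) (aG (CO γ) - cst _ I * Dz (Fg (CO γ))) := by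
  have h3 : O0 1 (-(cst (CO γ) I * Du (Fg (CO γ)))) :=
    (((Or_cst I).mul' h2 (by omega : (1:ℤ) ≤ 0 + β)).neg).o0
  obtain ⟨g, hg1, hg2⟩ := unit_one_add h3
  have hg : Or m 0 g := by
    have := Or.inv (m := m) (n := 0) hg1 ?_ (by simpa using hg2)
    · simpa using this
    · exact Or_one.add (((Or_cst I).mul' h2 (by omega : (0:ℤ) ≤ 0 + β)).neg)
  have ha : aG (CO γ) = cst _ I * Dz (Fg (CO γ)) * g := by
    have := a_rel (F := CO γ)
    linear_combination g * this - aG (CO γ) * hg1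
  have haO : Or m α (aG (CO γ)) := by
    rw [ha]
    exact ((Or_cst I).mul' h1 (by omega : α ≤ 0 + α)).mul' hg (by omega)
  refine ⟨haO, ?_⟩
  rw [e_eq]
  exact (Or_cst I).mul' (haO.mul h2) (by omega)

/-- Order of the error term in the Levi function. -/
theorem E_order {m α β δ : ℤ} (h1 : Or m α (aG (CO γ)))
    (h2 : Or m (α + β) (aG (CO γ) - cst _ I * Dz (Fg (CO γ)))) (h3 : Or m δ (Du (aG (CO γ))))
    (h4 : β - 1 ≤ δ) :
    Or m (α + β - 1) (elG (CO γ) - 2 * cst _ I * Dzb (Dz (Fg (CO γ)))) := by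
  have h5 := el_decomp (F := CO γ)
  have h6 : elG (CO γ) - 2 * cst _ I * Dzb (Dz (Fg (CO γ))) =
      (Dzb (aG (CO γ) - cst (CO γ) I * Dz (Fg (CO γ))) -
        Dz (cj (aG (CO γ) - cst (CO γ) I * Dz (Fg (CO γ)))) +
      cj (aG (CO γ)) * Du (aG (CO γ)) - aG (CO γ) * Du (cj (aG (CO γ)))) := by
    linear_combination h5
  rw [h6]
  refine ((h2.dzb.sub h2.conj.dz).add (h1.conj.mul' h3 (by omega))).sub ?_
  rw [← cj_Du]
  exact h1.mul' h3.conj (by omega)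

theorem anQ {F : OFilter V} {a : V → ℂ} (ha : An F a) (h0 : ∀ᶠ p in F.f, elF a p ≠ 0) :
    An F (QF a) :=
  (((anLo ha (anK ha h0)).sub ((anSg ha h0).mul (anK ha h0))).div ((An.const 6).mul (anEl ha))
    (h0.mono fun _ hp => mul_ne_zero (by norm_num) hp)).sub ((An.const (1/3)).mul (anSg ha h0).du)

theorem nat_eq {F : OFilter V} (n : ℕ) [n.AtLeastTwo] : (OfNat.ofNat n : AR F) = cst F (OfNat.ofNat n) := by
  have := mk_nat (F := F) n
  exact this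

theorem Q_rel {F : OFilter V} {a : V → ℂ} (ha : An F a) (h0 : ∀ᶠ p in F.f, elF a p ≠ 0) :
    6 * mk (elF a) (anEl ha) * mk (QF a) (anQ ha h0) =
      LL (mk a ha) (mk (kF a) (anK ha h0)) - mk (sgF a) (anSg ha h0) * mk (kF a) (anK ha h0) -
      2 * mk (elF a) (anEl ha) * Du (mk (sgF a) (anSg ha h0)) := by
  rw [nat_eq 6, nat_eq 2]
  simp only [LL_mk, Du_mk, cst, mk_mul, mk_sub]
  rw [mk_eq]
  filter_upwards [h0] with p hp
  unfold QF
  field_simp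
  ring

/-- Leading term of a germ on the curve. -/
def L0 (n : ℤ) (c : ℂ) (g : AR (CO γ)) : Prop := ∃ φ h, mk φ h = g ∧ Ld n c (fun t => φ (γ t))

theorem L0_mk {n : ℤ} {c : ℂ} {φ : V → ℂ} {h : An (CO γ) φ} :
    L0 n c (mk φ h) ↔ Ld n c (fun t => φ (γ t)) := by
  constructor
  · rintro ⟨ψ, h', he, hb⟩
    exact hb.congr (CO_at (mk_eq.1 he))
  · intro hb
    exact ⟨φ, h, rfl, hb⟩

theorem L0.add {n : ℤ} {c d : ℂ} {f g : AR (CO γ)} (h : L0 n c f) (h' : L0 n d g) :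
    L0 n (c + d) (f + g) := by
  obtain ⟨φ, h1, rfl⟩ := exists_mk f
  obtain ⟨ψ, h2, rfl⟩ := exists_mk g
  rw [L0_mk] at h h'
  rw [mk_add, L0_mk]
  exact h.add h'

theorem L0.mul {n n' : ℤ} {c d : ℂ} {f g : AR (CO γ)} (h : L0 n c f) (h' : L0 n' d g) :
    L0 (n + n') (c * d) (f * g) := by
  obtain ⟨φ, h1, rfl⟩ := exists_mk f
  obtain ⟨ψ, h2, rfl⟩ := exists_mk g
  rw [L0_mk] at h h'
  rw [mk_mul, L0_mk]
  exact h.mul h'

theorem L0.conj {n : ℤ} {c : ℂ} {f : AR (CO γ)} (h : L0 n c f) :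
    L0 n (starRingEnd ℂ c) (cj f) := by
  obtain ⟨φ, h1, rfl⟩ := exists_mk f
  rw [L0_mk] at h
  rw [cj_mk, L0_mk]
  exact h.conj

theorem L0_cst (a : ℂ) : L0 0 a (cst (CO γ) a) := by
  unfold cst; rw [L0_mk]; exact Ld.const a

theorem L0_nat (n : ℕ) [n.AtLeastTwo] : L0 0 (OfNat.ofNat n : ℂ) (OfNat.ofNat n : AR (CO γ)) := by
  rw [nat_eq]; exact L0_cst _

theorem L0_of_O0 {n : ℤ} {f : AR (CO γ)} (h : O0 (n + 1) f) : L0 n 0 f := by
  obtain ⟨φ, h1, rfl⟩ := exists_mk f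
  rw [O0_mk] at h
  rw [L0_mk]
  exact h.ld

theorem L0.cast {n n' : ℤ} {c c' : ℂ} {f : AR (CO γ)} (h : L0 n c f) (hn : n = n') (hc : c = c') :
    L0 n' c' f := by subst hn; subst hc; exact h

theorem L0.pow {n : ℤ} {c : ℂ} {f : AR (CO γ)} (h : L0 n c f) (k : ℕ) :
    L0 (k * n) (c ^ k) (f ^ k) := by
  induction k with
  | zero =>
    have := L0_cst (γ := γ) 1
    rw [cst_one] at this
    simpa using this
  | succ k ih =>
    rw [pow_succ, pow_succ]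
    exact (ih.mul h).cast (by push_cast; ring) rfl

theorem L0.inv {n : ℤ} {c : ℂ} {f g : AR (CO γ)} (h : L0 n c f) (hc : c ≠ 0) (hfg : f * g = 1) :
    L0 (-n) c⁻¹ g := by
  obtain ⟨φ, h1, rfl⟩ := exists_mk f
  obtain ⟨ψ, h2, rfl⟩ := exists_mk g
  rw [L0_mk] at h
  rw [L0_mk]
  rw [mk_mul, mk_one, mk_eq] at hfg
  refine (h.inv' hc).congr ?_
  filter_upwards [CO_at hfg, h.ne hc] with t ht h0
  exact inv_eq_of_mul_eq_one_right ht

theorem ell_ne {g : AR (CO γ)} (h : elG (CO γ) * g = 1) :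
    ∀ᶠ p in (CO γ).f, elF (aF Fex) p ≠ 0 := by
  obtain ⟨ψ, h2, rfl⟩ := exists_mk g
  unfold elG at h
  rw [mk_mul, mk_one, mk_eq] at h
  filter_upwards [h] with p hp h0
  rw [h0, zero_mul] at hp
  exact zero_ne_one hp

section caseB

theorem Fz_B {m : ℤ} (hm : 2 ≤ m) (hz : Or m 1 (zg (CO γ))) (hu : Or m m (ug (CO γ))) :
    Or m 7 (Dz (Fg (CO γ))) ∧ Or m (m + 5) (Du (Fg (CO γ))) ∧
    Or m 8 (Dz (Fg (CO γ)) - 4 * zg (CO γ) ^ 3 * cj (zg (CO γ)) ^ 4) := by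
  have hb := hz.conj
  have h8 : Or m 8 (Dz (Fg (CO γ)) - 4 * zg (CO γ) ^ 3 * cj (zg (CO γ)) ^ 4) := by
    rw [Dz_F]
    have e : (4 * zg (CO γ) ^ 3 * cj (zg (CO γ)) ^ 4 +
      ug (CO γ) ^ 2 * (3 * zg (CO γ) ^ 2 * cj (zg (CO γ)) ^ 2 + 2 * zg (CO γ) * cj (zg (CO γ)) ^ 3) +
      4 * ug (CO γ) ^ 4 * cj (zg (CO γ))) - 4 * zg (CO γ) ^ 3 * cj (zg (CO γ)) ^ 4 =
      ug (CO γ) ^ 2 * (3 * (zg (CO γ) ^ 2 * cj (zg (CO γ)) ^ 2) +
        2 * (zg (CO γ) * cj (zg (CO γ)) ^ 3)) + 4 * (ug (CO γ) ^ 4 * cj (zg (CO γ))) := by ring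
    rw [e]
    refine Or.add ?_ ?_
    · refine (hu.pow' 2 (j := 4) (by push_cast; omega)).mul' (n' := 4) ?_ (by omega)
      refine Or.add ((Or_ofNat 3).mul' (((hz.pow 2).mul (hb.pow 2))) (by norm_num)) ?_
      exact (Or_ofNat 2).mul' ((hz.mul (hb.pow 3))) (by norm_num)
    · exact (Or_ofNat 4).mul' ((hu.pow' 4 (j := 8) (by push_cast; omega)).mul hb) (by norm_num)
  refine ⟨?_, ?_, h8⟩
  · have e : Dz (Fg (CO γ)) = (Dz (Fg (CO γ)) - 4 * zg (CO γ) ^ 3 * cj (zg (CO γ)) ^ 4) +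
      4 * (zg (CO γ) ^ 3 * cj (zg (CO γ)) ^ 4) := by ring
    rw [e]
    exact (h8.mono (by omega)).add ((Or_ofNat 4).mul' ((hz.pow 3).mul (hb.pow 4)) (by norm_num))
  · rw [Du_F]
    have e : (2 * ug (CO γ) * (zg (CO γ) ^ 3 * cj (zg (CO γ)) ^ 2 +
      zg (CO γ) ^ 2 * cj (zg (CO γ)) ^ 3) + 16 * ug (CO γ) ^ 3 * (zg (CO γ) * cj (zg (CO γ)))) =
      2 * (ug (CO γ) * (zg (CO γ) ^ 3 * cj (zg (CO γ)) ^ 2 + zg (CO γ) ^ 2 * cj (zg (CO γ)) ^ 3)) +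
      16 * (ug (CO γ) ^ 3 * (zg (CO γ) * cj (zg (CO γ)))) := by ring
    rw [e]
    refine Or.add ((Or_ofNat 2).mul' (n' := m + 5) ?_ (by omega))
      ((Or_ofNat 16).mul' (n' := m + 5) ?_ (by omega))
    · refine hu.mul' (n' := 5) (Or.add ?_ ?_) (by omega)
      · exact (hz.pow 3).mul' (hb.pow 2) (by norm_num)
      · exact (hz.pow 2).mul' (hb.pow 3) (by norm_num)
    · exact (hu.pow 3).mul' (hz.mul hb) (by push_cast; omega)

/-- Derivatives of an inverse. -/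
theorem der_inv {F : OFilter V} (d : Derivation ℤ (AR F) (AR F)) {f g : AR F} (h : f * g = 1) :
    d g = - (g ^ 2 * d f) := by
  have h1 := congrArg d h
  rw [lbz, Derivation.map_one_eq_zero] at h1
  linear_combination g * h1 - d g * h

theorem caseB {m : ℤ} (hm : 2 ≤ m) (hm8 : m ≤ 8) {z1 : ℂ} (hz1 : z1 ≠ 0)
    (hz : Ld 1 z1 (fun t => (γ t).1)) (hu : BO m (fun t => ((γ t).2 : ℂ))) :
    Or m (m + 4) (Du (aG (CO γ))) ∧
    Or m 8 (aG (CO γ) - 4 * cst _ I * (zg (CO γ) ^ 3 * cj (zg (CO γ)) ^ 4)) ∧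
    Or m (2 * m + 3) (elG (CO γ) - 32 * cst _ I * (zg (CO γ) ^ 3 * cj (zg (CO γ)) ^ 3)) ∧
    ∃ h0 : (∀ᶠ p in (CO γ).f, elF (aF Fex) p ≠ 0),
      Or m (2 * m - 5) (mk (kF (aF Fex)) (anK An_a h0)) ∧
      Or m (2 * m - 12) (mk (QF (aF Fex)) (anQ An_a h0)) ∧
      (m ≤ 7 → ∃ zi, zg (CO γ) * zi = 1 ∧ Or m (2 * m - 11) (6 * mk (QF (aF Fex)) (anQ An_a h0) +
        cst _ (-(3/128) * I) * (ug (CO γ) ^ 2 * (5 * zi ^ 6 * cj zi ^ 6 + 6 * zi ^ 7 * cj zi ^ 5)))) := by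
  have hzO : Or m 1 (zg (CO γ)) := Or_z (O0_mk.2 hz.bo)
  have huO : Or m m (ug (CO γ)) := Or_u (O0_mk.2 hu)
  have hbO := hzO.conj
  obtain ⟨hFz, hFu, hFz8⟩ := Fz_B hm hzO huO
  obtain ⟨haO, heO⟩ := a_order (by omega : 1 ≤ m + 5) hFz hFu
  have hDua : Or m (m + 4) (Du (aG (CO γ))) := by
    have e : Du (aG (CO γ)) = cst _ I * Dz (Du (Fg (CO γ))) +
        Du (aG (CO γ) - cst _ I * Dz (Fg (CO γ))) := by
      rw [map_sub, lbz, Du_cst, Du_Dz]; ring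
    rw [e]
    exact ((Or_cst I).mul' hFu.dz (by omega)).add (heO.du.mono (by omega))
  have hE := E_order (β := m + 5) haO heO hDua (by omega)
  have ha8 : Or m 8 (aG (CO γ) - 4 * cst _ I * (zg (CO γ) ^ 3 * cj (zg (CO γ)) ^ 4)) := by
    have e : aG (CO γ) - 4 * cst _ I * (zg (CO γ) ^ 3 * cj (zg (CO γ)) ^ 4) =
        (aG (CO γ) - cst _ I * Dz (Fg (CO γ))) +
        cst _ I * (Dz (Fg (CO γ)) - 4 * zg (CO γ) ^ 3 * cj (zg (CO γ)) ^ 4) := by ring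
    rw [e]
    exact (heO.mono (by omega)).add ((Or_cst I).mul' hFz8 (by omega))
  obtain ⟨q, hq⟩ : ∃ q, q = elG (CO γ) - 2 * cst _ I * Dzb (Dz (Fg (CO γ))) := ⟨_, rfl⟩
  rw [← hq] at hE
  have hz2b : Or m 3 (zg (CO γ) ^ 2 * cj (zg (CO γ)) + zg (CO γ) * cj (zg (CO γ)) ^ 2) :=
    ((hzO.pow 2).mul' hbO (by norm_num)).add (hzO.mul' (hbO.pow 2) (by norm_num))
  have hell : elG (CO γ) = 32 * cst _ I * (zg (CO γ) ^ 3 * cj (zg (CO γ)) ^ 3) +
      (q + 12 * cst _ I * (ug (CO γ) ^ 2 * (zg (CO γ) ^ 2 * cj (zg (CO γ)) +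
        zg (CO γ) * cj (zg (CO γ)) ^ 2)) + 8 * cst _ I * ug (CO γ) ^ 4) := by
    rw [hq, Dzb_Dz_F]; ring
  have hC : ∀ n : ℕ, Or m 0 ((n : AR (CO γ)) * cst _ I) := fun n =>
    (Or_nat n).mul' (Or_cst I) (by norm_num)
  have hC12 : Or m 0 ((12 : AR (CO γ)) * cst _ I) := (Or_ofNat 12).mul' (Or_cst I) (by norm_num)
  have hC8 : Or m 0 ((8 : AR (CO γ)) * cst _ I) := (Or_ofNat 8).mul' (Or_cst I) (by norm_num)
  have h12 : Or m (2 * m + 3) (12 * cst _ I * (ug (CO γ) ^ 2 * (zg (CO γ) ^ 2 * cj (zg (CO γ)) +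
        zg (CO γ) * cj (zg (CO γ)) ^ 2))) :=
    hC12.mul' ((huO.pow 2).mul hz2b) (by push_cast; omega)
  have h8 : Or m (4 * m) (8 * cst _ I * ug (CO γ) ^ 4) := hC8.mul' (huO.pow 4) (by push_cast; omega)
  have hdiff : Or m (2 * m + 3) (elG (CO γ) - 32 * cst _ I * (zg (CO γ) ^ 3 * cj (zg (CO γ)) ^ 3)) := by
    rw [hell, add_sub_cancel_left]
    exact ((hE.mono (by omega)).add h12).add (h8.mono (by omega))
  refine ⟨hDua, ha8, hdiff, ?_⟩
  -- inverses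
  obtain ⟨zi, hzi, hziO⟩ := exists_inv_CO (γ := γ) (φ := fun p => p.1) (h := An_z) hz hz1
  have hzi' : zg (CO γ) * zi = 1 := hzi
  have hziOr : Or m (-1) zi := Or.inv hzi' hzO hziO
  have hbiOr := hziOr.conj
  have hbi' : cj (zg (CO γ)) * cj zi = 1 := by rw [← map_mul, hzi', map_one]
  obtain ⟨l0, hl0d⟩ : ∃ l0, l0 = 32 * cst (CO γ) I * (zg (CO γ) ^ 3 * cj (zg (CO γ)) ^ 3) := ⟨_, rfl⟩
  obtain ⟨l0i, hl0id⟩ : ∃ l0i, l0i = cst (CO γ) (-I/32) * (zi ^ 3 * cj zi ^ 3) := ⟨_, rfl⟩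
  have hc32 : (32 : AR (CO γ)) * cst (CO γ) I * cst (CO γ) (-I/32) = 1 := by
    rw [nat_eq 32, cst_mul, cst_mul, ← cst_one]
    congr 1
    have := Complex.I_mul_I
    linear_combination -this
  have hl0 : l0 * l0i = 1 := by
    rw [hl0d, hl0id]
    have e1 : (zg (CO γ) * zi) ^ 3 = 1 := by rw [hzi', one_pow]
    have e2 : (cj (zg (CO γ)) * cj zi) ^ 3 = 1 := by rw [hbi', one_pow]
    linear_combination ((zg (CO γ) * zi) ^ 3 * (cj (zg (CO γ)) * cj zi) ^ 3) * hc32 +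
      ((cj (zg (CO γ)) * cj zi) ^ 3) * e1 + e2
  have hl0iO : Or m (-6) l0i := by
    rw [hl0id]
    exact (Or_cst _).mul' ((hziOr.pow 3).mul (hbiOr.pow 3)) (by norm_num)
  rw [← hl0d] at hdiff hell
  obtain ⟨p, hp⟩ : ∃ p, p = (elG (CO γ) - l0) * l0i := ⟨_, rfl⟩
  have hpO : Or m (2 * m - 3) p := by rw [hp]; exact hdiff.mul' hl0iO (by omega)
  have hl : elG (CO γ) = l0 * (1 + p) := by
    rw [hp]; linear_combination (-(elG (CO γ) - l0)) * hl0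
  obtain ⟨h, hh, hhO⟩ := unit_one_add (hpO.mono (by omega : (1:ℤ) ≤ 2 * m - 3)).o0
  have hhOr : Or m 0 h := by
    have := Or.inv (m := m) (n := 0) hh (Or_one.add (hpO.mono (by omega))) (by simpa using hhO)
    simpa using this
  have hne : ∀ᶠ p in (CO γ).f, elF (aF Fex) p ≠ 0 := by
    apply ell_ne (g := l0i * h)
    rw [hl]; linear_combination ((1 + p) * h) * hl0 + hh
  refine ⟨hne, ?_⟩
  obtain ⟨σ, hσd⟩ : ∃ σ, σ = mk (sgF (aF Fex)) (anSg (An_a (F := CO γ)) hne) := ⟨_, rfl⟩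
  have hσ : σ * elG (CO γ) = LL (aG _) (elG _) - Du (aG _) * elG _ := by
    rw [hσd]; exact sgF_mk An_a hne
  have hk : mk (kF (aF Fex)) (anK An_a hne) = LLb (aG (CO γ)) σ := by
    rw [hσd]; exact (kF_mk An_a hne).symm
  have hQ : 6 * elG (CO γ) * mk (QF (aF Fex)) (anQ An_a hne) =
      LL (aG (CO γ)) (mk (kF (aF Fex)) (anK An_a hne)) - σ * mk (kF (aF Fex)) (anK An_a hne) -
      2 * elG (CO γ) * Du σ := by
    rw [hσd]; exact Q_rel An_a hne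
  have dzi : ∀ d : Derivation ℤ (AR (CO γ)) (AR (CO γ)), d zi = - (zi ^ 2 * d (zg _)) :=
    fun d => der_inv d hzi'
  have t1 : Dzb (3 * zi) = 0 := by rw [lbz, der_3, dzi, Dzb_z]; ring
  have t2 : Du (3 * zi) = 0 := by rw [lbz, der_3, dzi, Du_z]; ring
  have t3 : Or m (-1) (3 * zi) := hziOr.cmul 3
  have hL : LL (aG _) l0 = (3 * zi + 0) * l0 := by
    rw [LL_apply, hl0d]
    simp only [lbz, der_pow, Dz_z, Dz_b, Du_z, Du_b, der_32, Dz_cst, Du_cst]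
    push_cast
    linear_combination (-96 * cst (CO γ) I * zg (CO γ) ^ 2 * cj (zg (CO γ)) ^ 3) * hzi'
  have hb := steps_bound (P := 2 * m - 3) (e := 6) haO hDua hl hl0 hh hL hσ hk hQ t1 t2 t3
    (Or_zero _) hpO hhOr hl0iO (by omega) (by omega) (by omega) (by omega)
  refine ⟨hb.2.1.mono (by omega), hb.2.2.mono (by omega), fun hm7 => ⟨zi, hzi', ?_⟩⟩
  obtain ⟨P0, hP0⟩ : ∃ P0, P0 = cst (CO γ) (3/8) * (ug (CO γ) ^ 2 * (zi * cj zi ^ 2 + zi ^ 2 * cj zi)) :=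
    ⟨_, rfl⟩
  have hP0O : Or m (2 * m - 3) P0 := by
    rw [hP0]
    refine (Or_cst _).mul' ((huO.pow 2).mul (n' := -3) (Or.add ?_ ?_)) (by push_cast; omega)
    · exact hziOr.mul' (hbiOr.pow 2) (by norm_num)
    · exact (hziOr.pow 2).mul' hbiOr (by norm_num)
  have hr : Or m (2 * m - 3 + 1) (p - P0) := by
    have e : p - P0 = (q + 8 * cst _ I * ug (CO γ) ^ 4) * l0i := by
      have hc12 : (12 : AR (CO γ)) * cst (CO γ) I * cst (CO γ) (-I/32) = cst (CO γ) (3/8) := by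
        rw [nat_eq 12, cst_mul, cst_mul]
        congr 1
        have := Complex.I_mul_I
        linear_combination (-12/32) * this
      rw [hp, hell, hP0, ← hc12, hl0id]
      have e1 : (zg (CO γ) * zi) ^ 2 = 1 := by rw [hzi', one_pow]
      have e2 : (cj (zg (CO γ)) * cj zi) ^ 2 = 1 := by rw [hbi', one_pow]
      linear_combination (12 * cst (CO γ) I * cst (CO γ) (-I/32) * ug (CO γ) ^ 2) *
        ((zi * cj zi ^ 2 * (cj (zg (CO γ)) * cj zi)) * e1 + (zi * cj zi ^ 2) * hbi' +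
         (zi ^ 2 * cj zi * (zg (CO γ) * zi)) * e2 + (zi ^ 2 * cj zi) * hzi')
    rw [e]
    exact ((hE.mono (by omega : 2 * m + 4 ≤ _)).add (h8.mono (by omega))).mul' hl0iO (by omega)
  have hlead := steps_lead (P := 2 * m - 3) (e := 6) haO hDua hl hl0 hh hL hσ hk hQ t1 t2 t3
    (Or_zero _) hpO hP0O hr hhOr hl0iO (by omega) (by omega) (by omega) (by omega)
  have ecomp : (Dz (Dzb (Dz P0)) - 3 * zi * Dzb (Dz P0)) * l0i = - (cst _ (-(3/128) * I) *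
      (ug (CO γ) ^ 2 * (5 * zi ^ 6 * cj zi ^ 6 + 6 * zi ^ 7 * cj zi ^ 5))) := by
    have f1 : Dz zi = - zi ^ 2 := by rw [dzi, Dz_z]; ring
    have f2 : Dzb zi = 0 := by rw [dzi, Dzb_z]; ring
    have f3 : Dz (cj zi) = 0 := by rw [← cj_Dzb, f2, map_zero]
    have f4 : Dzb (cj zi) = - cj zi ^ 2 := by rw [← cj_Dz, f1, map_neg, map_pow]
    have hcc : cst (CO γ) (-(3/128) * I) = 2 * cst (CO γ) (3/8) * cst (CO γ) (-I/32) := by
      rw [nat_eq 2, cst_mul, cst_mul]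
      congr 1
      ring
    rw [hcc, hP0, hl0id]
    simp only [map_add, map_neg, map_zero, lbz, der_pow, f1, f2, f3, f4, Dz_u, Dzb_u, Dz_cst,
      Dzb_cst, der_2, der_3, Derivation.map_natCast]
    push_cast
    ring
  rw [ecomp, sub_neg_eq_add] at hlead
  exact hlead.mono (by omega)

end caseB

end Pool.Agent.H213
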