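import Pool.Agent.H213.Ex2

/-! Orders of the invariants of the example along a transversal curve. -/

open Filter Topology Asymptotics

namespace Pool.Agent.H213

open Complex (I)

variable {γ : ℝ → V}

theorem Fz_A (hz : Or 1 1 (zg (CO γ))) (hu : Or 1 1 (ug (CO γ))) :
    Or 1 5 (Dz (Fg (CO γ))) ∧ Or 1 5 (Du (Fg (CO γ))) := by
  have hb := hz.conj
  constructor
  · rw [Dz_F]
    have e : (4 * zg (CO γ) ^ 3 * cj (zg (CO γ)) ^ 4 +
      ug (CO γ) ^ 2 * (3 * zg (CO γ) ^ 2 * cj (zg (CO γ)) ^ 2 + 2 * zg (CO γ) * cj (zg (CO γ)) ^ 3) +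
      4 * ug (CO γ) ^ 4 * cj (zg (CO γ))) =
      4 * (zg (CO γ) ^ 3 * cj (zg (CO γ)) ^ 4) +
      ug (CO γ) ^ 2 * (3 * (zg (CO γ) ^ 2 * cj (zg (CO γ)) ^ 2) +
        2 * (zg (CO γ) * cj (zg (CO γ)) ^ 3)) + 4 * (ug (CO γ) ^ 4 * cj (zg (CO γ))) := by ring
    rw [e]
    refine Or.add (Or.add ?_ ?_) ?_
    · exact (Or_ofNat 4).mul' ((hz.pow 3).mul (hb.pow 4)) (by norm_num)
    · refine (hu.pow' 2 (j := 2) (by norm_num)).mul' (n' := 4) ?_ (by omega)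
      refine Or.add ((Or_ofNat 3).mul' (((hz.pow 2).mul (hb.pow 2))) (by norm_num)) ?_
      exact (Or_ofNat 2).mul' ((hz.mul (hb.pow 3))) (by norm_num)
    · exact (Or_ofNat 4).mul' ((hu.pow 4).mul hb) (by norm_num)
  · rw [Du_F]
    have e : (2 * ug (CO γ) * (zg (CO γ) ^ 3 * cj (zg (CO γ)) ^ 2 +
      zg (CO γ) ^ 2 * cj (zg (CO γ)) ^ 3) + 16 * ug (CO γ) ^ 3 * (zg (CO γ) * cj (zg (CO γ)))) =
      2 * (ug (CO γ) * (zg (CO γ) ^ 3 * cj (zg (CO γ)) ^ 2 + zg (CO γ) ^ 2 * cj (zg (CO γ)) ^ 3)) +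
      16 * (ug (CO γ) ^ 3 * (zg (CO γ) * cj (zg (CO γ)))) := by ring
    rw [e]
    refine Or.add ((Or_ofNat 2).mul' (n' := 5) ?_ (by omega))
      ((Or_ofNat 16).mul' (n' := 5) ?_ (by omega))
    · refine hu.mul' (n' := 5) (Or.add ?_ ?_) (by omega)
      · exact (hz.pow 3).mul' (hb.pow 2) (by norm_num)
      · exact (hz.pow 2).mul' (hb.pow 3) (by norm_num)
    · exact (hu.pow 3).mul' (hz.mul hb) (by norm_num)

theorem caseA {u1 : ℂ} (hu1 : u1 ≠ 0)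
    (hz : BO 1 (fun t => (γ t).1)) (hu : Ld 1 u1 (fun t => ((γ t).2 : ℂ))) :
    Or 1 5 (aG (CO γ)) ∧ Or 1 4 (elG (CO γ)) ∧
    ∃ h0 : (∀ᶠ p in (CO γ).f, elF (aF Fex) p ≠ 0),
      Or 1 (-1) (mk (kF (aF Fex)) (anK An_a h0)) ∧
      ∃ ui, ug (CO γ) * ui = 1 ∧ Or 1 (-5) (6 * mk (QF (aF Fex)) (anQ An_a h0) -
        cst _ (-(3/8) * I) * ui ^ 6) := by
  have hzO : Or 1 1 (zg (CO γ)) := Or_z (O0_mk.2 hz)
  have huO : Or 1 1 (ug (CO γ)) := Or_u (O0_mk.2 hu.bo)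
  have hbO := hzO.conj
  obtain ⟨hFz, hFu⟩ := Fz_A hzO huO
  obtain ⟨haO, heO⟩ := a_order (by omega : (1:ℤ) ≤ 5) hFz hFu
  have hDua : Or 1 4 (Du (aG (CO γ))) := haO.du.mono (by omega)
  have hE := E_order (β := 5) haO heO hDua (by omega)
  obtain ⟨q, hq⟩ : ∃ q, q = elG (CO γ) - 2 * cst _ I * Dzb (Dz (Fg (CO γ))) := ⟨_, rfl⟩
  rw [← hq] at hE
  have hz2b : Or 1 3 (zg (CO γ) ^ 2 * cj (zg (CO γ)) + zg (CO γ) * cj (zg (CO γ)) ^ 2) :=
    ((hzO.pow 2).mul' hbO (by norm_num)).add (hzO.mul' (hbO.pow 2) (by norm_num))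
  have hell : elG (CO γ) = 8 * cst _ I * ug (CO γ) ^ 4 +
      (q + 32 * cst _ I * (zg (CO γ) ^ 3 * cj (zg (CO γ)) ^ 3) +
      12 * cst _ I * (ug (CO γ) ^ 2 * (zg (CO γ) ^ 2 * cj (zg (CO γ)) +
        zg (CO γ) * cj (zg (CO γ)) ^ 2))) := by
    rw [hq, Dzb_Dz_F]; ring
  have hC32 : Or 1 0 ((32 : AR (CO γ)) * cst _ I) := (Or_ofNat 32).mul' (Or_cst I) (by norm_num)
  have hC12 : Or 1 0 ((12 : AR (CO γ)) * cst _ I) := (Or_ofNat 12).mul' (Or_cst I) (by norm_num)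
  have hC8 : Or 1 0 ((8 : AR (CO γ)) * cst _ I) := (Or_ofNat 8).mul' (Or_cst I) (by norm_num)
  have h12 : Or 1 5 (12 * cst _ I * (ug (CO γ) ^ 2 * (zg (CO γ) ^ 2 * cj (zg (CO γ)) +
        zg (CO γ) * cj (zg (CO γ)) ^ 2))) :=
    hC12.mul' ((huO.pow 2).mul hz2b) (by norm_num)
  have h32 : Or 1 6 (32 * cst _ I * (zg (CO γ) ^ 3 * cj (zg (CO γ)) ^ 3)) :=
    hC32.mul' ((hzO.pow 3).mul (hbO.pow 3)) (by norm_num)
  have hdiff : Or 1 5 (elG (CO γ) - 8 * cst _ I * ug (CO γ) ^ 4) := by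
    rw [hell, add_sub_cancel_left]
    exact ((hE.mono (by omega)).add (h32.mono (by omega))).add h12
  have hellO : Or 1 4 (elG (CO γ)) := by
    have e : elG (CO γ) = (elG (CO γ) - 8 * cst _ I * ug (CO γ) ^ 4) + 8 * cst _ I * ug (CO γ) ^ 4 := by
      ring
    rw [e]
    exact (hdiff.mono (by omega)).add (hC8.mul' (huO.pow 4) (by norm_num))
  refine ⟨haO, hellO, ?_⟩
  -- inverses
  obtain ⟨ui, hui, huiO⟩ := exists_inv_CO (γ := γ) (φ := fun p => (p.2 : ℂ)) (h := An_u) hu hu1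
  have hui' : ug (CO γ) * ui = 1 := hui
  have huiOr : Or 1 (-1) ui := Or.inv hui' huO huiO
  obtain ⟨l0, hl0d⟩ : ∃ l0, l0 = 8 * cst (CO γ) I * ug (CO γ) ^ 4 := ⟨_, rfl⟩
  obtain ⟨l0i, hl0id⟩ : ∃ l0i, l0i = cst (CO γ) (-I/8) * ui ^ 4 := ⟨_, rfl⟩
  have hc8 : (8 : AR (CO γ)) * cst (CO γ) I * cst (CO γ) (-I/8) = 1 := by
    rw [nat_eq 8, cst_mul, cst_mul, ← cst_one]
    congr 1
    have := Complex.I_mul_I
    linear_combination -this
  have hl0 : l0 * l0i = 1 := by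
    rw [hl0d, hl0id]
    have e1 : (ug (CO γ) * ui) ^ 4 = 1 := by rw [hui', one_pow]
    linear_combination ((ug (CO γ) * ui) ^ 4) * hc8 + e1
  have hl0iO : Or 1 (-4) l0i := by
    rw [hl0id]
    exact (Or_cst _).mul' (huiOr.pow 4) (by norm_num)
  rw [← hl0d] at hdiff hell
  obtain ⟨p, hp⟩ : ∃ p, p = (elG (CO γ) - l0) * l0i := ⟨_, rfl⟩
  have hpO : Or 1 1 p := by rw [hp]; exact hdiff.mul' hl0iO (by omega)
  have hl : elG (CO γ) = l0 * (1 + p) := by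
    rw [hp]; linear_combination (-(elG (CO γ) - l0)) * hl0
  obtain ⟨h, hh, hhO⟩ := unit_one_add hpO.o0
  have hhOr : Or 1 0 h := by
    have := Or.inv (m := 1) (n := 0) hh (Or_one.add (hpO.mono (by omega))) (by simpa using hhO)
    simpa using this
  have hne : ∀ᶠ p in (CO γ).f, elF (aF Fex) p ≠ 0 := by
    apply ell_ne (g := l0i * h)
    rw [hl]; linear_combination ((1 + p) * h) * hl0 + hh
  refine ⟨hne, ?_⟩
  obtain ⟨σ, hσd⟩ : ∃ σ, σ = mk (sgF (aF Fex)) (anSg (An_a (F := CO γ)) hne) := ⟨_, rfl⟩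
  have hσ : σ * elG (CO γ) = LL (aG _) (elG _) - Du (aG _) * elG _ := by
    rw [hσd]; exact sgF_mk An_a hne
  have hk : mk (kF (aF Fex)) (anK An_a hne) = LLb (aG (CO γ)) σ := by
    rw [hσd]; exact (kF_mk An_a hne).symm
  have hQ : 6 * elG (CO γ) * mk (QF (aF Fex)) (anQ An_a hne) =
      LL (aG (CO γ)) (mk (kF (aF Fex)) (anK An_a hne)) - σ * mk (kF (aF Fex)) (anK An_a hne) -
      2 * elG (CO γ) * Du σ := by
    rw [hσd]; exact Q_rel An_a hne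
  have t1 : Dzb (0 : AR (CO γ)) = 0 := map_zero _
  have t2 : Du (0 : AR (CO γ)) = 0 := map_zero _
  have t4 : Or 1 4 (4 * ui * aG (CO γ)) := (huiOr.cmul 4).mul' haO (by norm_num)
  have hL : LL (aG _) l0 = (0 + 4 * ui * aG (CO γ)) * l0 := by
    rw [LL_apply, hl0d]
    simp only [lbz, der_pow, Dz_u, Du_u, der_8, Dz_cst, Du_cst]
    push_cast
    linear_combination (-32 * cst (CO γ) I * ug (CO γ) ^ 3 * aG (CO γ)) * hui'
  have hb := steps_bound (P := 1) (e := 4) haO hDua hl hl0 hh hL hσ hk hQ t1 t2 (Or_zero _)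
    (t4.mono (by omega)) hpO hhOr hl0iO (by omega) (by omega) (by omega) (by omega)
  refine ⟨hb.2.1.mono (by omega), ui, hui', ?_⟩
  obtain ⟨P0, hP0⟩ : ∃ P0, P0 = cst (CO γ) (3/2) * (ui ^ 2 * (zg (CO γ) ^ 2 * cj (zg (CO γ)) +
        zg (CO γ) * cj (zg (CO γ)) ^ 2)) := ⟨_, rfl⟩
  have hP0O : Or 1 1 P0 := by
    rw [hP0]
    exact (Or_cst _).mul' ((huiOr.pow 2).mul hz2b) (by norm_num)
  have hr : Or 1 (1 + 1) (p - P0) := by
    have e : p - P0 = (q + 32 * cst _ I * (zg (CO γ) ^ 3 * cj (zg (CO γ)) ^ 3)) * l0i := by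
      have hc12 : (12 : AR (CO γ)) * cst (CO γ) I * cst (CO γ) (-I/8) = cst (CO γ) (3/2) := by
        rw [nat_eq 12, cst_mul, cst_mul]
        congr 1
        have := Complex.I_mul_I
        linear_combination (-12/8) * this
      rw [hp, hell, hP0, ← hc12, hl0id]
      have e1 : (ug (CO γ) * ui) ^ 2 = 1 := by rw [hui', one_pow]
      linear_combination (12 * cst (CO γ) I * cst (CO γ) (-I/8) * ui ^ 2 *
        (zg (CO γ) ^ 2 * cj (zg (CO γ)) + zg (CO γ) * cj (zg (CO γ)) ^ 2)) * e1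
    rw [e]
    exact ((hE.mono (by omega)).add h32).mul' hl0iO (by omega)
  have hlead := steps_lead (P := 1) (e := 4) haO hDua hl hl0 hh hL hσ hk hQ t1 t2 (Or_zero _)
    (t4.mono (by omega)) hpO hP0O hr hhOr hl0iO (by omega) (by omega) (by omega) (by omega)
  have ecomp : (Dz (Dzb (Dz P0)) - 0 * Dzb (Dz P0)) * l0i = cst _ (-(3/8) * I) * ui ^ 6 := by
    have dui : ∀ d : Derivation ℤ (AR (CO γ)) (AR (CO γ)), d ui = - (ui ^ 2 * d (ug _)) :=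
      fun d => der_inv d hui'
    have f1 : Dz ui = 0 := by rw [dui, Dz_u]; ring
    have f2 : Dzb ui = 0 := by rw [dui, Dzb_u]; ring
    have hcc : cst (CO γ) (-(3/8) * I) = 2 * cst (CO γ) (3/2) * cst (CO γ) (-I/8) := by
      rw [nat_eq 2, cst_mul, cst_mul]
      congr 1
      ring
    rw [hcc, hP0, hl0id]
    simp only [map_add, map_neg, map_zero, lbz, der_pow, f1, f2, Dz_z, Dz_b, Dzb_z, Dzb_b, Dz_cst,
      Dzb_cst, Derivation.map_natCast, Derivation.map_one_eq_zero]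
    push_cast
    ring
  rw [ecomp] at hlead
  exact hlead.mono (by omega)

end Pool.Agent.H213
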