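import Pool.Agent.H213.Ex3

/-! The chain equation fails along every smooth curve through the origin. -/

open Filter Topology Asymptotics

namespace Pool.Agent.H213

open Complex (I)

theorem Ld.unique {n : ℤ} {c d : ℂ} {f : ℝ → ℂ} (h : Ld n c f) (h' : Ld n d f) : c = d := by
  by_contra hne
  have h1 := h.sub h'
  have h2 := h1.ne (sub_ne_zero.2 hne)
  obtain ⟨t, ht⟩ := h2.exists
  simp at ht

theorem Ld.ld0 {n : ℤ} {f : ℝ → ℂ} (h : Ld n 0 f) : BO (n + 1) f := by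
  unfold Ld at h
  simpa using h

theorem analytic_factor {f : ℝ → ℂ} (hf : AnalyticAt ℝ f 0) (n : ℕ) : BO n f →
    ∃ g : ℝ → ℂ, AnalyticAt ℝ g 0 ∧ ∀ᶠ t in 𝓝 (0:ℝ), f t = (t:ℂ) ^ n * g t := by
  induction n with
  | zero => intro _; exact ⟨f, hf, by filter_upwards with t; simp⟩
  | succ n ih =>
    intro h
    obtain ⟨g, hg, hfg⟩ := ih (h.mono (by push_cast; omega))
    have h1 : Ld n (g 0) f := by
      have h2 := (Ld_pow n).mul (Ld_of_analytic hg)
      have h3 := h2.congr ((hfg.filter_mono nhdsWithin_le_nhds).mono fun t ht => ht.symm)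
      simpa using h3
    have h2 : Ld n 0 f := BO.ld (by push_cast at h; exact h)
    have h3 : g 0 = 0 := h1.unique h2
    have h4 : (1 : ℕ∞) ≤ analyticOrderAt g 0 := by
      rw [Order.one_le_iff_ne_zero, Ne, hg.analyticOrderAt_eq_zero]
      simpa using h3
    have h5 := (natCast_le_analyticOrderAt hg (n := 1)).1 (by exact_mod_cast h4)
    obtain ⟨g', hg', he⟩ := h5
    refine ⟨g', hg', ?_⟩
    filter_upwards [hfg, he] with t h6 h7
    rw [h6, h7, pow_succ]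
    simp
    ring

theorem Ld_deriv {f : ℝ → ℂ} (hf : AnalyticAt ℝ f 0) (n : ℕ) {c : ℂ} (h : Ld (n + 1 : ℕ) c f) :
    Ld n ((n + 1 : ℕ) * c) (deriv f) := by
  obtain ⟨g, hg, hfg⟩ := analytic_factor hf (n + 1) h.bo
  have hc : g 0 = c := by
    have h2 := (Ld_pow (n+1)).mul (Ld_of_analytic hg)
    have h3 := h2.congr ((hfg.filter_mono nhdsWithin_le_nhds).mono fun t ht => ht.symm)
    have h4 : Ld (n + 1 : ℕ) (g 0) f := by simpa using h3
    exact h4.unique h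
  have hd : ∀ᶠ t in 𝓝 (0:ℝ), deriv f t = (n + 1 : ℕ) * (t:ℂ) ^ n * g t + (t:ℂ) ^ (n+1) * deriv g t := by
    have h1 : ∀ᶠ t in 𝓝 (0:ℝ), f =ᶠ[𝓝 t] fun t => (t:ℂ) ^ (n+1) * g t :=
      eventually_eventually_nhds.2 hfg
    filter_upwards [h1, hg.eventually_analyticAt] with t h2 h3
    have h4 : HasDerivAt (fun t : ℝ => (t:ℂ) ^ (n+1)) ((n + 1 : ℕ) * (t:ℂ) ^ n) t := by
      have h5 : HasDerivAt (fun t : ℝ => (t:ℂ)) 1 t := Complex.ofRealCLM.hasDerivAt
      have := h5.fun_pow (n+1)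
      simpa using this
    have h6 := h4.mul h3.differentiableAt.hasDerivAt
    exact (h6.congr_of_eventuallyEq h2).deriv
  have h1 : Ld n ((n + 1 : ℕ) * c) (fun t => (n + 1 : ℕ) * (t:ℂ) ^ n * g t +
      (t:ℂ) ^ (n+1) * deriv g t) := by
    have h2 := ((Ld.const ((n + 1 : ℕ) : ℂ)).mul (Ld_pow n)).mul (Ld_of_analytic hg)
    have h3 : BO (n + 1) (fun t => (t:ℂ) ^ (n+1) * deriv g t) := by
      have h4 := (Ld_pow (n+1)).bo.mul (Ld_of_analytic hg.deriv).bo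
      exact h4.mono (by push_cast; omega)
    have h5 := h2.add (n := 0 + n + 0) (h3.mono (by omega : (0:ℤ) + n + 0 + 1 ≤ n + 1)).ld
    rw [hc] at h5
    simpa using h5
  exact h1.congr ((hd.filter_mono nhdsWithin_le_nhds).mono fun t ht => ht.symm)

theorem BO.ldn {n k : ℤ} {f : ℝ → ℂ} (h : BO k f) (hk : n + 1 ≤ k) : Ld n 0 f := (h.mono hk).ld

theorem L0_of {γ : ℝ → V} {n k : ℤ} {f : AR (CO γ)} (h : O0 k f) (hk : n + 1 ≤ k) : L0 n 0 f :=
  L0_of_O0 (h.mono hk)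

/-- The difference of the two sides of the chain equation. -/
noncomputable def Dif (a : V → ℂ) (γ : ℝ → V) (t : ℝ) : ℂ :=
  elF a (γ t) * (starRingEnd ℂ (zd γ t) * deriv (kap a γ) t -
      kap a γ t * starRingEnd ℂ (deriv (zd γ) t)) -
    kap a γ t * starRingEnd ℂ (zd γ t) ^ 2 * Lbo a (elF a) (γ t) -
    kap a γ t ^ 2 * starRingEnd ℂ (zd γ t) * du (elF a) (γ t) -
    elF a (γ t) ^ 2 * zd γ t * starRingEnd ℂ (zd γ t) ^ 2 -
    elF a (γ t) * du a (γ t) * (zd γ t * starRingEnd ℂ (zd γ t)) * kap a γ t +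
    (1/2) * kF a (γ t) * starRingEnd ℂ (zd γ t) * kap a γ t ^ 2 -
    kap a γ t ^ 3 * QF a (γ t)

theorem Dif_ne {a : V → ℂ} {γ : ℝ → V} {n : ℤ} {c : ℂ} (h : Ld n c (Dif a γ)) (hc : c ≠ 0) :
    ∀ᶠ t in 𝓝[≠] (0:ℝ), ¬ ChainEq a γ t := by
  filter_upwards [h.ne hc] with t ht hC
  apply ht
  unfold Dif
  rw [ChainEq] at hC
  linear_combination hC

theorem Ld.pow {n : ℤ} {c : ℂ} {f : ℝ → ℂ} (h : Ld n c f) (k : ℕ) :
    Ld (k * n) (c ^ k) (fun t => f t ^ k) := by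
  induction k with
  | zero => simpa using Ld.const 1
  | succ k ih =>
    have := ih.mul h
    simp only [pow_succ]
    convert this using 1
    push_cast; ring

theorem Ld.cast {n n' : ℤ} {c c' : ℂ} {f : ℝ → ℂ} (h : Ld n c f) (hn : n = n') (hc : c = c') :
    Ld n' c' f := by subst hn; subst hc; exact h

theorem BO.pow {n : ℤ} {f : ℝ → ℂ} (h : BO n f) (k : ℕ) : BO (k * n) (fun t => f t ^ k) := by
  induction k with
  | zero => simpa using BO.const 1
  | succ k ih =>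
    have := ih.mul h
    simp only [pow_succ]
    convert this using 1
    push_cast; ring

section final

variable {γ : ℝ → V}

theorem an_kap0 (hγ : AnalyticAt ℝ γ 0) : AnalyticAt ℝ (kap (aF Fex) γ) 0 := by
  have : AnalyticAt ℝ (aF Fex) (γ 0) :=
    (An_a (F := nhdsO (γ 0))).self_of_nhds
  exact an_kap hγ this

theorem bo_bz (hγ : AnalyticAt ℝ γ 0) : BO 0 (fun t => starRingEnd ℂ (deriv (zd γ) t)) :=
  (Ld_of_analytic (an_zd hγ).deriv).bo.conj

theorem an_z (hγ : AnalyticAt ℝ γ 0) : AnalyticAt ℝ (fun t => (γ t).1) 0 :=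
  ((ContinuousLinearMap.fst ℝ ℂ ℝ).analyticAt (γ 0)).comp hγ

theorem an_u (hγ : AnalyticAt ℝ γ 0) : AnalyticAt ℝ (fun t => ((γ t).2 : ℂ)) 0 :=
  analytic_ofReal (((ContinuousLinearMap.snd ℝ ℂ ℝ).analyticAt (γ 0)).comp hγ)

/-- `ud` as a complex derivative. -/
theorem ud_eq (hγ : AnalyticAt ℝ γ 0) :
    (deriv (fun t => ((γ t).2 : ℂ))) =ᶠ[𝓝 0] fun t => (ud γ t : ℂ) := by
  filter_upwards [hγ.eventually_analyticAt] with t ht
  have h : AnalyticAt ℝ (fun t => (γ t).2) t :=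
    ((ContinuousLinearMap.snd ℝ ℂ ℝ).analyticAt (γ t)).comp ht
  exact (Complex.ofRealCLM.hasFDerivAt.comp_hasDerivAt t h.differentiableAt.hasDerivAt).deriv

theorem noChain_A (hγ : AnalyticAt ℝ γ 0) (h0 : γ 0 = 0) {u1 : ℂ} (hu1 : u1 ≠ 0)
    (hu : Ld 1 u1 (fun t => ((γ t).2 : ℂ))) :
    ∀ᶠ t in 𝓝[≠] (0:ℝ), ¬ ChainEq (aF Fex) γ t := by
  have hz : BO 1 (fun t => (γ t).1) := by
    have h1 := Ld_of_analytic (an_z hγ)
    simp only [h0] at h1
    exact h1.ld0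
  obtain ⟨haO, hlO, hne, hkO, ui, hui, hQ⟩ := caseA hu1 hz hu
  have hk : BO (-1) (fun t => kF (aF Fex) (γ t)) := O0_mk.1 hkO.o0
  have hl : BO 4 (fun t => elF (aF Fex) (γ t)) := O0_mk.1 hlO.o0
  have hLb : BO 3 (fun t => Lbo (aF Fex) (elF (aF Fex)) (γ t)) := by
    have h1 : O0 3 (LLb (aG (CO γ)) (elG (CO γ))) := (Or.LLb haO hlO (by omega) (by omega)).o0
    unfold aG elG at h1
    rw [LLb_mk] at h1
    exact O0_mk.1 h1
  have hTl : BO 3 (fun t => du (elF (aF Fex)) (γ t)) := by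
    have h1 : O0 3 (Du (elG (CO γ))) := (hlO.du.mono (by omega)).o0
    unfold elG at h1
    rw [Du_mk] at h1
    exact O0_mk.1 h1
  have hau : BO 4 (fun t => du (aF Fex) (γ t)) := by
    have h1 : O0 4 (Du (aG (CO γ))) := (haO.du.mono (by omega)).o0
    unfold aG at h1
    rw [Du_mk] at h1
    exact O0_mk.1 h1
  have ha : BO 5 (fun t => aF Fex (γ t)) := O0_mk.1 haO.o0
  have hQl : Ld (-6) ((1/6) * (-(3/8) * I * u1⁻¹ ^ 6)) (fun t => QF (aF Fex) (γ t)) := by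
    have h1 : L0 1 u1 (ug (CO γ)) := L0_mk.2 hu
    have h2 := ((L0_cst (γ := γ) (-(3/8) * I)).mul ((h1.inv hu1 hui).pow 6))
    have h3 := (L0_of (n := -6) hQ.o0 (by norm_num)).add (h2.cast (n' := -6) (by norm_num) rfl)
    have h4 := ((L0_cst (γ := γ) (1/6)).mul h3)
    have h5 : cst (CO γ) (1/6) * (6 * mk (QF (aF Fex)) (anQ An_a hne) -
        cst (CO γ) (-(3/8) * I) * ui ^ 6 + cst (CO γ) (-(3/8) * I) * ui ^ 6) =
        mk (QF (aF Fex)) (anQ An_a hne) := by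
      linear_combination (mk (QF (aF Fex)) (anQ An_a hne)) * six_inv (γ := γ)
    rw [h5] at h4
    have h6 := L0_mk.1 h4
    exact h6.cast (by norm_num) (by ring)
  have hzd : BO 0 (zd γ) := (Ld_of_analytic (an_zd hγ)).bo
  have hud : Ld 0 u1 (fun t => (ud γ t : ℂ)) := by
    have h1 := Ld_deriv (an_u hγ) 0 (c := u1) (by simpa using hu)
    have h2 := h1.congr ((ud_eq hγ).filter_mono nhdsWithin_le_nhds)
    exact h2.cast (by norm_num) (by norm_num)
  have haz : BO 5 (fun t => aF Fex (γ t) * zd γ t) := (ha.mul hzd).mono (by omega)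
  have hkap : Ld 0 u1 (kap (aF Fex) γ) := by
    have h1 := (hud.sub (haz.mono (by omega : (0:ℤ) + 1 ≤ 5)).ld).sub
      (haz.conj.mono (by omega : (0:ℤ) + 1 ≤ 5)).ld
    exact h1.cast rfl (by ring)
  have hkd : BO 0 (deriv (kap (aF Fex) γ)) := (Ld_of_analytic (an_kap0 hγ).deriv).bo
  have hzz := bo_bz hγ
  have hb := hzd.conj
  have hK := hkap.bo
  -- assemble
  have T1 : BO (-5) (fun t => elF (aF Fex) (γ t) * (starRingEnd ℂ (zd γ t) *
      deriv (kap (aF Fex) γ) t - kap (aF Fex) γ t * starRingEnd ℂ (deriv (zd γ) t))) :=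
    (hl.mul ((hb.mul hkd).sub (hK.mul hzz))).mono (by norm_num)
  have T2 : BO (-5) (fun t => kap (aF Fex) γ t * starRingEnd ℂ (zd γ t) ^ 2 *
      Lbo (aF Fex) (elF (aF Fex)) (γ t)) :=
    ((hK.mul (hb.pow 2)).mul hLb).mono (by norm_num)
  have T3 : BO (-5) (fun t => kap (aF Fex) γ t ^ 2 * starRingEnd ℂ (zd γ t) *
      du (elF (aF Fex)) (γ t)) :=
    (((hK.pow 2).mul hb).mul hTl).mono (by norm_num)
  have T4 : BO (-5) (fun t => elF (aF Fex) (γ t) ^ 2 * zd γ t * starRingEnd ℂ (zd γ t) ^ 2) :=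
    (((hl.pow 2).mul hzd).mul (hb.pow 2)).mono (by norm_num)
  have T5 : BO (-5) (fun t => elF (aF Fex) (γ t) * du (aF Fex) (γ t) *
      (zd γ t * starRingEnd ℂ (zd γ t)) * kap (aF Fex) γ t) :=
    (((hl.mul hau).mul (hzd.mul hb)).mul hK).mono (by norm_num)
  have T6 : BO (-5) (fun t => (1/2) * kF (aF Fex) (γ t) * starRingEnd ℂ (zd γ t) *
      kap (aF Fex) γ t ^ 2) :=
    ((((BO.const (1/2)).mul hk).mul hb).mul (hK.pow 2)).mono (by norm_num)
  have T7 := ((hkap.pow 3).mul hQl)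
  have h5 : (-6 : ℤ) + 1 ≤ -5 := by norm_num
  have hall := ((((((T1.ldn h5).sub (T2.ldn h5)).sub (T3.ldn h5)).sub
    (T4.ldn h5)).sub (T5.ldn h5)).add (T6.ldn h5)).sub
    (T7.cast (n' := -6) (by norm_num) rfl)
  refine Dif_ne (n := -6) (c := _) hall ?_
  simp [hu1]

theorem noChain_B (hγ : AnalyticAt ℝ γ 0) {z1 : ℂ} (hz1 : z1 ≠ 0)
    (hz : Ld 1 z1 (fun t => (γ t).1)) {j : ℕ} (hj : j ≤ 6) {c : ℝ} (hc : j ≤ 5 → c ≠ 0)
    (hu : Ld (j + 2 : ℕ) (c : ℂ) (fun t => ((γ t).2 : ℂ))) :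
    ∀ᶠ t in 𝓝[≠] (0:ℝ), ¬ ChainEq (aF Fex) γ t := by
  obtain ⟨m, hm⟩ : ∃ m : ℤ, m = (j + 2 : ℕ) := ⟨_, rfl⟩
  have hm' : m = (j : ℤ) + 2 := by rw [hm]; push_cast; ring
  have hz1b : starRingEnd ℂ z1 ≠ 0 := (map_ne_zero _).2 hz1
  rw [← hm] at hu
  obtain ⟨hDua, ha8, hdiff, hne, hkO, hQO, hlead⟩ :=
    caseB (m := m) (by omega) (by omega) hz1 hz hu.bo
  have hzO : Or m 1 (zg (CO γ)) := Or_z (O0_mk.2 hz.bo)
  have hzL : L0 1 z1 (zg (CO γ)) := L0_mk.2 hz
  have huL : L0 m (c:ℂ) (ug (CO γ)) := L0_mk.2 hu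
  have hbL := hzL.conj
  -- orders of the invariants
  have hk : BO (2 * m - 5) (fun t => kF (aF Fex) (γ t)) := O0_mk.1 hkO.o0
  have hQ : BO (2 * m - 12) (fun t => QF (aF Fex) (γ t)) := O0_mk.1 hQO.o0
  have h32 : L0 6 (32 * I * (z1 ^ 3 * starRingEnd ℂ z1 ^ 3))
      (32 * cst _ I * (zg (CO γ) ^ 3 * cj (zg (CO γ)) ^ 3)) :=
    (((L0_nat 32).mul (L0_cst I)).mul ((hzL.pow 3).mul (hbL.pow 3))).cast (by norm_num) rfl
  have hlL : Ld 6 (32 * I * (z1 ^ 3 * starRingEnd ℂ z1 ^ 3)) (fun t => elF (aF Fex) (γ t)) := by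
    have h1 := (L0_of (n := 6) hdiff.o0 (by omega)).add h32
    rw [sub_add_cancel] at h1
    exact (L0_mk.1 h1).cast rfl (by ring)
  have haO : Or m 7 (aG (CO γ)) := by
    have e : aG (CO γ) = (aG (CO γ) - 4 * cst _ I * (zg (CO γ) ^ 3 * cj (zg (CO γ)) ^ 4)) +
      4 * cst _ I * (zg (CO γ) ^ 3 * cj (zg (CO γ)) ^ 4) := by ring
    rw [e]
    exact (ha8.mono (by omega)).add (((Or_ofNat 4).mul (Or_cst I)).mul'
      ((hzO.pow 3).mul (hzO.conj.pow 4)) (by norm_num))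
  have haL : Ld 7 (4 * I * (z1 ^ 3 * starRingEnd ℂ z1 ^ 4)) (fun t => aF Fex (γ t)) := by
    have h1 := (L0_of (n := 7) ha8.o0 (by norm_num)).add
      ((((L0_nat 4).mul (L0_cst I)).mul ((hzL.pow 3).mul (hbL.pow 4))).cast (n' := 7)
        (by norm_num) rfl)
    rw [sub_add_cancel] at h1
    exact (L0_mk.1 h1).cast rfl (by norm_num)
  have hLb : Ld 5 (96 * I * (z1 ^ 3 * starRingEnd ℂ z1 ^ 2))
      (fun t => Lbo (aF Fex) (elF (aF Fex)) (γ t)) := by
    have h1 : O0 6 (LLb (aG (CO γ)) (elG (CO γ) -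
        32 * cst _ I * (zg (CO γ) ^ 3 * cj (zg (CO γ)) ^ 3))) :=
      (Or.LLb haO hdiff (by omega) (by omega)).o0
    have h2 : LLb (aG (CO γ)) (32 * cst _ I * (zg (CO γ) ^ 3 * cj (zg (CO γ)) ^ 3)) =
        96 * cst _ I * (zg (CO γ) ^ 3 * cj (zg (CO γ)) ^ 2) := by
      rw [LLb_apply]
      simp only [lbz, der_pow, Dzb_z, Dzb_b, Du_z, Du_b, der_32, Dzb_cst, Du_cst]
      push_cast
      ring
    rw [map_sub, h2] at h1
    have h3 := (L0_of (n := 5) h1 (by norm_num)).add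
      ((((L0_nat 96).mul (L0_cst I)).mul ((hzL.pow 3).mul (hbL.pow 2))).cast (n' := 5)
        (by norm_num) rfl)
    rw [sub_add_cancel] at h3
    unfold aG elG at h3
    rw [LLb_mk] at h3
    exact (L0_mk.1 h3).cast rfl (by norm_num)
  have hTl : BO (m + 3) (fun t => du (elF (aF Fex)) (γ t)) := by
    have h1 : O0 (m + 3) (Du (elG (CO γ) -
        32 * cst _ I * (zg (CO γ) ^ 3 * cj (zg (CO γ)) ^ 3))) :=
      (hdiff.du.mono (by omega)).o0
    have h2 : Du (32 * cst _ I * (zg (CO γ) ^ 3 * cj (zg (CO γ)) ^ 3)) = 0 := by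
      simp only [lbz, der_pow, Du_z, Du_b, der_32, Du_cst]
      ring
    rw [map_sub, h2, sub_zero] at h1
    unfold elG at h1
    rw [Du_mk] at h1
    exact O0_mk.1 h1
  have hau : BO (m + 4) (fun t => du (aF Fex) (γ t)) := by
    have h1 := hDua.o0
    unfold aG at h1
    rw [Du_mk] at h1
    exact O0_mk.1 h1
  -- velocities
  have hzd : Ld 0 z1 (zd γ) := by
    have h1 := Ld_deriv (an_z hγ) 0 (c := z1) (by simpa using hz)
    exact h1.cast (by norm_num) (by norm_num)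
  have hb := hzd.conj
  obtain ⟨K0, hK0⟩ : ∃ K0 : ℂ, K0 = (j + 2 : ℕ) * c := ⟨_, rfl⟩
  have hud : Ld (m - 1) K0 (fun t => (ud γ t : ℂ)) := by
    have h1 := Ld_deriv (an_u hγ) (j + 1) (c := (c:ℂ)) (hu.cast (by rw [hm]) rfl)
    have h2 := h1.congr ((ud_eq hγ).filter_mono nhdsWithin_le_nhds)
    exact h2.cast (by push_cast; omega) (by rw [hK0])
  have haz : BO 8 (fun t => aF Fex (γ t) * zd γ t + starRingEnd ℂ (aF Fex (γ t) * zd γ t)) := by
    have h1 := haL.mul hzd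
    have h2 := h1.add h1.conj
    have h3 : 4 * I * (z1 ^ 3 * starRingEnd ℂ z1 ^ 4) * z1 +
        starRingEnd ℂ (4 * I * (z1 ^ 3 * starRingEnd ℂ z1 ^ 4) * z1) = 0 := by
      simp only [map_mul, map_pow, Complex.conj_I, Complex.conj_conj, map_ofNat]
      ring
    rw [h3] at h2
    exact h2.ld0.mono (by norm_num)
  have hkap : Ld (m - 1) K0 (kap (aF Fex) γ) := by
    have h1 := hud.sub (haz.ldn (n := m - 1) (by omega))
    rw [sub_zero] at h1
    refine h1.congr (Eventually.of_forall fun t => ?_)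
    unfold kap
    ring
  have hkd : Ld (m - 2) (((j + 1 : ℕ) : ℂ) * K0) (deriv (kap (aF Fex) γ)) := by
    have h1 := Ld_deriv (an_kap0 hγ) j (c := K0) (hkap.cast (by push_cast; omega) rfl)
    exact h1.cast (by omega) rfl
  have hzz := bo_bz hγ
  -- terms
  have T1 : Ld (m + 4) (32 * I * (z1 ^ 3 * starRingEnd ℂ z1 ^ 3) *
      (starRingEnd ℂ z1 * (((j + 1 : ℕ) : ℂ) * K0))) (fun t => elF (aF Fex) (γ t) *
      (starRingEnd ℂ (zd γ t) * deriv (kap (aF Fex) γ) t -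
        kap (aF Fex) γ t * starRingEnd ℂ (deriv (zd γ) t))) := by
    have h1 := (hb.mul hkd).sub ((hkap.bo.mul hzz).ldn (n := 0 + (m - 2)) (by omega))
    exact (hlL.mul h1).cast (by ring) (by ring)
  have T2 : Ld (m + 4) (K0 * starRingEnd ℂ z1 ^ 2 * (96 * I * (z1 ^ 3 * starRingEnd ℂ z1 ^ 2)))
      (fun t => kap (aF Fex) γ t * starRingEnd ℂ (zd γ t) ^ 2 *
        Lbo (aF Fex) (elF (aF Fex)) (γ t)) :=
    ((hkap.mul (hb.pow 2)).mul hLb).cast (by push_cast; ring) rfl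
  have T3 : BO (3 * m + 1) (fun t => kap (aF Fex) γ t ^ 2 * starRingEnd ℂ (zd γ t) *
      du (elF (aF Fex)) (γ t)) :=
    (((hkap.bo.pow 2).mul hb.bo).mul hTl).mono (by push_cast; omega)
  have T4 : Ld 12 ((32 * I * (z1 ^ 3 * starRingEnd ℂ z1 ^ 3)) ^ 2 * z1 * starRingEnd ℂ z1 ^ 2)
      (fun t => elF (aF Fex) (γ t) ^ 2 * zd γ t * starRingEnd ℂ (zd γ t) ^ 2) :=
    (((hlL.pow 2).mul hzd).mul (hb.pow 2)).cast (by norm_num) rfl
  have T5 : BO (2 * m + 9) (fun t => elF (aF Fex) (γ t) * du (aF Fex) (γ t) *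
      (zd γ t * starRingEnd ℂ (zd γ t)) * kap (aF Fex) γ t) :=
    (((hlL.bo.mul hau).mul (hzd.bo.mul hb.bo)).mul hkap.bo).mono (by omega)
  have T6 : BO (4 * m - 7) (fun t => (1/2) * kF (aF Fex) (γ t) * starRingEnd ℂ (zd γ t) *
      kap (aF Fex) γ t ^ 2) :=
    ((((BO.const (1/2)).mul hk).mul hb.bo).mul (hkap.bo.pow 2)).mono (by push_cast; omega)
  have T7 : BO (5 * m - 15) (fun t => kap (aF Fex) γ t ^ 3 * QF (aF Fex) (γ t)) :=
    ((hkap.bo.pow 3).mul hQ).mono (by push_cast; omega)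
  rcases Nat.lt_or_ge j 3 with hj3 | hj3
  · -- the curvature term dominates
    obtain ⟨zi, hzi, hlead⟩ := hlead (by omega)
    have hziL := hzL.inv hz1 hzi
    have hbiL := hziL.conj
    have hQl : Ld (2 * m - 12) ((1/6) * (-(-(3/128) * I * ((c:ℂ) ^ 2 *
        (5 * (z1⁻¹) ^ 6 * (starRingEnd ℂ z1⁻¹) ^ 6 + 6 * (z1⁻¹) ^ 7 * (starRingEnd ℂ z1⁻¹) ^ 5)))))
        (fun t => QF (aF Fex) (γ t)) := by
      have h1 : L0 (2 * m - 12) (-(3/128) * I * ((c:ℂ) ^ 2 *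
        (5 * (z1⁻¹) ^ 6 * (starRingEnd ℂ z1⁻¹) ^ 6 + 6 * (z1⁻¹) ^ 7 * (starRingEnd ℂ z1⁻¹) ^ 5)))
        (cst (CO γ) (-(3/128) * I) * (ug (CO γ) ^ 2 *
          (5 * zi ^ 6 * cj zi ^ 6 + 6 * zi ^ 7 * cj zi ^ 5))) := by
        have h2 := ((((L0_nat 5).mul (hziL.pow 6)).mul (hbiL.pow 6)).cast (n' := -12)
          (by norm_num) rfl).add ((((L0_nat 6).mul (hziL.pow 7)).mul (hbiL.pow 5)).cast
          (n' := -12) (by norm_num) rfl)
        exact ((L0_cst (-(3/128) * I)).mul ((huL.pow 2).mul h2)).cast (by push_cast; ring) rfl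
      have hneg := (L0_cst (γ := γ) (-1)).mul h1
      have h3 := (L0_of (n := 2 * m - 12) hlead.o0 (by omega)).add (hneg.cast (by ring) rfl)
      have h4 := ((L0_cst (γ := γ) (1/6)).mul h3)
      have hm1 : cst (CO γ) (-1) = -1 := by
        rw [mk_one, mk_neg]; rfl
      have h5 : cst (CO γ) (1/6) * (6 * mk (QF (aF Fex)) (anQ An_a hne) +
          cst (CO γ) (-(3/128) * I) * (ug (CO γ) ^ 2 *
          (5 * zi ^ 6 * cj zi ^ 6 + 6 * zi ^ 7 * cj zi ^ 5)) + cst (CO γ) (-1) *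
          (cst (CO γ) (-(3/128) * I) * (ug (CO γ) ^ 2 *
          (5 * zi ^ 6 * cj zi ^ 6 + 6 * zi ^ 7 * cj zi ^ 5)))) =
          mk (QF (aF Fex)) (anQ An_a hne) := by
        rw [hm1]
        linear_combination (mk (QF (aF Fex)) (anQ An_a hne)) * six_inv (γ := γ)
      rw [h5] at h4
      exact (L0_mk.1 h4).cast (by ring) (by ring)
    have T7' := ((hkap.pow 3).mul hQl)
    have hall := ((((((T1.bo.ldn (n := 5 * m - 15) (by omega)).sub
      (T2.bo.ldn (n := 5 * m - 15) (by omega))).sub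
      (T3.ldn (n := 5 * m - 15) (by omega))).sub
      (T4.bo.ldn (n := 5 * m - 15) (by omega))).sub (T5.ldn (n := 5 * m - 15) (by omega))).add
      (T6.ldn (n := 5 * m - 15) (by omega))).sub (T7'.cast (n' := 5 * m - 15) (by push_cast; ring) rfl)
    refine Dif_ne (n := 5 * m - 15) (c := _) hall ?_
    have hc0 : (c:ℂ) ≠ 0 := by exact_mod_cast hc (by omega)
    have hK : K0 ≠ 0 := by
      rw [hK0]
      exact mul_ne_zero (by exact_mod_cast (by omega : j + 2 ≠ 0)) hc0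
    have h56 : 5 * z1 + 6 * starRingEnd ℂ z1 ≠ 0 := by
      intro h
      have h1 : 5 * z1 = -(6 * starRingEnd ℂ z1) := by linear_combination h
      have h2 := congrArg norm h1
      rw [norm_neg, norm_mul, norm_mul, Complex.norm_conj] at h2
      have h3 : 0 < ‖z1‖ := norm_pos_iff.2 hz1
      have n5 : ‖(5:ℂ)‖ = 5 := by norm_num
      have n6 : ‖(6:ℂ)‖ = 6 := by norm_num
      rw [n5, n6] at h2
      linarith
    have hfac : 5 * (z1⁻¹) ^ 6 * (starRingEnd ℂ z1⁻¹) ^ 6 + 6 * (z1⁻¹) ^ 7 *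
        (starRingEnd ℂ z1⁻¹) ^ 5 =
        (z1⁻¹) ^ 7 * (starRingEnd ℂ z1⁻¹) ^ 6 * (5 * z1 + 6 * starRingEnd ℂ z1) := by
      rw [map_inv₀]
      field_simp
    rw [hfac]
    have hne2 : K0 ^ 3 * ((1/6) * (-(-(3/128) * I * ((c:ℂ) ^ 2 * ((z1⁻¹) ^ 7 *
        (starRingEnd ℂ z1⁻¹) ^ 6 * (5 * z1 + 6 * starRingEnd ℂ z1)))))) ≠ 0 := by
      rw [map_inv₀]
      refine mul_ne_zero (pow_ne_zero _ hK) (mul_ne_zero (by norm_num) (neg_ne_zero.2
        (mul_ne_zero (mul_ne_zero (by norm_num) Complex.I_ne_zero) (mul_ne_zero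
        (pow_ne_zero _ hc0) (mul_ne_zero (mul_ne_zero (pow_ne_zero _ (inv_ne_zero hz1))
        (pow_ne_zero _ (inv_ne_zero hz1b))) h56)))))
    intro h
    apply hne2
    linear_combination -h
  · rcases Nat.lt_or_ge j 6 with hj6 | hj6
    · have hall := ((((((T1.sub T2).sub
        (T3.ldn (n := m + 4) (by omega))).sub
        (T4.bo.ldn (n := m + 4) (by omega))).sub (T5.ldn (n := m + 4) (by omega))).add
        (T6.ldn (n := m + 4) (by omega))).sub (T7.ldn (n := m + 4) (by omega)))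
      refine Dif_ne (n := m + 4) (c := _) hall ?_
      have hc0 : (c:ℂ) ≠ 0 := by exact_mod_cast hc (by omega)
      have hK : K0 ≠ 0 := by
        rw [hK0]
        exact mul_ne_zero (by exact_mod_cast (by omega : j + 2 ≠ 0)) hc0
      have hj2 : ((j:ℂ) - 2) ≠ 0 := by
        intro h
        have : (j:ℂ) = (2:ℕ) := by push_cast; linear_combination h
        have := Nat.cast_injective (R := ℂ) this
        omega
      have hne2 : 32 * I * (z1 ^ 3 * starRingEnd ℂ z1 ^ 4) * K0 * ((j:ℂ) - 2) ≠ 0 :=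
        mul_ne_zero (mul_ne_zero (mul_ne_zero (mul_ne_zero (by norm_num) Complex.I_ne_zero)
          (mul_ne_zero (pow_ne_zero _ hz1) (pow_ne_zero _ hz1b))) hK) hj2
      intro h
      apply hne2
      push_cast at h
      linear_combination h
    · have hall := ((((((T1.sub T2).sub
        (T3.ldn (n := m + 4) (by omega))).sub
        (T4.cast (n' := m + 4) (by omega) rfl)).sub (T5.ldn (n := m + 4) (by omega))).add
        (T6.ldn (n := m + 4) (by omega))).sub (T7.ldn (n := m + 4) (by omega)))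
      refine Dif_ne (n := m + 4) (c := _) hall ?_
      have hj : j = 6 := by omega
      subst hj
      have hnn : z1 * starRingEnd ℂ z1 = (Complex.normSq z1 : ℂ) := Complex.mul_conj z1
      have hre : (1024 * (Complex.normSq z1 : ℂ) ^ 4 + 1024 * I * c) ≠ 0 := by
        intro h
        have h1 := congrArg Complex.re h
        have h2 : (0:ℝ) < Complex.normSq z1 := Complex.normSq_pos.2 hz1
        have h3 : (1024 * (Complex.normSq z1 : ℂ) ^ 4 + 1024 * I * c).re =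
            1024 * Complex.normSq z1 ^ 4 := by
          have : (1024 * (Complex.normSq z1 : ℂ) ^ 4 + 1024 * I * c) =
            ((1024 * Complex.normSq z1 ^ 4 : ℝ) : ℂ) + ((1024 * c : ℝ) : ℂ) * I := by
            push_cast; ring
          rw [this, Complex.add_re, Complex.ofReal_re, Complex.re_ofReal_mul, Complex.I_re, mul_zero,
            add_zero]
        rw [h3] at h1
        have : (0:ℝ) < 1024 * Complex.normSq z1 ^ 4 := by positivity
        simp only [Complex.zero_re] at h1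
        linarith
      have hne2 : (z1 ^ 3 * starRingEnd ℂ z1 ^ 4) *
          (1024 * (Complex.normSq z1 : ℂ) ^ 4 + 1024 * I * c) ≠ 0 :=
        mul_ne_zero (mul_ne_zero (pow_ne_zero _ hz1) (pow_ne_zero _ hz1b)) hre
      intro h
      apply hne2
      rw [← hnn]
      rw [hK0] at h
      push_cast at h
      have hI := Complex.I_mul_I
      linear_combination h + (1024 * z1 ^ 7 * starRingEnd ℂ z1 ^ 8) * hI

end final

end Pool.Agent.H213
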