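import Pool.Agent.H638.GM.Stm

/-! # GM GP: general position of segments in dimension at least three -/

set_option autoImplicit false

open MeasureTheory Set Filter Topology
open scoped ENNReal NNReal

namespace Pool.Agent.H213.GMGP

open Pool.Agent.H638.GM

/-- an affine subspace of dimension `< d` is a proper one -/
theorem ne_top {d : ℕ} (S : AffineSubspace ℝ (V d)) (h : Module.finrank ℝ S.direction < d) :
    S ≠ ⊤ := by
  intro h1
  rw [h1, AffineSubspace.direction_top, finrank_top] at h
  simp at h

/-- a ball is not covered by finitely many proper affine subspaces -/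
theorem avoid {d : ℕ} {ι : Type} (T : Finset ι) (S : ι → AffineSubspace ℝ (V d))
    (hS : ∀ i ∈ T, S i ≠ ⊤) (a : V d) (δ : ℝ) (hδ : 0 < δ) :
    ∃ x, dist x a ≤ δ ∧ ∀ i ∈ T, x ∉ S i := by
  by_contra hcon
  push Not at hcon
  have h1 : Metric.ball a δ ⊆ ⋃ i ∈ T, (S i : Set (V d)) := by
    intro x hx
    obtain ⟨i, hi, hxi⟩ := hcon x (le_of_lt hx)
    exact mem_iUnion₂.2 ⟨i, hi, hxi⟩
  have h2 : volume (⋃ i ∈ T, (S i : Set (V d))) = 0 := by
    apply (measure_biUnion_null_iff (I := (T : Set ι)) T.countable_toSet).2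
    intro i hi
    exact Measure.addHaar_affineSubspace volume (S i) (hS i hi)
  have h3 : volume (Metric.ball a δ) = 0 := measure_mono_null h1 h2
  exact (Metric.measure_ball_pos volume a hδ).ne' h3

/-- the span of two points -/
theorem two {d : ℕ} (hd : 3 ≤ d) (x y : V d) : affineSpan ℝ ({x, y} : Set (V d)) ≠ ⊤ := by
  apply ne_top
  rw [direction_affineSpan]
  have h1 := finrank_vectorSpan_insert_le_set ℝ ({y} : Set (V d)) x
  rw [vectorSpan_singleton, finrank_bot] at h1
  omega

/-- the span of three points -/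
theorem three {d : ℕ} (hd : 3 ≤ d) (x y z : V d) :
    affineSpan ℝ ({x, y, z} : Set (V d)) ≠ ⊤ := by
  apply ne_top
  rw [direction_affineSpan]
  have h1 := finrank_vectorSpan_insert_le_set ℝ ({z} : Set (V d)) y
  rw [vectorSpan_singleton, finrank_bot] at h1
  have h2 := finrank_vectorSpan_insert_le_set ℝ ({y, z} : Set (V d)) x
  omega

/-- the geometric step -/
theorem geo {d : ℕ} (p q r s : V d) (h1 : p ∉ affineSpan ℝ ({r, s} : Set (V d)))
    (h2 : q ∉ affineSpan ℝ ({p, r, s} : Set (V d))) :
    Disjoint (segment ℝ p q) (segment ℝ r s) := by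
  rw [Set.disjoint_left]
  intro z hz hz'
  have e1 : z ∈ affineSpan ℝ ({r, s} : Set (V d)) := by
    obtain ⟨t, ht, rfl⟩ := (segment_eq_image_lineMap ℝ r s) ▸ hz'
    exact AffineMap.lineMap_mem_affineSpan_pair t r s
  obtain ⟨t, ht, hzt⟩ := (segment_eq_image_lineMap ℝ p q) ▸ hz
  have ht0 : t ≠ 0 := by
    intro h0
    rw [h0, AffineMap.lineMap_apply_zero] at hzt
    exact h1 (hzt ▸ e1)
  apply h2
  have e2 : z ∈ affineSpan ℝ ({p, r, s} : Set (V d)) :=
    affineSpan_mono ℝ (subset_insert _ _) e1
  have e3 : p ∈ affineSpan ℝ ({p, r, s} : Set (V d)) :=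
    subset_affineSpan ℝ _ (mem_insert _ _)
  have e4 : q = AffineMap.lineMap p z t⁻¹ := by
    rw [← hzt, AffineMap.lineMap_apply_module', AffineMap.lineMap_apply_module']
    rw [add_sub_cancel_right, smul_smul, inv_mul_cancel₀ ht0, one_smul]
    simp
  rw [e4]
  exact AffineMap.lineMap_mem _ e3 e2

/-- the induction -/
theorem ind {d : ℕ} (hd : 3 ≤ d) {J : Type} [DecidableEq J] (a b : J → V d) (δ : ℝ)
    (hδ : 0 < δ) (T : Finset J) : ∃ p q : J → V d, (∀ j, dist (p j) (a j) ≤ δ) ∧
    (∀ j, dist (q j) (b j) ≤ δ) ∧ ∀ i ∈ T, ∀ j ∈ T, i ≠ j →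
      Disjoint (segment ℝ (p i) (q i)) (segment ℝ (p j) (q j)) := by
  induction T using Finset.induction_on with
  | empty =>
    refine ⟨a, b, fun j => ?_, fun j => ?_, ?_⟩
    · rw [dist_self]; exact hδ.le
    · rw [dist_self]; exact hδ.le
    · intro i hi
      exact absurd hi (Finset.notMem_empty i)
  | insert j T hj ih =>
    obtain ⟨p, q, hp, hq, hpq⟩ := ih
    obtain ⟨x, hx, hx'⟩ := avoid T (fun i => affineSpan ℝ ({p i, q i} : Set (V d)))
      (fun i _ => two hd _ _) (a j) δ hδ
    obtain ⟨y, hy, hy'⟩ := avoid T (fun i => affineSpan ℝ ({x, p i, q i} : Set (V d)))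
      (fun i _ => three hd _ _ _) (b j) δ hδ
    have key : ∀ i ∈ T, Disjoint (segment ℝ x y) (segment ℝ (p i) (q i)) := fun i hi =>
      geo x y (p i) (q i) (hx' i hi) (hy' i hi)
    have hne : ∀ i ∈ T, i ≠ j := fun i hi h => hj (h ▸ hi)
    refine ⟨Function.update p j x, Function.update q j y, ?_, ?_, ?_⟩
    · intro i
      by_cases h : i = j
      · subst h
        rw [Function.update_self]
        exact hx
      · rw [Function.update_of_ne h]
        exact hp i
    · intro i
      by_cases h : i = j
      · subst h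
        rw [Function.update_self]
        exact hy
      · rw [Function.update_of_ne h]
        exact hq i
    · intro i hi k hk hik
      rcases Finset.mem_insert.1 hi with h1 | h1
      · rcases Finset.mem_insert.1 hk with h2 | h2
        · exact absurd (h1.trans h2.symm) hik
        · rw [h1, Function.update_self, Function.update_self,
            Function.update_of_ne (hne k h2), Function.update_of_ne (hne k h2)]
          exact key k h2
      · rcases Finset.mem_insert.1 hk with h2 | h2
        · rw [h2, Function.update_self, Function.update_self,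
            Function.update_of_ne (hne i h1), Function.update_of_ne (hne i h1)]
          exact (key i h1).symm
        · rw [Function.update_of_ne (hne i h1), Function.update_of_ne (hne i h1),
            Function.update_of_ne (hne k h2), Function.update_of_ne (hne k h2)]
          exact hpq i h1 k h2 hik

/-- **S_GP** -/
theorem main : S_GP := by
  intro d hd J _ a b δ hδ
  classical
  obtain ⟨p, q, h1, h2, h3⟩ := ind hd a b δ hδ Finset.univ
  exact ⟨p, q, h1, h2, fun i j hij => h3 i (Finset.mem_univ i) j (Finset.mem_univ j) hij⟩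

end Pool.Agent.H213.GMGP
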