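import Pool.Agent.H213.Main

/-! The Levi form of the example. -/

open Filter Topology Asymptotics

namespace Pool.Agent.H213

open Complex (I)

theorem rho_hasFDerivAt (y : ℂ × ℂ) : HasFDerivAt rho ((fderiv ℝ Fex (prj y)).comp prj -
    Complex.imCLM.comp (ContinuousLinearMap.snd ℝ ℂ ℂ)) y := by
  have h1 : HasFDerivAt (Fex ∘ prj) ((fderiv ℝ Fex (prj y)).comp prj) y :=
    (Fex_analytic (prj y)).differentiableAt.hasFDerivAt.comp y prj.hasFDerivAt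
  have h2 := h1.sub (Complex.imCLM.comp (ContinuousLinearMap.snd ℝ ℂ ℂ)).hasFDerivAt
  have h3 : rho = (Fex ∘ prj) - (Complex.imCLM.comp (ContinuousLinearMap.snd ℝ ℂ ℂ)) := by
    funext x
    rw [rho_eq]; rfl
  rw [h3]
  exact h2

theorem rho_fderiv (y w : ℂ × ℂ) : fderiv ℝ rho y w = fderiv ℝ Fex (prj y) (prj w) - w.2.im := by
  rw [(rho_hasFDerivAt y).fderiv]; rfl

theorem rho_analytic (x : ℂ × ℂ) : AnalyticAt ℝ rho x := by
  have h1 : AnalyticAt ℝ (fun x => Fex (prj x)) x := (Fex_analytic (prj x)).comp (prj.analyticAt x)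
  have h2 := h1.sub ((Complex.imCLM.comp (ContinuousLinearMap.snd ℝ ℂ ℂ)).analyticAt x)
  refine h2.congr (Eventually.of_forall fun y => ?_)
  exact (rho_eq y).symm

theorem rho_fderiv2 (x w : ℂ × ℂ) : fderiv ℝ (fderiv ℝ rho) x w w =
    fderiv ℝ (fun q => fderiv ℝ Fex q (prj w)) (prj x) (prj w) := by
  have hd : DifferentiableAt ℝ (fderiv ℝ rho) x := (rho_analytic x).fderiv.differentiableAt
  have h1 : fderiv ℝ (fderiv ℝ rho) x w w = fderiv ℝ (fun y => fderiv ℝ rho y w) x w := by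
    rw [fderiv_clm_apply hd (differentiableAt_const w)]
    simp
  rw [h1]
  have h2 : (fun y => fderiv ℝ rho y w) =
      fun y => ((fun q => fderiv ℝ Fex q (prj w)) ∘ prj) y - w.2.im := by
    funext y; rw [rho_fderiv]; rfl
  have h3 : AnalyticAt ℝ (fun q => fderiv ℝ Fex q (prj w)) (prj x) :=
    (ContinuousLinearMap.analyticAt (ContinuousLinearMap.apply ℝ ℝ (prj w)) _).comp
      (Fex_analytic (prj x)).fderiv
  have h4 := (h3.differentiableAt.hasFDerivAt.comp x prj.hasFDerivAt).sub_const w.2.im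
  rw [h2, h4.fderiv]
  rfl

theorem cplx_fderiv {f : V → ℝ} {p v : V} (h : DifferentiableAt ℝ f p) :
    ((fderiv ℝ f p v : ℝ) : ℂ) = fderiv ℝ (fun q => (f q : ℂ)) p v := by
  have := (Complex.ofRealCLM.hasFDerivAt (x := f p)).comp p h.hasFDerivAt
  have h3 : (Complex.ofRealCLM ∘ f) = (fun q => (f q : ℂ)) := rfl
  rw [h3] at this
  rw [this.fderiv]
  rfl

theorem D_eq {F : OFilter V} (v : V) (f : AR F) :
    D v f = cst F v.1 * Dz f + cst F (starRingEnd ℂ v.1) * Dzb f + cst F (v.2 : ℂ) * Du f := by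
  obtain ⟨φ, h, rfl⟩ := exists_mk f
  rw [D_mk, Dz_mk, Dzb_mk, Du_mk]
  simp only [cst, mk_mul, mk_add]
  rw [mk_eq]
  filter_upwards with p
  exact fderiv_formula φ p v.1 v.2

theorem ev_D (p v : V) : ((fderiv ℝ Fex p v : ℝ) : ℂ) = ev p (D v (Fg (nhdsO p))) := by
  rw [cplx_fderiv (Fex_analytic p).differentiableAt]
  unfold Fg
  rw [D_mk, ev_mk]

theorem ev_DD (p v : V) : ((fderiv ℝ (fun q => fderiv ℝ Fex q v) p v : ℝ) : ℂ) =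
    ev p (D v (D v (Fg (nhdsO p)))) := by
  have h3 : AnalyticAt ℝ (fun q => fderiv ℝ Fex q v) p :=
    (ContinuousLinearMap.analyticAt (ContinuousLinearMap.apply ℝ ℝ v) _).comp
      (Fex_analytic p).fderiv
  rw [cplx_fderiv h3.differentiableAt]
  unfold Fg
  rw [D_mk, D_mk, ev_mk]
  congr 2
  funext q
  exact cplx_fderiv (Fex_analytic q).differentiableAt

theorem D_sq {F : OFilter V} (v : V) (f : AR F) :
    D v (D v f) = cst F v.1 ^ 2 * Dz (Dz f) + cst F (starRingEnd ℂ v.1) ^ 2 * Dzb (Dzb f) +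
      cst F (v.2 : ℂ) ^ 2 * Du (Du f) + 2 * (cst F v.1 * cst F (starRingEnd ℂ v.1)) * Dzb (Dz f) +
      2 * (cst F v.1 * cst F (v.2 : ℂ)) * Dz (Du f) +
      2 * (cst F (starRingEnd ℂ v.1) * cst F (v.2 : ℂ)) * Dzb (Du f) := by
  rw [D_eq v (D v f), D_eq v f]
  simp only [map_add, lbz, Dz_cst, Dzb_cst, Du_cst, Du_Dz, Du_Dzb, Dzb_Dz]
  ring

theorem ev_sq (p v : V) : ev p (D v (D v (Fg (nhdsO p)))) =
    v.1 ^ 2 * ev p (Dz (Dz (Fg _))) + starRingEnd ℂ v.1 ^ 2 * ev p (Dzb (Dzb (Fg _))) +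
      (v.2 : ℂ) ^ 2 * ev p (Du (Du (Fg _))) +
      2 * (v.1 * starRingEnd ℂ v.1) * ev p (Dzb (Dz (Fg _))) +
      2 * (v.1 * v.2) * ev p (Dz (Du (Fg _))) +
      2 * (starRingEnd ℂ v.1 * v.2) * ev p (Dzb (Du (Fg _))) := by
  rw [D_sq]
  simp only [map_add, map_mul, map_pow, ev_cst, map_ofNat]

theorem levi_alg (w : ℂ × ℂ) (A1 A2 C A B B' : ℂ) :
    ((prj w).1 ^ 2 * A1 + starRingEnd ℂ (prj w).1 ^ 2 * A2 + ((prj w).2 : ℂ) ^ 2 * C +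
      2 * ((prj w).1 * starRingEnd ℂ (prj w).1) * A + 2 * ((prj w).1 * (prj w).2) * B +
      2 * (starRingEnd ℂ (prj w).1 * (prj w).2) * B') +
    ((prj (I • w)).1 ^ 2 * A1 + starRingEnd ℂ (prj (I • w)).1 ^ 2 * A2 +
      ((prj (I • w)).2 : ℂ) ^ 2 * C +
      2 * ((prj (I • w)).1 * starRingEnd ℂ (prj (I • w)).1) * A +
      2 * ((prj (I • w)).1 * (prj (I • w)).2) * B +
      2 * (starRingEnd ℂ (prj (I • w)).1 * (prj (I • w)).2) * B') =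
    4 * (w.1 * starRingEnd ℂ w.1) * A + 2 * (w.1 * starRingEnd ℂ w.2) * B +
    2 * (starRingEnd ℂ w.1 * w.2) * B' + (w.2 * starRingEnd ℂ w.2) * C := by
  have p1 : (prj w).1 = w.1 := rfl
  have p2 : (prj w).2 = w.2.re := rfl
  have p3 : (prj (I • w)).1 = I * w.1 := rfl
  have p4 : (prj (I • w)).2 = - w.2.im := by
    change (I * w.2).re = - w.2.im
    simp
  rw [p1, p2, p3, p4, map_mul, Complex.conj_I]
  obtain ⟨a, b⟩ := w
  obtain ⟨b1, b2⟩ := b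
  have e1 : starRingEnd ℂ (⟨b1, b2⟩ : ℂ) = (b1 : ℂ) - b2 * I := by
    apply Complex.ext <;> simp
  have e2 : (⟨b1, b2⟩ : ℂ) = (b1 : ℂ) + b2 * I := by
    apply Complex.ext <;> simp
  have hI := Complex.I_mul_I
  simp only
  rw [e1, e2]
  push_cast
  generalize starRingEnd ℂ a = ab
  linear_combination (a ^ 2 * A1 + ab ^ 2 * A2 - 2 * a * ab * A + b2 ^ 2 * C) * hI

theorem levi_formula (x w : ℂ × ℂ) : ((leviForm rho x w : ℝ) : ℂ) =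
    4 * (w.1 * starRingEnd ℂ w.1) * ev (prj x) (Dzb (Dz (Fg _))) +
    2 * (w.1 * starRingEnd ℂ w.2) * ev (prj x) (Dz (Du (Fg _))) +
    2 * (starRingEnd ℂ w.1 * w.2) * ev (prj x) (Dzb (Du (Fg _))) +
    (w.2 * starRingEnd ℂ w.2) * ev (prj x) (Du (Du (Fg _))) := by
  unfold leviForm
  rw [rho_fderiv2, rho_fderiv2, Complex.ofReal_add, ev_DD, ev_DD, ev_sq, ev_sq]
  exact levi_alg w _ _ _ _ _ _

theorem ev_z (p : V) : ev p (zg (nhdsO p)) = p.1 := rfl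
theorem ev_u (p : V) : ev p (ug (nhdsO p)) = p.2 := rfl
theorem ev_b (p : V) : ev p (cj (zg (nhdsO p))) = starRingEnd ℂ p.1 := rfl

theorem ev_A (p : V) : ev p (Dzb (Dz (Fg (nhdsO p)))) = 16 * p.1 ^ 3 * starRingEnd ℂ p.1 ^ 3 +
    6 * (p.2 : ℂ) ^ 2 * (p.1 ^ 2 * starRingEnd ℂ p.1 + p.1 * starRingEnd ℂ p.1 ^ 2) +
    4 * (p.2 : ℂ) ^ 4 := by
  rw [Dzb_Dz_F]
  simp only [map_add, map_mul, map_pow, map_ofNat, ev_z, ev_u, ev_b]

theorem ev_B (p : V) : ev p (Dz (Du (Fg (nhdsO p)))) = 2 * (p.2 : ℂ) * (3 * p.1 ^ 2 *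
    starRingEnd ℂ p.1 ^ 2 + 2 * p.1 * starRingEnd ℂ p.1 ^ 3) +
    16 * (p.2 : ℂ) ^ 3 * starRingEnd ℂ p.1 := by
  have h : Dz (Du (Fg (nhdsO p))) = 2 * ug _ * (3 * zg _ ^ 2 * cj (zg _) ^ 2 +
      2 * zg _ * cj (zg _) ^ 3) + 16 * ug _ ^ 3 * cj (zg _) := by
    rw [Du_F]
    simp only [map_add, lbz, der_pow, Dz_z, Dz_b, Dz_u, der_2, der_16]
    push_cast
    ring
  rw [h]
  simp only [map_add, map_mul, map_pow, map_ofNat, ev_z, ev_u, ev_b]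

theorem ev_B' (p : V) : ev p (Dzb (Du (Fg (nhdsO p)))) = 2 * (p.2 : ℂ) * (2 * p.1 ^ 3 *
    starRingEnd ℂ p.1 + 3 * p.1 ^ 2 * starRingEnd ℂ p.1 ^ 2) +
    16 * (p.2 : ℂ) ^ 3 * p.1 := by
  have h : Dzb (Du (Fg (nhdsO p))) = 2 * ug _ * (2 * zg _ ^ 3 * cj (zg _) +
      3 * zg _ ^ 2 * cj (zg _) ^ 2) + 16 * ug _ ^ 3 * zg _ := by
    rw [Du_F]
    simp only [map_add, lbz, der_pow, Dzb_z, Dzb_b, Dzb_u, der_2, der_16]
    push_cast
    ring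
  rw [h]
  simp only [map_add, map_mul, map_pow, map_ofNat, ev_z, ev_u, ev_b]

theorem ev_C (p : V) : ev p (Du (Du (Fg (nhdsO p)))) =
    2 * (p.1 ^ 3 * starRingEnd ℂ p.1 ^ 2 + p.1 ^ 2 * starRingEnd ℂ p.1 ^ 3) +
    48 * (p.2 : ℂ) ^ 2 * (p.1 * starRingEnd ℂ p.1) := by
  have h : Du (Du (Fg (nhdsO p))) = 2 * (zg _ ^ 3 * cj (zg _) ^ 2 + zg _ ^ 2 * cj (zg _) ^ 3) +
      48 * ug _ ^ 2 * (zg _ * cj (zg _)) := by
    rw [Du_F]
    simp only [map_add, lbz, der_pow, Du_z, Du_b, Du_u, der_2, der_16]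
    push_cast
    ring
  rw [h]
  simp only [map_add, map_mul, map_pow, map_ofNat, ev_z, ev_u, ev_b]

theorem ev_Fz (p : V) : ev p (Dz (Fg (nhdsO p))) = 4 * p.1 ^ 3 * starRingEnd ℂ p.1 ^ 4 +
    (p.2 : ℂ) ^ 2 * (3 * p.1 ^ 2 * starRingEnd ℂ p.1 ^ 2 + 2 * p.1 * starRingEnd ℂ p.1 ^ 3) +
    4 * (p.2 : ℂ) ^ 4 * starRingEnd ℂ p.1 := by
  rw [Dz_F]
  simp only [map_add, map_mul, map_pow, map_ofNat, ev_z, ev_u, ev_b]

theorem ev_Fu (p : V) : ∃ s : ℝ, ev p (Du (Fg (nhdsO p))) = s := by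
  obtain ⟨s, hs⟩ := real_du Fex (Fex_analytic p)
  exact ⟨s, by rw [← hs]; unfold Fg; rw [Du_mk, ev_mk]⟩

theorem tangent_rel {x w : ℂ × ℂ} (h : IsComplexTangent rho x w) :
    2 * w.1 * ev (prj x) (Dz (Fg _)) + w.2 * (ev (prj x) (Du (Fg _)) + I) = 0 := by
  obtain ⟨h1, h2⟩ := h
  rw [rho_fderiv] at h1 h2
  have h1' := congrArg (fun r : ℝ => (r : ℂ)) h1
  have h2' := congrArg (fun r : ℝ => (r : ℂ)) h2
  simp only [Complex.ofReal_sub, Complex.ofReal_zero] at h1' h2'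
  rw [ev_D, D_eq] at h1' h2'
  simp only [map_add, map_mul, ev_cst] at h1' h2'
  have p1 : (prj w).1 = w.1 := rfl
  have p2 : (prj w).2 = w.2.re := rfl
  have p3 : (prj (I • w)).1 = I * w.1 := rfl
  have p4 : (prj (I • w)).2 = - w.2.im := by
    change (I * w.2).re = - w.2.im
    simp
  have p5 : (I • w).2.im = w.2.re := by
    change (I * w.2).im = w.2.re
    simp
  rw [p1, p2] at h1'
  rw [p3, p4, p5, map_mul, Complex.conj_I] at h2'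
  have e2 : w.2 = (w.2.re : ℂ) + w.2.im * I := (Complex.re_add_im _).symm
  have hI := Complex.I_mul_I
  push_cast at h1' h2'
  revert h1' h2' e2
  generalize ev (prj x) (Dz (Fg _)) = Fz
  generalize ev (prj x) (Dzb (Fg _)) = Fb
  generalize ev (prj x) (Du (Fg _)) = Fu
  generalize w.2.re = b1
  generalize w.2.im = b2
  generalize w.2 = b
  generalize w.1 = a
  intro h1' e2 h2'
  rw [e2]
  generalize starRingEnd ℂ a = ab at h1' h2'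
  linear_combination h1' - I * h2' + (a * Fz - ab * Fb + b2) * hI

/-- The estimate behind positivity. -/
theorem pos_aux (ζ ω A B B' C Fz Fu : ℂ) (S L s : ℝ)
    (hL : (L : ℂ) = 4 * (ζ * starRingEnd ℂ ζ) * A + 2 * (ζ * starRingEnd ℂ ω) * B +
      2 * (starRingEnd ℂ ζ * ω) * B' + (ω * starRingEnd ℂ ω) * C)
    (hFu : Fu = s) (ht : 2 * ζ * Fz + ω * (Fu + I) = 0) (hS0 : 0 < S) (hS1 : S ≤ 1)
    (hA : S ≤ A.re) (hB : ‖B‖ ≤ 1/100) (hB' : ‖B'‖ ≤ 1/100) (hC : ‖C‖ ≤ 1/100)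
    (hFz : ‖Fz‖ ≤ S) (hw : ¬ (ζ = 0 ∧ ω = 0)) : 0 < L := by
  have hden : 1 ≤ ‖Fu + I‖ := by
    have h1 : |(Fu + I).im| ≤ ‖Fu + I‖ := Complex.abs_im_le_norm _
    rw [hFu] at h1 ⊢
    simpa using h1
  have hω : ‖ω‖ ≤ 2 * ‖ζ‖ * S := by
    have h1 : ω * (Fu + I) = - (2 * ζ * Fz) := by linear_combination ht
    have h2 := congrArg norm h1
    rw [norm_mul, norm_neg, norm_mul, norm_mul] at h2
    have n2 : ‖(2:ℂ)‖ = 2 := by norm_num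
    rw [n2] at h2
    have h3 : ‖ω‖ * 1 ≤ ‖ω‖ * ‖Fu + I‖ := mul_le_mul_of_nonneg_left hden (norm_nonneg _)
    have h4 : 2 * ‖ζ‖ * ‖Fz‖ ≤ 2 * ‖ζ‖ * S := mul_le_mul_of_nonneg_left hFz (by positivity)
    linarith
  have hζ : 0 < ‖ζ‖ := by
    rw [norm_pos_iff]
    intro h0
    apply hw
    refine ⟨h0, ?_⟩
    rw [h0, norm_zero, mul_zero, zero_mul] at hω
    exact norm_le_zero_iff.1 hω
  have hre := congrArg Complex.re hL
  rw [Complex.ofReal_re, Complex.add_re, Complex.add_re, Complex.add_re, Complex.mul_conj,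
    Complex.mul_conj] at hre
  have e1 : (4 * (Complex.normSq ζ : ℂ) * A).re = 4 * ‖ζ‖ ^ 2 * A.re := by
    rw [Complex.normSq_eq_norm_sq]
    have : (4 * ((‖ζ‖ ^ 2 : ℝ) : ℂ) * A) = ((4 * ‖ζ‖ ^ 2 : ℝ) : ℂ) * A := by push_cast; ring
    rw [this, Complex.re_ofReal_mul]
  have e2 : -(2 * (‖ζ‖ * ‖ω‖) * (1/100)) ≤ (2 * (ζ * starRingEnd ℂ ω) * B).re := by
    have h1 := Complex.abs_re_le_norm (2 * (ζ * starRingEnd ℂ ω) * B)
    rw [norm_mul, norm_mul, norm_mul, Complex.norm_conj] at h1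
    have n2 : ‖(2:ℂ)‖ = 2 := by norm_num
    rw [n2] at h1
    have h2 : 2 * (‖ζ‖ * ‖ω‖) * ‖B‖ ≤ 2 * (‖ζ‖ * ‖ω‖) * (1/100) :=
      mul_le_mul_of_nonneg_left hB (by positivity)
    have h3 := (abs_le.1 (h1.trans h2)).1
    exact h3
  have e3 : -(2 * (‖ζ‖ * ‖ω‖) * (1/100)) ≤ (2 * (starRingEnd ℂ ζ * ω) * B').re := by
    have h1 := Complex.abs_re_le_norm (2 * (starRingEnd ℂ ζ * ω) * B')
    rw [norm_mul, norm_mul, norm_mul, Complex.norm_conj] at h1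
    have n2 : ‖(2:ℂ)‖ = 2 := by norm_num
    rw [n2] at h1
    have h2 : 2 * (‖ζ‖ * ‖ω‖) * ‖B'‖ ≤ 2 * (‖ζ‖ * ‖ω‖) * (1/100) :=
      mul_le_mul_of_nonneg_left hB' (by positivity)
    have h3 := (abs_le.1 (h1.trans h2)).1
    exact h3
  have e4 : -(‖ω‖ ^ 2 * (1/100)) ≤ ((Complex.normSq ω : ℂ) * C).re := by
    rw [Complex.normSq_eq_norm_sq, Complex.re_ofReal_mul]
    have h1 := (abs_le.1 ((Complex.abs_re_le_norm C).trans hC)).1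
    nlinarith [sq_nonneg ‖ω‖]
  rw [e1] at hre
  have h5 : ‖ω‖ * ‖ζ‖ ≤ 2 * ‖ζ‖ ^ 2 * S := by
    have := mul_le_mul_of_nonneg_right hω hζ.le
    nlinarith
  have h6 : ‖ω‖ ^ 2 ≤ 4 * ‖ζ‖ ^ 2 * S := by
    have h7 : ‖ω‖ ^ 2 ≤ (2 * ‖ζ‖ * S) ^ 2 := pow_le_pow_left₀ (norm_nonneg _) hω 2
    have h8 : (2 * ‖ζ‖ * S) ^ 2 = 4 * ‖ζ‖ ^ 2 * S * S := by ring
    have h9 : 4 * ‖ζ‖ ^ 2 * S * S ≤ 4 * ‖ζ‖ ^ 2 * S * 1 :=
      mul_le_mul_of_nonneg_left hS1 (by positivity)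
    linarith
  have h10 : 4 * ‖ζ‖ ^ 2 * S ≤ 4 * ‖ζ‖ ^ 2 * A.re := mul_le_mul_of_nonneg_left hA (by positivity)
  have h11 : 0 < ‖ζ‖ ^ 2 * S := by positivity
  rw [hre]
  nlinarith

theorem vals {z : ℂ} {u : ℝ} (hz : ‖z‖ ≤ 1/10) (hu : |u| ≤ 1/10) :
    ‖z‖ ^ 6 + u ^ 4 ≤ (16 * z ^ 3 * starRingEnd ℂ z ^ 3 +
      6 * (u : ℂ) ^ 2 * (z ^ 2 * starRingEnd ℂ z + z * starRingEnd ℂ z ^ 2) +
      4 * (u : ℂ) ^ 4).re ∧
    ‖2 * (u : ℂ) * (3 * z ^ 2 * starRingEnd ℂ z ^ 2 + 2 * z * starRingEnd ℂ z ^ 3) +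
      16 * (u : ℂ) ^ 3 * starRingEnd ℂ z‖ ≤ 1/100 ∧
    ‖2 * (u : ℂ) * (2 * z ^ 3 * starRingEnd ℂ z + 3 * z ^ 2 * starRingEnd ℂ z ^ 2) +
      16 * (u : ℂ) ^ 3 * z‖ ≤ 1/100 ∧
    ‖2 * (z ^ 3 * starRingEnd ℂ z ^ 2 + z ^ 2 * starRingEnd ℂ z ^ 3) +
      48 * (u : ℂ) ^ 2 * (z * starRingEnd ℂ z)‖ ≤ 1/100 ∧
    ‖4 * z ^ 3 * starRingEnd ℂ z ^ 4 +
      (u : ℂ) ^ 2 * (3 * z ^ 2 * starRingEnd ℂ z ^ 2 + 2 * z * starRingEnd ℂ z ^ 3) +
      4 * (u : ℂ) ^ 4 * starRingEnd ℂ z‖ ≤ ‖z‖ ^ 6 + u ^ 4 := by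
  have n2 : ‖(2:ℂ)‖ = 2 := by norm_num
  have n3 : ‖(3:ℂ)‖ = 3 := by norm_num
  have n4 : ‖(4:ℂ)‖ = 4 := by norm_num
  have n16 : ‖(16:ℂ)‖ = 16 := by norm_num
  have n48 : ‖(48:ℂ)‖ = 48 := by norm_num
  have hr0 : 0 ≤ ‖z‖ := norm_nonneg z
  have hu0 : 0 ≤ |u| := abs_nonneg u
  obtain ⟨r, hr⟩ : ∃ r, r = ‖z‖ := ⟨_, rfl⟩
  obtain ⟨v, hv⟩ : ∃ v, v = |u| := ⟨_, rfl⟩
  have hu2 : u ^ 2 = v ^ 2 := by rw [hv, sq_abs]
  have hu4 : u ^ 4 = v ^ 4 := by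
    have : u ^ 4 = (u ^ 2) ^ 2 := by ring
    rw [this, hu2]; ring
  rw [← hr] at hz hr0
  rw [← hv] at hu hu0
  have p4 : r ^ 4 ≤ (1/10) ^ 4 := pow_le_pow_left₀ hr0 hz 4
  have p5 : r ^ 5 ≤ (1/10) ^ 5 := pow_le_pow_left₀ hr0 hz 5
  have p2 : r ^ 2 ≤ (1/10) ^ 2 := pow_le_pow_left₀ hr0 hz 2
  have q2 : v ^ 2 ≤ (1/10) ^ 2 := pow_le_pow_left₀ hu0 hu 2
  have q3 : v ^ 3 ≤ (1/10) ^ 3 := pow_le_pow_left₀ hu0 hu 3
  have m1 : v * r ^ 4 ≤ (1/10) * (1/10) ^ 4 := mul_le_mul hu p4 (by positivity) (by norm_num)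
  have m2 : v ^ 3 * r ≤ (1/10) ^ 3 * (1/10) := mul_le_mul q3 hz hr0 (by norm_num)
  have m3 : v ^ 2 * r ^ 2 ≤ (1/10) ^ 2 * (1/10) ^ 2 := mul_le_mul q2 p2 (by positivity) (by norm_num)
  refine ⟨?_, ?_, ?_, ?_, ?_⟩
  · have hzz : z * starRingEnd ℂ z = ((r ^ 2 : ℝ) : ℂ) := by
      rw [Complex.mul_conj, Complex.normSq_eq_norm_sq, hr]
    have hzc : z + starRingEnd ℂ z = ((2 * z.re : ℝ) : ℂ) := Complex.add_conj z
    have e : 16 * z ^ 3 * starRingEnd ℂ z ^ 3 +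
      6 * (u : ℂ) ^ 2 * (z ^ 2 * starRingEnd ℂ z + z * starRingEnd ℂ z ^ 2) +
      4 * (u : ℂ) ^ 4 = ((16 * r ^ 6 + 12 * u ^ 2 * r ^ 2 * z.re + 4 * u ^ 4 : ℝ) : ℂ) := by
      have : 16 * z ^ 3 * starRingEnd ℂ z ^ 3 +
        6 * (u : ℂ) ^ 2 * (z ^ 2 * starRingEnd ℂ z + z * starRingEnd ℂ z ^ 2) +
        4 * (u : ℂ) ^ 4 = 16 * (z * starRingEnd ℂ z) ^ 3 +
        6 * (u : ℂ) ^ 2 * ((z * starRingEnd ℂ z) * (z + starRingEnd ℂ z)) + 4 * (u : ℂ) ^ 4 := by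
        ring
      rw [this, hzz, hzc]
      push_cast
      ring
    rw [e, Complex.ofReal_re, ← hr]
    have hx : -r ≤ z.re := by
      rw [hr]; exact (abs_le.1 (Complex.abs_re_le_norm z)).1
    have h1 : u ^ 2 * r ^ 2 * (-r) ≤ u ^ 2 * r ^ 2 * z.re :=
      mul_le_mul_of_nonneg_left hx (by positivity)
    nlinarith [sq_nonneg (2 * r ^ 3 - u ^ 2), sq_nonneg (r ^ 3), sq_nonneg (u ^ 2)]
  · calc _ ≤ ‖2 * (u : ℂ) * (3 * z ^ 2 * starRingEnd ℂ z ^ 2 + 2 * z * starRingEnd ℂ z ^ 3)‖ +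
        ‖16 * (u : ℂ) ^ 3 * starRingEnd ℂ z‖ := norm_add_le _ _
      _ ≤ 2 * v * (3 * r ^ 2 * r ^ 2 + 2 * r * r ^ 3) + 16 * v ^ 3 * r := by
        rw [norm_mul, norm_mul, norm_mul, norm_mul, norm_pow, Complex.norm_conj, Complex.norm_real,
          Real.norm_eq_abs, n2, n16, ← hr, ← hv]
        have := norm_add_le (3 * z ^ 2 * starRingEnd ℂ z ^ 2) (2 * z * starRingEnd ℂ z ^ 3)
        simp only [norm_mul, norm_pow, Complex.norm_conj, n2, n3, ← hr] at this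
        have := mul_le_mul_of_nonneg_left this (by positivity : 0 ≤ 2 * v)
        linarith
      _ = 10 * (v * r ^ 4) + 16 * (v ^ 3 * r) := by ring
      _ ≤ _ := by norm_num at m1 m2 ⊢; linarith
  · calc _ ≤ ‖2 * (u : ℂ) * (2 * z ^ 3 * starRingEnd ℂ z + 3 * z ^ 2 * starRingEnd ℂ z ^ 2)‖ +
        ‖16 * (u : ℂ) ^ 3 * z‖ := norm_add_le _ _
      _ ≤ 2 * v * (2 * r ^ 3 * r + 3 * r ^ 2 * r ^ 2) + 16 * v ^ 3 * r := by
        rw [norm_mul, norm_mul, norm_mul, norm_mul, norm_pow, Complex.norm_real,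
          Real.norm_eq_abs, n2, n16, ← hr, ← hv]
        have := norm_add_le (2 * z ^ 3 * starRingEnd ℂ z) (3 * z ^ 2 * starRingEnd ℂ z ^ 2)
        simp only [norm_mul, norm_pow, Complex.norm_conj, n2, n3, ← hr] at this
        have := mul_le_mul_of_nonneg_left this (by positivity : 0 ≤ 2 * v)
        linarith
      _ = 10 * (v * r ^ 4) + 16 * (v ^ 3 * r) := by ring
      _ ≤ _ := by norm_num at m1 m2 ⊢; linarith
  · calc _ ≤ ‖2 * (z ^ 3 * starRingEnd ℂ z ^ 2 + z ^ 2 * starRingEnd ℂ z ^ 3)‖ +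
        ‖48 * (u : ℂ) ^ 2 * (z * starRingEnd ℂ z)‖ := norm_add_le _ _
      _ ≤ 2 * (r ^ 3 * r ^ 2 + r ^ 2 * r ^ 3) + 48 * v ^ 2 * (r * r) := by
        rw [norm_mul, norm_mul, norm_mul, norm_mul, norm_pow, Complex.norm_conj, Complex.norm_real,
          Real.norm_eq_abs, n2, n48, ← hr, ← hv]
        have := norm_add_le (z ^ 3 * starRingEnd ℂ z ^ 2) (z ^ 2 * starRingEnd ℂ z ^ 3)
        simp only [norm_mul, norm_pow, Complex.norm_conj, ← hr] at this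
        linarith
      _ = 4 * r ^ 5 + 48 * (v ^ 2 * r ^ 2) := by ring
      _ ≤ _ := by norm_num at p5 m3 ⊢; linarith
  · calc _ ≤ ‖4 * z ^ 3 * starRingEnd ℂ z ^ 4 +
        (u : ℂ) ^ 2 * (3 * z ^ 2 * starRingEnd ℂ z ^ 2 + 2 * z * starRingEnd ℂ z ^ 3)‖ +
        ‖4 * (u : ℂ) ^ 4 * starRingEnd ℂ z‖ := norm_add_le _ _
      _ ≤ (4 * r ^ 3 * r ^ 4 + v ^ 2 * (3 * r ^ 2 * r ^ 2 + 2 * r * r ^ 3)) + 4 * v ^ 4 * r := by
        have h1 := norm_add_le (4 * z ^ 3 * starRingEnd ℂ z ^ 4)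
          ((u : ℂ) ^ 2 * (3 * z ^ 2 * starRingEnd ℂ z ^ 2 + 2 * z * starRingEnd ℂ z ^ 3))
        have h2 := norm_add_le (3 * z ^ 2 * starRingEnd ℂ z ^ 2) (2 * z * starRingEnd ℂ z ^ 3)
        simp only [norm_mul, norm_pow, Complex.norm_conj, Complex.norm_real, Real.norm_eq_abs,
          n2, n3, n4, ← hr, ← hv] at h1 h2 ⊢
        have := mul_le_mul_of_nonneg_left h2 (by positivity : 0 ≤ v ^ 2)
        linarith
      _ = r * (4 * r ^ 6 + 5 * (v ^ 2 * r ^ 3) + 4 * v ^ 4) := by ring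
      _ ≤ (1/10) * (4 * r ^ 6 + 5 * (v ^ 2 * r ^ 3) + 4 * v ^ 4) :=
        mul_le_mul_of_nonneg_right hz (by positivity)
      _ ≤ _ := by
        rw [hu4, ← hr]
        nlinarith [sq_nonneg (v ^ 2 - r ^ 3), sq_nonneg (r ^ 3), sq_nonneg (v ^ 2)]

theorem isolated : IsIsolatedWeaklyPseudoconvex rho 0 where
  analytic := rho_analytic
  mem := by simp [rho]
  regular := by
    intro h
    have h1 := rho_fderiv 0 (0, I)
    rw [h] at h1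
    have h2 : prj ((0, I) : ℂ × ℂ) = 0 := by
      rw [prj_apply]; simp
    rw [h2, map_zero] at h1
    simp at h1
  levi_zero := by
    intro w _
    have h := levi_formula 0 w
    rw [ev_A, ev_B, ev_B', ev_C] at h
    have p1 : (prj 0).1 = 0 := rfl
    have p2 : (prj 0).2 = 0 := rfl
    rw [p1, p2] at h
    simp at h
    exact h
  levi_pos := by
    have h1 : ∀ᶠ x in 𝓝 (0 : ℂ × ℂ), ‖x.1‖ ≤ 1/10 ∧ |x.2.re| ≤ 1/10 := by
      have h2 : Continuous fun x : ℂ × ℂ => ‖x.1‖ := by fun_prop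
      have h3 : Continuous fun x : ℂ × ℂ => |x.2.re| := by fun_prop
      have h4 : ∀ᶠ x in 𝓝 (0 : ℂ × ℂ), ‖x.1‖ < 1/10 := by
        have := h2.tendsto 0
        simp only [Prod.fst_zero, norm_zero] at this
        exact this.eventually (gt_mem_nhds (by norm_num))
      have h5 : ∀ᶠ x in 𝓝 (0 : ℂ × ℂ), |x.2.re| < 1/10 := by
        have := h3.tendsto 0
        simp only [Prod.snd_zero, Complex.zero_re, abs_zero] at this
        exact this.eventually (gt_mem_nhds (by norm_num))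
      filter_upwards [h4, h5] with x a b using ⟨a.le, b.le⟩
    filter_upwards [h1] with x hx hρ hx0 w hw ht
    obtain ⟨v1, v2, v3, v4, v5⟩ := vals hx.1 hx.2
    have hS0 : 0 < ‖x.1‖ ^ 6 + x.2.re ^ 4 := by
      by_contra hn
      have h2 : ‖x.1‖ ^ 6 = 0 := by
        have h3 : 0 ≤ ‖x.1‖ ^ 6 := by positivity
        have h4 : 0 ≤ x.2.re ^ 4 := by positivity
        linarith
      have h3 : x.2.re ^ 4 = 0 := by
        have h3 : 0 ≤ ‖x.1‖ ^ 6 := by positivity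
        have h4 : 0 ≤ x.2.re ^ 4 := by positivity
        linarith
      have h4 : x.1 = 0 := norm_eq_zero.1 (pow_eq_zero_iff (by norm_num) |>.1 h2)
      have h5 : x.2.re = 0 := pow_eq_zero_iff (by norm_num) |>.1 h3
      have h6 : x.2.im = 0 := by
        unfold rho at hρ
        rw [h4, h5] at hρ
        simp at hρ
        exact hρ
      exact hx0 (Prod.ext h4 (Complex.ext h5 h6))
    have hS1 : ‖x.1‖ ^ 6 + x.2.re ^ 4 ≤ 1 := by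
      have h2 : ‖x.1‖ ^ 6 ≤ (1/10) ^ 6 := pow_le_pow_left₀ (norm_nonneg _) hx.1 6
      have h3 : x.2.re ^ 4 ≤ (1/10) ^ 4 := by
        have : x.2.re ^ 4 = |x.2.re| ^ 4 := by
          rw [show (4:ℕ) = 2 * 2 by norm_num, pow_mul, pow_mul, sq_abs]
        rw [this]
        exact pow_le_pow_left₀ (abs_nonneg _) hx.2 4
      norm_num at h2 h3 ⊢
      linarith
    obtain ⟨s, hs⟩ := ev_Fu (prj x)
    have p1 : (prj x).1 = x.1 := rfl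
    have p2 : (prj x).2 = x.2.re := rfl
    refine pos_aux w.1 w.2 _ _ _ _ _ _ (‖x.1‖ ^ 6 + x.2.re ^ 4) (leviForm rho x w) s
      (levi_formula x w) hs (tangent_rel ht) hS0 hS1 ?_ ?_ ?_ ?_ ?_ ?_
    · rw [ev_A, p1, p2]; exact v1
    · rw [ev_B, p1, p2]; exact v2
    · rw [ev_B', p1, p2]; exact v3
    · rw [ev_C, p1, p2]; exact v4
    · rw [ev_Fz, p1, p2]; exact v5
    · rintro ⟨h2, h3⟩
      exact hw (Prod.ext h2 h3)

end Pool.Agent.H213
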