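import Pool.Agent.H213.Comb
import Pool.Agent.H213.Defs

/-! The hypersurface `Im w = F(z, Re w)` and its geometry at the origin. -/

open Filter Topology Asymptotics

namespace Pool.Agent.H213

open Complex (I)

/-- Projection. -/
noncomputable def prj : ℂ × ℂ →L[ℝ] V :=
  (ContinuousLinearMap.fst ℝ ℂ ℂ).prod (Complex.reCLM.comp (ContinuousLinearMap.snd ℝ ℂ ℂ))

theorem prj_apply (x : ℂ × ℂ) : prj x = (x.1, x.2.re) := rfl

theorem rho_eq (x : ℂ × ℂ) : rho x = Fex (prj x) - x.2.im := by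
  unfold rho Fex
  rw [prj_apply, Complex.normSq_eq_norm_sq]
  ring

theorem noChain_curve {c : ℝ → ℂ × ℂ} (hc : AnalyticAt ℝ c 0) (h0 : c 0 = 0) (hd : deriv c 0 ≠ 0)
    (hM : ∀ᶠ t in 𝓝 (0:ℝ), rho (c t) = 0) :
    ∀ᶠ t in 𝓝[≠] (0:ℝ), ¬ IsChainAt {x | rho x = 0} c t := by
  obtain ⟨γ, hγd⟩ : ∃ γ : ℝ → V, γ = fun t => prj (c t) := ⟨_, rfl⟩
  have hγ : ∀ t, AnalyticAt ℝ c t → AnalyticAt ℝ γ t := by
    intro t ht
    rw [hγd]
    exact (prj.analyticAt (c t)).comp ht
  have hP : ∀ t, rho (c t) = 0 → c t = PF Fex (γ t) := by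
    intro t ht
    rw [rho_eq] at ht
    have h1 : (c t).2.im = Fex (γ t) := by rw [hγd]; linarith
    unfold PF
    refine Prod.ext ?_ ?_
    · rw [hγd]; rfl
    · rw [← h1, hγd]
      simp only [prj_apply]
      rw [mul_comm]
      exact (Complex.re_add_im (c t).2).symm
  have hγ0 : γ 0 = 0 := by rw [hγd]; simp [h0]
  have hdγ : deriv γ 0 ≠ 0 := by
    intro h
    apply hd
    have h1 : HasDerivAt γ 0 0 := by rw [← h]; exact (hγ 0 hc).differentiableAt.hasDerivAt
    have h2 := (PF_analytic (Fex_analytic (γ 0))).differentiableAt.hasFDerivAt.comp_hasDerivAt 0 h1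
    rw [map_zero] at h2
    have h3 : c =ᶠ[𝓝 0] (PF Fex ∘ γ) := hM.mono fun t ht => hP t ht
    exact (h2.congr_of_eventuallyEq h3).deriv
  have hno := noChain (hγ 0 hc) hγ0 hdγ
  have h1 := (eventually_eventually_nhds.2 hM).filter_mono (nhdsWithin_le_nhds (s := {0}ᶜ))
  have h2 := hc.eventually_analyticAt.filter_mono (nhdsWithin_le_nhds (s := {0}ᶜ))
  filter_upwards [hno, h1, h2] with t ht1 ht2 ht3 hchain
  apply ht1
  obtain ⟨Φ, ⟨hΦ, hbij, hΦ0, G, hG, hN⟩, hline⟩ := hchain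
  have hct : c t = PF Fex (γ t) := hP t ht2.self_of_nhds
  rw [hct] at hΦ hbij hΦ0 hN
  refine (chain_eq (Fex_analytic (γ t)) (hγ t ht3) hΦ hbij.1 hΦ0 hG ?_ ?_).2
  · have h3 := (PF_analytic (Fex_analytic (γ t))).continuousAt.eventually hN
    filter_upwards [h3] with p hp
    apply hp.1
    change rho (PF Fex p) = 0
    rw [rho_eq]
    have : prj (PF Fex p) = p := by
      rw [prj_apply]
      unfold PF
      refine Prod.ext rfl ?_
      simp
    rw [this]
    unfold PF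
    simp
  · filter_upwards [ht2, hline] with s h4 h5
    rw [← hP s h4]
    exact h5.1

end Pool.Agent.H213
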