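import Pool.Agent.H465.OC.StmC

/-!
# Project OC (MP_f38b71_nt), task C7: `j` is surjective
-/

set_option autoImplicit false

noncomputable section

open UpperHalfPlane hiding I
open ModularForm MatrixGroups EisensteinSeries
open Pool.Agent.Q279.SC Pool.Agent.Q237.SX
open Filter Topology

namespace Pool.Agent.H213.OCJSurj

open Pool.Agent.H465.OC

/-- transformation of a function of weight `k` under `S` -/
lemma S_apply {f : ℍ → ℂ} {k : ℕ} (hf : f ∣[(k : ℤ)] ModularGroup.S = f) (τ : ℍ) :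
    f (.mk _ τ.im_inv_neg_coe_pos) = f τ * (τ : ℂ) ^ k := by
  have h1 := congrFun hf τ
  rw [SlashInvariantForm.slash_S_apply, zpow_neg, zpow_natCast] at h1
  have h2 : (τ : ℂ) ^ k ≠ 0 := pow_ne_zero k τ.ne_zero
  rw [← h1, mul_assoc, inv_mul_cancel₀ h2, mul_one]

lemma E4_S (τ : ℍ) : E₄ (.mk _ τ.im_inv_neg_coe_pos) = E₄ τ * (τ : ℂ) ^ 4 :=
  S_apply (f := E₄) (k := 4) (mf_S E₄) τ

lemma D_S (τ : ℍ) : ModularForm.discriminant (.mk _ τ.im_inv_neg_coe_pos) =
    ModularForm.discriminant τ * (τ : ℂ) ^ 12 :=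
  S_apply (f := ModularForm.discriminant) (k := 12) discriminant_S_invariant τ

lemma c4 : PowerSeries.coeff 0 (q4 ℂ) = 1 := by rw [coeff_q4, if_pos rfl]

lemma cD : PowerSeries.coeff 0 (qD ℂ) = 0 := by rw [qD_X, PowerSeries.coeff_zero_X_mul]

theorem main : JSurj := by
  intro z
  by_contra hcon
  have hcon' : ∀ τ : ℍ, E₄ τ ^ 3 - z * ModularForm.discriminant τ ≠ 0 := fun τ h =>
    hcon ⟨τ, sub_eq_zero.1 h⟩
  have hG : HQ (fun τ : ℍ => E₄ τ ^ 3 - z * ModularForm.discriminant τ)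
      (q4 ℂ ^ 3 - PowerSeries.C z * qD ℂ) := (hq4.pow 3).sub (hqD.smul z)
  have hc : PowerSeries.constantCoeff (q4 ℂ ^ 3 - PowerSeries.C z * qD ℂ) = 1 := by
    rw [← PowerSeries.coeff_zero_eq_constantCoeff_apply, map_sub,
      PowerSeries.coeff_zero_eq_constantCoeff_apply (q4 ℂ ^ 3), map_pow,
      ← PowerSeries.coeff_zero_eq_constantCoeff_apply, c4, coeff0_mul, cD, mul_zero, sub_zero,
      one_pow]
  obtain ⟨b, hb⟩ : ∃ b : PowerSeries ℂ, (q4 ℂ ^ 3 - PowerSeries.C z * qD ℂ) * b = 1 := by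
    have h : IsUnit (q4 ℂ ^ 3 - PowerSeries.C z * qD ℂ) := by
      rw [PowerSeries.isUnit_iff_constantCoeff, hc]
      exact isUnit_one
    exact h.exists_right_inv
  have hH := hqD.mul (hG.inv hcon' hb)
  have hS : (fun τ : ℍ => ModularForm.discriminant τ *
      (E₄ τ ^ 3 - z * ModularForm.discriminant τ)⁻¹) ∣[(0 : ℤ)] ModularGroup.S =
      (fun τ : ℍ => ModularForm.discriminant τ *
      (E₄ τ ^ 3 - z * ModularForm.discriminant τ)⁻¹) := by
    funext τ
    have h0 : (τ : ℂ) ≠ 0 := τ.ne_zero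
    have h1 := hcon' τ
    rw [SlashInvariantForm.slash_S_apply, neg_zero, zpow_zero, mul_one, E4_S, D_S]
    have h2 : (E₄ τ * (τ : ℂ) ^ 4) ^ 3 - z * (ModularForm.discriminant τ * (τ : ℂ) ^ 12) =
        (E₄ τ ^ 3 - z * ModularForm.discriminant τ) * (τ : ℂ) ^ 12 := by ring
    rw [h2, mul_inv, mul_assoc, mul_comm ((τ : ℂ) ^ 12), mul_assoc,
      inv_mul_cancel₀ (pow_ne_zero 12 h0), mul_one]
  obtain ⟨c, hcst⟩ := ModularFormClass.levelOne_weight_zero_const (hH.toMF 0 hS)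
  have hval : ∀ τ : ℍ, ModularForm.discriminant τ *
      (E₄ τ ^ 3 - z * ModularForm.discriminant τ)⁻¹ = c := fun τ => by
    rw [← hH.coe_toMF 0 hS τ, hcst]
    rfl
  have hser : qD ℂ * b = PowerSeries.C c := hH.unique ((HQ.const c).congr fun τ => (hval τ).symm)
  have hc0 : c = 0 := by
    have h := congrArg (PowerSeries.coeff 0) hser
    rw [coeff0_mul, cD, zero_mul, PowerSeries.coeff_C, if_pos rfl] at h
    exact h.symm
  have h3 := hval UpperHalfPlane.I
  rw [hc0] at h3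
  rcases mul_eq_zero.1 h3 with h | h
  · exact ModularForm.discriminant_ne_zero _ h
  · exact hcon' _ (inv_eq_zero.1 h)

end Pool.Agent.H213.OCJSurj
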