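import Pool.Agent.H465.OC.StmB

/-! # Project OC, task B6: the Frobenius quotients are represented near an ordinary point -/

set_option autoImplicit false

namespace Pool.Agent.H213.OCRelData

open Polynomial Pool.Agent.Q279.SC Pool.Agent.H465.OC

/-- the algebra of all the relations -/
theorem core {B : Type} [CommRing B] {P x w A s' w' C s W' : B} (hA : P ∣ x - w * A)
    (hC : P ∣ s' * x - w' * C) (hs : s * w' = s' * w) (hW : W' * w' = 1) : P ∣ A * s - C := by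
  obtain ⟨v, hv⟩ := hA
  obtain ⟨u, hu⟩ := hC
  refine ⟨W' * (u - s' * v), ?_⟩
  linear_combination W' * hu - W' * s' * hv + W' * A * hs - (A * s - C) * hW

theorem unit_of {p : ℕ} [hp : Fact p.Prime] {a b : ℤ_[p]} (ha : IsUnit a)
    (h : (p : ℤ_[p]) ∣ a - b) : IsUnit b := by
  obtain ⟨t, ht⟩ := h
  by_contra hb
  have h1 : b ∈ nonunits ℤ_[p] := hb
  have h2 : (p : ℤ_[p]) * t ∈ nonunits ℤ_[p] := fun h3 =>
    PadicInt.prime_p.not_isUnit (isUnit_of_mul_isUnit_left h3)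
  have h4 : b + (p : ℤ_[p]) * t ∈ nonunits ℤ_[p] := IsLocalRing.nonunits_add h1 h2
  apply h4
  have h5 : b + (p : ℤ_[p]) * t = a := by
    rw [← ht]
    ring
  rw [h5]
  exact ha

theorem hecke {p : ℕ} [hp : Fact p.Prime] (H : HeckeZ) (i : Fin 6) (N : ℕ) (h : rr i < 12 * N)
    (g : ℤ_[p][X]) : ∃ Q : ℤ_[p][X], (p : LaurentSeries ℤ_[p]) ^ (12 * N + 1 - rr i) ∣
      VV p ℤ_[p] (ls (bb ℤ_[p] i) * Di ℤ_[p] ^ N * aeval (jj ℤ_[p]) g) -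
        ls (bb ℤ_[p] i) * Di ℤ_[p] ^ N * aeval (jj ℤ_[p]) Q := by
  obtain ⟨Q, hQ⟩ := H p ℤ_[p] i N h g
  refine ⟨Q, -(UU p ℤ_[p] (ls (bb ℤ_[p] i) * Di ℤ_[p] ^ N * aeval (jj ℤ_[p]) g)), ?_⟩
  rw [← hQ]
  ring

theorem rr_le (i : Fin 6) : rr i ≤ 14 := by
  revert i
  decide

theorem ls_bb0 (R : Type) [CommRing R] : ls (bb R 0) = 1 := map_one (HahnSeries.ofPowerSeries ℤ R)

theorem ls_mul {R : Type} [CommRing R] (f g : PowerSeries R) : ls (f * g) = ls f * ls g :=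
  map_mul (HahnSeries.ofPowerSeries ℤ R) f g

theorem ls_pow {R : Type} [CommRing R] (f : PowerSeries R) (n : ℕ) : ls (f ^ n) = ls f ^ n :=
  map_pow (HahnSeries.ofPowerSeries ℤ R) f n

theorem inv_bb {R : Type} [CommRing R] {i4 i6 : LaurentSeries R} (h4 : ls (q4 R) * i4 = 1)
    (h6 : ls (q6 R) * i6 = 1) (i : Fin 6) : ∃ w : LaurentSeries R, w * ls (bb R i) = 1 := by
  match i with
  | 0 => exact ⟨1, by rw [ls_bb0, one_mul]⟩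
  | 1 =>
    refine ⟨i4, ?_⟩
    have e : bb R 1 = q4 R := rfl
    rw [e]
    linear_combination h4
  | 2 =>
    refine ⟨i6, ?_⟩
    have e : bb R 2 = q6 R := rfl
    rw [e]
    linear_combination h6
  | 3 =>
    refine ⟨i4 ^ 2, ?_⟩
    have e : bb R 3 = q4 R ^ 2 := rfl
    rw [e, ls_pow]
    linear_combination (ls (q4 R) * i4 + 1) * h4
  | 4 =>
    refine ⟨i4 * i6, ?_⟩
    have e : bb R 4 = q4 R * q6 R := rfl
    rw [e, ls_mul]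
    linear_combination (ls (q6 R) * i6) * h4 + h6
  | 5 =>
    refine ⟨i4 ^ 2 * i6, ?_⟩
    have e : bb R 5 = q4 R ^ 2 * q6 R := rfl
    rw [e, ls_mul, ls_pow]
    linear_combination (ls (q6 R) * i6) * (ls (q4 R) * i4 + 1) * h4 + h6

theorem exA {p : ℕ} [hp : Fact p.Prime] (h1 : LSBasic) (h2 : LSInj) (H : HeckeZ) {c : ℤ_[p]}
    (hc : OrdAt p c) (N : ℕ) (hN : 1 ≤ N) : ∃ A : ℤ_[p][X], IsUnit (A.eval c) ∧
      (p : LaurentSeries ℤ_[p]) ^ (12 * N + 1) ∣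
        VV p ℤ_[p] (Di ℤ_[p]) ^ N - Di ℤ_[p] ^ N * aeval (jj ℤ_[p]) A := by
  obtain ⟨-, -, -, hD, -⟩ := h1 p ℤ_[p]
  obtain ⟨hInj, -, hF⟩ := h2 p
  have ex : ∀ K : ℕ, 1 ≤ K → ∃ A : ℤ_[p][X], (p : LaurentSeries ℤ_[p]) ^ (12 * K + 1) ∣
      VV p ℤ_[p] (Di ℤ_[p]) ^ K - Di ℤ_[p] ^ K * aeval (jj ℤ_[p]) A := by
    intro K hK
    have h0 : rr 0 = 0 := rfl
    obtain ⟨A, hA⟩ := hecke (p := p) H 0 K (by rw [h0]; omega) 1
    refine ⟨A, ?_⟩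
    rw [ls_bb0, one_mul, map_one, mul_one, map_pow, h0] at hA
    exact hA
  obtain ⟨A1, hA1⟩ := ex 1 le_rfl
  obtain ⟨A, hA⟩ := ex N hN
  refine ⟨A, ?_, hA⟩
  have hp1 : (p : LaurentSeries ℤ_[p]) ∣ VV p ℤ_[p] (Di ℤ_[p]) -
      Di ℤ_[p] * aeval (jj ℤ_[p]) A1 := by
    have h3 := (dvd_pow_self (p : LaurentSeries ℤ_[p]) (by omega : 12 * 1 + 1 ≠ 0)).trans hA1
    rw [pow_one, pow_one] at h3
    exact h3
  have hpN : (p : LaurentSeries ℤ_[p]) ∣ VV p ℤ_[p] (Di ℤ_[p]) ^ N -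
      Di ℤ_[p] ^ N * aeval (jj ℤ_[p]) A :=
    (dvd_pow_self (p : LaurentSeries ℤ_[p]) (by omega : 12 * N + 1 ≠ 0)).trans hA
  -- `A1` is a unit at `c`
  have hu1 : IsUnit (A1.eval c) := by
    apply hc A1
    obtain ⟨v, hv⟩ := hp1
    obtain ⟨u, hu⟩ := hF (Di ℤ_[p])
    have hpp : p - 1 + 1 = p := Nat.sub_add_cancel hp.out.one_lt.le
    have hDp : ls (qD ℤ_[p]) ^ p * Di ℤ_[p] ^ p = 1 := by
      rw [← mul_pow, hD, one_pow]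
    have hDq : ls (qD ℤ_[p]) ^ p = ls (qD ℤ_[p]) ^ (p - 1) * ls (qD ℤ_[p]) := by
      rw [← pow_succ, hpp]
    refine ⟨ls (qD ℤ_[p]) ^ p * (u - v), ?_⟩
    linear_combination ls (qD ℤ_[p]) ^ p * hu - ls (qD ℤ_[p]) ^ p * hv + hDp -
      Di ℤ_[p] * aeval (jj ℤ_[p]) A1 * hDq -
      aeval (jj ℤ_[p]) A1 * ls (qD ℤ_[p]) ^ (p - 1) * hD
  have hdv : (p : LaurentSeries ℤ_[p]) ∣ aeval (jj ℤ_[p]) (A1 ^ N - A) := by
    have h3 : (p : LaurentSeries ℤ_[p]) ∣ VV p ℤ_[p] (Di ℤ_[p]) ^ N -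
        (Di ℤ_[p] * aeval (jj ℤ_[p]) A1) ^ N := hp1.trans (sub_dvd_pow_sub_pow _ _ N)
    obtain ⟨u, hu⟩ := h3
    obtain ⟨v, hv⟩ := hpN
    have hDN : ls (qD ℤ_[p]) ^ N * Di ℤ_[p] ^ N = 1 := by
      rw [← mul_pow, hD, one_pow]
    refine ⟨ls (qD ℤ_[p]) ^ N * (v - u), ?_⟩
    rw [map_sub, map_pow]
    rw [mul_pow] at hu
    linear_combination ls (qD ℤ_[p]) ^ N * hv - ls (qD ℤ_[p]) ^ N * hu -
      (aeval (jj ℤ_[p]) A1 ^ N - aeval (jj ℤ_[p]) A) * hDN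
  have h4 : (p : LaurentSeries ℤ_[p]) ^ 1 ∣ aeval (jj ℤ_[p]) (A1 ^ N - A) := by
    rw [pow_one]
    exact hdv
  obtain ⟨T, hT⟩ := hInj 1 _ h4
  apply unit_of (hu1.pow N)
  refine ⟨T.eval c, ?_⟩
  have h5 := congrArg (Polynomial.eval c) hT
  rw [eval_sub, eval_pow, eval_mul, pow_one, eval_natCast] at h5
  exact h5

/-- **Task B6** -/
theorem main : LSBasic → LSInj → HeckeZ → RelData := by
  intro h1 h2 H p hp c hc
  obtain ⟨-, -, -, hD, h4, h6, -⟩ := h1 p ℤ_[p]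
  have hVD : VV p ℤ_[p] (ls (qD ℤ_[p])) * VV p ℤ_[p] (Di ℤ_[p]) = 1 := by
    rw [← map_mul, hD, map_one]
  have hDN : ∀ N : ℕ, ls (qD ℤ_[p]) ^ N * Di ℤ_[p] ^ N = 1 := fun N => by
    rw [← mul_pow, hD, one_pow]
  refine ⟨?_, ?_, ?_, ?_, ?_⟩
  · -- `V j`
    intro M
    obtain ⟨A, hu, hA⟩ := exA h1 h2 H hc (M + 2) (by omega)
    have h0 : rr 0 = 0 := rfl
    obtain ⟨Q, hQ⟩ := hecke (p := p) H 0 (M + 2) (by rw [h0]; omega) X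
    rw [ls_bb0, one_mul, aeval_X, map_mul, map_pow, h0] at hQ
    refine ⟨Q, A, hu, ?_⟩
    apply core (x := VV p ℤ_[p] (Di ℤ_[p]) ^ (M + 2)) (w := Di ℤ_[p] ^ (M + 2))
      (s' := VV p ℤ_[p] (jj ℤ_[p])) (w' := Di ℤ_[p] ^ (M + 2))
      (W' := ls (qD ℤ_[p]) ^ (M + 2)) ?_ ?_ rfl (hDN _)
    · exact (pow_dvd_pow _ (by omega)).trans hA
    · rw [mul_comm (VV p ℤ_[p] (jj ℤ_[p]))]
      exact (pow_dvd_pow _ (by omega)).trans hQ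
  · -- `s4`
    intro M
    obtain ⟨A, hu, hA⟩ := exA h1 h2 H hc (M + 2) (by omega)
    have h0 : rr 1 = 4 := rfl
    have e : bb ℤ_[p] 1 = q4 ℤ_[p] := rfl
    obtain ⟨Q, hQ⟩ := hecke (p := p) H 1 (M + 2) (by rw [h0]; omega) 1
    rw [e, map_one, mul_one, map_mul, map_pow, h0] at hQ
    refine ⟨Q, A, hu, ?_⟩
    apply core (x := VV p ℤ_[p] (Di ℤ_[p]) ^ (M + 2)) (w := Di ℤ_[p] ^ (M + 2))
      (s' := VV p ℤ_[p] (ls (q4 ℤ_[p]))) (w' := ls (q4 ℤ_[p]) * Di ℤ_[p] ^ (M + 2))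
      (W' := ls (PowerSeries.invOfUnit (q4 ℤ_[p]) 1) * ls (qD ℤ_[p]) ^ (M + 2)) ?_ ?_ ?_ ?_
    · exact (pow_dvd_pow _ (by omega)).trans hA
    · exact (pow_dvd_pow _ (by omega)).trans hQ
    · unfold s4
      linear_combination VV p ℤ_[p] (ls (q4 ℤ_[p])) * Di ℤ_[p] ^ (M + 2) * h4
    · linear_combination ls (qD ℤ_[p]) ^ (M + 2) * Di ℤ_[p] ^ (M + 2) * h4 + hDN (M + 2)
  · -- `s6`
    intro M
    obtain ⟨A, hu, hA⟩ := exA h1 h2 H hc (M + 2) (by omega)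
    have h0 : rr 2 = 6 := rfl
    have e : bb ℤ_[p] 2 = q6 ℤ_[p] := rfl
    obtain ⟨Q, hQ⟩ := hecke (p := p) H 2 (M + 2) (by rw [h0]; omega) 1
    rw [e, map_one, mul_one, map_mul, map_pow, h0] at hQ
    refine ⟨Q, A, hu, ?_⟩
    apply core (x := VV p ℤ_[p] (Di ℤ_[p]) ^ (M + 2)) (w := Di ℤ_[p] ^ (M + 2))
      (s' := VV p ℤ_[p] (ls (q6 ℤ_[p]))) (w' := ls (q6 ℤ_[p]) * Di ℤ_[p] ^ (M + 2))
      (W' := ls (PowerSeries.invOfUnit (q6 ℤ_[p]) 1) * ls (qD ℤ_[p]) ^ (M + 2)) ?_ ?_ ?_ ?_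
    · exact (pow_dvd_pow _ (by omega)).trans hA
    · exact (pow_dvd_pow _ (by omega)).trans hQ
    · unfold s6
      linear_combination VV p ℤ_[p] (ls (q6 ℤ_[p])) * Di ℤ_[p] ^ (M + 2) * h6
    · linear_combination ls (qD ℤ_[p]) ^ (M + 2) * Di ℤ_[p] ^ (M + 2) * h6 + hDN (M + 2)
  · -- `sD`
    intro M
    obtain ⟨A, hu, hA⟩ := exA h1 h2 H hc (M + 2 + 1) (by omega)
    obtain ⟨Q, -, hQ⟩ := exA h1 h2 H hc (M + 2) (by omega)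
    refine ⟨Q, A, hu, ?_⟩
    apply core (x := VV p ℤ_[p] (Di ℤ_[p]) ^ (M + 2 + 1)) (w := Di ℤ_[p] ^ (M + 2 + 1))
      (s' := VV p ℤ_[p] (ls (qD ℤ_[p]))) (w' := Di ℤ_[p] ^ (M + 2))
      (W' := ls (qD ℤ_[p]) ^ (M + 2)) ?_ ?_ ?_ (hDN _)
    · exact (pow_dvd_pow _ (by omega)).trans hA
    · have e : VV p ℤ_[p] (ls (qD ℤ_[p])) * VV p ℤ_[p] (Di ℤ_[p]) ^ (M + 2 + 1) =
          VV p ℤ_[p] (Di ℤ_[p]) ^ (M + 2) := by
        rw [pow_succ]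
        linear_combination VV p ℤ_[p] (Di ℤ_[p]) ^ (M + 2) * hVD
      rw [e]
      exact (pow_dvd_pow _ (by omega)).trans hQ
    · unfold sD
      ring
  · -- `L`
    intro i hi L hL M
    obtain ⟨w, hw⟩ := inv_bb h4 h6 i
    obtain ⟨A, hu, hA⟩ := exA h1 h2 H hc (M + 2) (by omega)
    have h0 := rr_le i
    obtain ⟨Q, hQ⟩ := hecke (p := p) H i (M + 2 + 1) (by omega) 1
    rw [map_one, mul_one, map_mul, map_pow] at hQ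
    rw [map_mul] at hL
    refine ⟨Q, A, hu, ?_⟩
    apply core (x := VV p ℤ_[p] (Di ℤ_[p]) ^ (M + 2)) (w := Di ℤ_[p] ^ (M + 2))
      (s' := VV p ℤ_[p] (ls (bb ℤ_[p] i)) * VV p ℤ_[p] (Di ℤ_[p]))
      (w' := ls (bb ℤ_[p] i) * Di ℤ_[p] ^ (M + 2 + 1))
      (W' := w * ls (qD ℤ_[p]) ^ (M + 2 + 1)) ?_ ?_ ?_ ?_
    · exact (pow_dvd_pow _ (by omega)).trans hA
    · have e : VV p ℤ_[p] (ls (bb ℤ_[p] i)) * VV p ℤ_[p] (Di ℤ_[p]) *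
          VV p ℤ_[p] (Di ℤ_[p]) ^ (M + 2) =
          VV p ℤ_[p] (ls (bb ℤ_[p] i)) * VV p ℤ_[p] (Di ℤ_[p]) ^ (M + 2 + 1) := by
        rw [pow_succ]
        ring
      rw [e]
      exact (pow_dvd_pow _ (by omega)).trans hQ
    · rw [pow_succ]
      linear_combination Di ℤ_[p] ^ (M + 2) * hL
    · linear_combination ls (qD ℤ_[p]) ^ (M + 2 + 1) * Di ℤ_[p] ^ (M + 2 + 1) * hw +
        hDN (M + 2 + 1)

end Pool.Agent.H213.OCRelData
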