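import Pool.Agent.H213.Chain2

/-! Orders of vanishing along a curve, for germs near the curve. -/

open Filter Topology Asymptotics

namespace Pool.Agent.H213

/-- `f = O(t ^ n)` near `0`. -/
def BO (n : ℤ) (f : ℝ → ℂ) : Prop := f =O[𝓝[≠] (0:ℝ)] (fun t : ℝ => (t:ℝ) ^ n)

theorem zpow_isBigO {n n' : ℤ} (h : n' ≤ n) :
    (fun t : ℝ => (t:ℝ) ^ n) =O[𝓝[≠] (0:ℝ)] (fun t : ℝ => (t:ℝ) ^ n') := by
  rw [isBigO_iff]
  refine ⟨1, ?_⟩
  have h1 : ∀ᶠ t : ℝ in 𝓝[≠] 0, |t| < 1 := by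
    have : ∀ᶠ t : ℝ in 𝓝 0, |t| < 1 := by
      have h2 : Tendsto (fun t : ℝ => |t|) (𝓝 0) (𝓝 |0|) := continuous_abs.tendsto 0
      rw [abs_zero] at h2
      exact h2.eventually (gt_mem_nhds one_pos)
    exact eventually_nhdsWithin_of_eventually_nhds this
  filter_upwards [h1, self_mem_nhdsWithin] with t ht ht0
  have ht0' : t ≠ 0 := ht0
  rw [one_mul, Real.norm_eq_abs, Real.norm_eq_abs, abs_zpow, abs_zpow]
  exact zpow_le_zpow_right_of_le_one₀ (abs_pos.2 ht0') ht.le h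

theorem BO.mono {n n' : ℤ} {f : ℝ → ℂ} (h : BO n f) (hn : n' ≤ n) : BO n' f :=
  h.trans (zpow_isBigO hn)

theorem BO.add {n : ℤ} {f g : ℝ → ℂ} (h : BO n f) (h' : BO n g) : BO n (fun t => f t + g t) :=
  IsBigO.add h h'

theorem BO.sub {n : ℤ} {f g : ℝ → ℂ} (h : BO n f) (h' : BO n g) : BO n (fun t => f t - g t) :=
  IsBigO.sub h h'

theorem BO.neg {n : ℤ} {f : ℝ → ℂ} (h : BO n f) : BO n (fun t => - f t) :=
  IsBigO.neg_left h

theorem BO.mul {n n' : ℤ} {f g : ℝ → ℂ} (h : BO n f) (h' : BO n' g) :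
    BO (n + n') (fun t => f t * g t) := by
  have := IsBigO.mul h h'
  refine this.trans_eventuallyEq ?_
  filter_upwards [self_mem_nhdsWithin] with t ht
  exact (zpow_add₀ ht _ _).symm

theorem BO.congr {n : ℤ} {f g : ℝ → ℂ} (h : BO n f) (he : f =ᶠ[𝓝[≠] 0] g) : BO n g :=
  he.symm.trans_isBigO h

theorem BO.conj {n : ℤ} {f : ℝ → ℂ} (h : BO n f) : BO n (fun t => starRingEnd ℂ (f t)) := by
  refine IsBigO.trans (IsBigO.of_bound 1 ?_) h
  filter_upwards with t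
  simp

theorem BO.const (a : ℂ) : BO 0 (fun _ => a) := by
  unfold BO
  simp only [zpow_zero]
  exact isBigO_const_const a one_ne_zero _

theorem BO_pow (n : ℤ) (c : ℂ) : BO n (fun t => c * (t:ℂ) ^ n) := by
  refine IsBigO.of_bound ‖c‖ ?_
  filter_upwards with t
  rw [norm_mul, norm_zpow, norm_zpow, Complex.norm_real]

/-- `f = c t ^ n + O(t ^ (n+1))`. -/
def Ld (n : ℤ) (c : ℂ) (f : ℝ → ℂ) : Prop := BO (n+1) (fun t => f t - c * (t:ℂ) ^ n)

theorem Ld.bo {n : ℤ} {c : ℂ} {f : ℝ → ℂ} (h : Ld n c f) : BO n f := by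
  have := (h.mono (by omega : n ≤ n + 1)).add (BO_pow n c)
  simpa using this

theorem Ld.add {n : ℤ} {c c' : ℂ} {f g : ℝ → ℂ} (h : Ld n c f) (h' : Ld n c' g) :
    Ld n (c + c') (fun t => f t + g t) := by
  have := BO.add h h'
  unfold Ld
  convert this using 2
  ring

theorem Ld.sub {n : ℤ} {c c' : ℂ} {f g : ℝ → ℂ} (h : Ld n c f) (h' : Ld n c' g) :
    Ld n (c - c') (fun t => f t - g t) := by
  have := BO.sub h h'
  unfold Ld
  convert this using 2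
  ring

theorem BO.ld {n : ℤ} {f : ℝ → ℂ} (h : BO (n+1) f) : Ld n 0 f := by
  unfold Ld
  simpa using h

theorem Ld.mul {n n' : ℤ} {c c' : ℂ} {f g : ℝ → ℂ} (h : Ld n c f) (h' : Ld n' c' g) :
    Ld (n + n') (c * c') (fun t => f t * g t) := by
  have h1 : BO (n + n' + 1) (fun t => (f t - c * (t:ℂ)^n) * g t) :=
    (BO.mul (n := n + 1) h h'.bo).mono (by omega)
  have h2 : BO (n + n' + 1) (fun t => c * (t:ℂ)^n * (g t - c' * (t:ℂ)^n')) :=
    ((BO_pow n c).mul (n' := n' + 1) h').mono (by omega)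
  refine (h1.add h2).congr ?_
  filter_upwards [self_mem_nhdsWithin] with t ht
  have ht' : (t:ℂ) ≠ 0 := by exact_mod_cast ht
  rw [zpow_add₀ ht']
  ring

theorem Ld.congr {n : ℤ} {c : ℂ} {f g : ℝ → ℂ} (h : Ld n c f) (he : f =ᶠ[𝓝[≠] 0] g) : Ld n c g := by
  refine BO.congr h ?_
  filter_upwards [he] with t ht
  rw [ht]

theorem Ld.conj {n : ℤ} {c : ℂ} {f : ℝ → ℂ} (h : Ld n c f) :
    Ld n (starRingEnd ℂ c) (fun t => starRingEnd ℂ (f t)) := by
  have := BO.conj h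
  unfold Ld
  convert this using 2
  rw [map_sub, map_mul, map_zpow₀, Complex.conj_ofReal]

theorem Ld.ne {n : ℤ} {c : ℂ} {f : ℝ → ℂ} (h : Ld n c f) (hc : c ≠ 0) :
    ∀ᶠ t in 𝓝[≠] (0:ℝ), f t ≠ 0 := by
  obtain ⟨C, hC⟩ := isBigO_iff.1 h
  have h1 : ∀ᶠ t : ℝ in 𝓝[≠] 0, |C| * |t| < ‖c‖ := by
    have : ∀ᶠ t : ℝ in 𝓝 0, |C| * |t| < ‖c‖ := by
      have h2 : Tendsto (fun t : ℝ => |C| * |t|) (𝓝 0) (𝓝 (|C| * |0|)) :=
        (continuous_const.mul continuous_abs).tendsto 0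
      rw [abs_zero, mul_zero] at h2
      exact h2.eventually (gt_mem_nhds (norm_pos_iff.2 hc))
    exact eventually_nhdsWithin_of_eventually_nhds this
  filter_upwards [hC, h1, self_mem_nhdsWithin] with t h2 h3 ht h4
  have ht' : t ≠ 0 := ht
  rw [h4, zero_sub, norm_neg, norm_mul, norm_zpow, Complex.norm_real, Real.norm_eq_abs, norm_zpow,
    Real.norm_eq_abs, zpow_add₀ (abs_ne_zero.2 ht'), zpow_one] at h2
  have hp : 0 < |t| ^ n := zpow_pos (abs_pos.2 ht') n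
  have h5 : ‖c‖ * |t| ^ n ≤ (|C| * |t|) * |t| ^ n := by
    calc ‖c‖ * |t| ^ n ≤ C * (|t| ^ n * |t|) := h2
      _ ≤ |C| * (|t| ^ n * |t|) := by
        apply mul_le_mul_of_nonneg_right (le_abs_self C)
        positivity
      _ = _ := by ring
  have h6 := le_of_mul_le_mul_right h5 hp
  linarith

theorem Ld.inv {n : ℤ} {c : ℂ} {f : ℝ → ℂ} (h : Ld n c f) (hc : c ≠ 0) :
    BO (-n) (fun t => (f t)⁻¹) := by
  obtain ⟨C, hC⟩ := isBigO_iff.1 h
  have h1 : ∀ᶠ t : ℝ in 𝓝[≠] 0, |C| * |t| < ‖c‖ / 2 := by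
    have : ∀ᶠ t : ℝ in 𝓝 0, |C| * |t| < ‖c‖ / 2 := by
      have h2 : Tendsto (fun t : ℝ => |C| * |t|) (𝓝 0) (𝓝 (|C| * |0|)) :=
        (continuous_const.mul continuous_abs).tendsto 0
      rw [abs_zero, mul_zero] at h2
      exact h2.eventually (gt_mem_nhds (half_pos (norm_pos_iff.2 hc)))
    exact eventually_nhdsWithin_of_eventually_nhds this
  refine IsBigO.of_bound (2 / ‖c‖) ?_
  filter_upwards [hC, h1, self_mem_nhdsWithin] with t h2 h3 ht
  have ht' : t ≠ 0 := ht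
  have hp : 0 < |t| ^ n := zpow_pos (abs_pos.2 ht') n
  have hc' : 0 < ‖c‖ := norm_pos_iff.2 hc
  rw [norm_zpow, Real.norm_eq_abs, zpow_add₀ (abs_ne_zero.2 ht'), zpow_one] at h2
  have h5 : ‖f t - c * (t:ℂ) ^ n‖ ≤ ‖c‖ / 2 * |t| ^ n := by
    calc ‖f t - c * (t:ℂ) ^ n‖ ≤ C * (|t| ^ n * |t|) := h2
      _ ≤ |C| * (|t| ^ n * |t|) := by
        apply mul_le_mul_of_nonneg_right (le_abs_self C)
        positivity
      _ = (|C| * |t|) * |t| ^ n := by ring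
      _ ≤ _ := mul_le_mul_of_nonneg_right h3.le hp.le
  have h6 : ‖c * (t:ℂ) ^ n‖ = ‖c‖ * |t| ^ n := by
    rw [norm_mul, norm_zpow, Complex.norm_real, Real.norm_eq_abs]
  have h7 : ‖c‖ / 2 * |t| ^ n ≤ ‖f t‖ := by
    have h8 := norm_sub_norm_le (c * (t:ℂ) ^ n) (c * (t:ℂ) ^ n - f t)
    rw [sub_sub_cancel, norm_sub_rev, h6] at h8
    have h9 : ‖c‖ * |t| ^ n = ‖c‖ / 2 * |t| ^ n + ‖c‖ / 2 * |t| ^ n := by ring
    linarith
  have h10 : 0 < ‖c‖ / 2 * |t| ^ n := by positivity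
  rw [norm_inv, norm_zpow, Real.norm_eq_abs, zpow_neg]
  calc ‖f t‖⁻¹ ≤ (‖c‖ / 2 * |t| ^ n)⁻¹ := inv_anti₀ h10 h7
    _ = 2 / ‖c‖ * (|t| ^ n)⁻¹ := by rw [mul_inv, inv_div]

theorem Ld.inv' {n : ℤ} {c : ℂ} {f : ℝ → ℂ} (h : Ld n c f) (hc : c ≠ 0) :
    Ld (-n) c⁻¹ (fun t => (f t)⁻¹) := by
  have h1 : BO (-n + 1) (fun t => -((f t - c * (t:ℂ) ^ n) * (f t)⁻¹ * (c⁻¹ * (t:ℂ) ^ (-n)))) :=
    ((BO.mul (n := n + 1) h (h.inv hc)).mul (BO_pow (-n) c⁻¹)).neg.mono (by omega)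
  refine h1.congr ?_
  filter_upwards [h.ne hc, self_mem_nhdsWithin] with t ht ht0
  have ht' : (t:ℂ) ≠ 0 := by exact_mod_cast ht0
  have ht2 : (t:ℂ) ^ n ≠ 0 := zpow_ne_zero _ ht'
  rw [zpow_neg]
  field_simp
  ring

theorem Ld.const (a : ℂ) : Ld 0 a (fun _ => a) := by
  unfold Ld
  simp only [zpow_zero, mul_one, sub_self]
  exact isBigO_zero _ _

theorem Ld_of_analytic {g : ℝ → ℂ} (hg : AnalyticAt ℝ g 0) : Ld 0 (g 0) g := by
  unfold Ld
  simp only [zpow_zero, mul_one, zero_add]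
  have h1 := hg.differentiableAt.isBigO_sub
  have h2 := h1.mono (nhdsWithin_le_nhds (s := {0}ᶜ))
  simpa [BO] using h2

theorem Ld_pow (n : ℕ) : Ld n 1 (fun t => (t:ℂ) ^ n) := by
  unfold Ld
  simp only [zpow_natCast, one_mul, sub_self]
  exact isBigO_zero _ _

section germs

variable {γ : ℝ → V}

/-- The filter of neighbourhoods of the points `γ t`, `t → 0`, `t ≠ 0`. -/
noncomputable abbrev CO (γ : ℝ → V) : OFilter V := curveO (𝓝[≠] (0:ℝ)) γ

theorem CO_ev {γ : ℝ → V} {P : V → Prop} : (∀ᶠ p in (CO γ).f, P p) ↔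
    ∀ᶠ t in 𝓝[≠] (0:ℝ), ∀ᶠ p in 𝓝 (γ t), P p := eventually_bind

theorem CO_at {γ : ℝ → V} {P : V → Prop} (h : ∀ᶠ p in (CO γ).f, P p) :
    ∀ᶠ t in 𝓝[≠] (0:ℝ), P (γ t) := by
  rw [CO_ev] at h
  exact h.mono fun t ht => ht.self_of_nhds

theorem CO_of {γ : ℝ → V} {P : V → Prop} (hγ : Tendsto γ (𝓝[≠] 0) (𝓝 0))
    (h : ∀ᶠ p in 𝓝 (0:V), P p) : ∀ᶠ p in (CO γ).f, P p := by
  rw [CO_ev]
  exact hγ.eventually (eventually_eventually_nhds.2 h)

/-- Size of a germ on the curve. -/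
def O0 (n : ℤ) (g : AR (CO γ)) : Prop := ∃ φ h, mk φ h = g ∧ BO n (fun t => φ (γ t))

theorem O0_mk {n : ℤ} {φ : V → ℂ} {h : An (CO γ) φ} : O0 n (mk φ h) ↔ BO n (fun t => φ (γ t)) := by
  constructor
  · rintro ⟨ψ, h', he, hb⟩
    exact hb.congr (CO_at (mk_eq.1 he))
  · intro hb
    exact ⟨φ, h, rfl, hb⟩

theorem exists_inv_CO {n : ℤ} {c : ℂ} {φ : V → ℂ} {h : An (CO γ) φ}
    (hL : Ld n c (fun t => φ (γ t))) (hc : c ≠ 0) :
    ∃ g, mk φ h * g = 1 ∧ O0 (-n) g := by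
  have h0 : ∀ᶠ p in (CO γ).f, φ p ≠ 0 := by
    have h1 := hL.ne hc
    have h2 : ∀ᶠ t in 𝓝[≠] (0:ℝ), AnalyticAt ℝ φ (γ t) := CO_at h
    rw [CO_ev]
    filter_upwards [h1, h2] with t ht1 ht2
    exact ht2.continuousAt.eventually_ne ht1
  refine ⟨mk _ (h.inv h0), ?_, ?_⟩
  · rw [mk_mul, mk_one, mk_eq]
    filter_upwards [h0] with p hp
    exact mul_inv_cancel₀ hp
  · rw [O0_mk]
    exact hL.inv hc

theorem O0.mono {n n' : ℤ} {g : AR (CO γ)} (h : O0 n g) (hn : n' ≤ n) : O0 n' g := by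
  obtain ⟨φ, h1, rfl⟩ := exists_mk g
  rw [O0_mk] at h ⊢
  exact h.mono hn

theorem O0.add {n : ℤ} {f g : AR (CO γ)} (h : O0 n f) (h' : O0 n g) : O0 n (f + g) := by
  obtain ⟨φ, h1, rfl⟩ := exists_mk f
  obtain ⟨ψ, h2, rfl⟩ := exists_mk g
  rw [O0_mk] at h h'
  rw [mk_add, O0_mk]
  exact h.add h'

theorem O0.mul {n n' : ℤ} {f g : AR (CO γ)} (h : O0 n f) (h' : O0 n' g) : O0 (n + n') (f * g) := by
  obtain ⟨φ, h1, rfl⟩ := exists_mk f
  obtain ⟨ψ, h2, rfl⟩ := exists_mk g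
  rw [O0_mk] at h h'
  rw [mk_mul, O0_mk]
  exact h.mul h'

theorem O0.conj {n : ℤ} {g : AR (CO γ)} (h : O0 n g) : O0 n (cj g) := by
  obtain ⟨φ, h1, rfl⟩ := exists_mk g
  rw [O0_mk] at h
  rw [cj_mk, O0_mk]
  exact h.conj

/-- Weighted order `≥ n` together with `K` derivatives. -/
noncomputable def OK (m : ℤ) : ℕ → ℤ → AR (CO γ) → Prop
  | 0, n, g => O0 n g
  | K+1, n, g => O0 n g ∧ OK m K (n-1) (Dz g) ∧ OK m K (n-1) (Dzb g) ∧ OK m K (n-m) (Du g)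

/-- Weighted order `≥ n`. -/
def Or (m n : ℤ) (g : AR (CO γ)) : Prop := ∀ K, OK m K n g

variable {m : ℤ}

theorem OK.mono (K : ℕ) : ∀ {n n' : ℤ} {g : AR (CO γ)}, OK m K n g → n' ≤ n → OK m K n' g := by
  induction K with
  | zero => intro n n' g h hn; exact O0.mono h hn
  | succ K ih =>
    intro n n' g h hn
    exact ⟨h.1.mono hn, ih h.2.1 (by omega), ih h.2.2.1 (by omega), ih h.2.2.2 (by omega)⟩

theorem OK.o0 {K : ℕ} {n : ℤ} {g : AR (CO γ)} (h : OK m K n g) : O0 n g := by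
  cases K with
  | zero => exact h
  | succ K => exact h.1

theorem OK.down (K : ℕ) : ∀ {n : ℤ} {g : AR (CO γ)}, OK m (K+1) n g → OK m K n g := by
  induction K with
  | zero => intro n g h; exact h.1
  | succ K ih => intro n g h; exact ⟨h.1, ih h.2.1, ih h.2.2.1, ih h.2.2.2⟩

theorem OK.add (K : ℕ) : ∀ {n : ℤ} {f g : AR (CO γ)}, OK m K n f → OK m K n g → OK m K n (f + g) := by
  induction K with
  | zero => intro n f g h h'; exact O0.add h h'
  | succ K ih =>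
    intro n f g h h'
    refine ⟨h.1.add h'.1, ?_, ?_, ?_⟩
    · rw [map_add]; exact ih h.2.1 h'.2.1
    · rw [map_add]; exact ih h.2.2.1 h'.2.2.1
    · rw [map_add]; exact ih h.2.2.2 h'.2.2.2

theorem OK.mul (K : ℕ) : ∀ {n n' : ℤ} {f g : AR (CO γ)}, OK m K n f → OK m K n' g →
    OK m K (n + n') (f * g) := by
  induction K with
  | zero => intro n n' f g h h'; exact O0.mul h h'
  | succ K ih =>
    intro n n' f g h h'
    refine ⟨h.1.mul h'.1, ?_, ?_, ?_⟩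
    · rw [lbz]
      exact (OK.add K ((ih h.2.1 h'.down).mono K (by omega))
        ((ih h.down h'.2.1).mono K (by omega)))
    · rw [lbz]
      exact (OK.add K ((ih h.2.2.1 h'.down).mono K (by omega))
        ((ih h.down h'.2.2.1).mono K (by omega)))
    · rw [lbz]
      exact (OK.add K ((ih h.2.2.2 h'.down).mono K (by omega))
        ((ih h.down h'.2.2.2).mono K (by omega)))

theorem OK.conj (K : ℕ) : ∀ {n : ℤ} {g : AR (CO γ)}, OK m K n g → OK m K n (cj g) := by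
  induction K with
  | zero => intro n g h; exact O0.conj h
  | succ K ih =>
    intro n g h
    refine ⟨h.1.conj, ?_, ?_, ?_⟩
    · rw [← cj_Dzb]; exact ih h.2.2.1
    · rw [← cj_Dz]; exact ih h.2.1
    · rw [← cj_Du]; exact ih h.2.2.2

theorem Or.mono {n n' : ℤ} {g : AR (CO γ)} (h : Or m n g) (hn : n' ≤ n) : Or m n' g :=
  fun K => (h K).mono K hn
theorem Or.add {n : ℤ} {f g : AR (CO γ)} (h : Or m n f) (h' : Or m n g) : Or m n (f + g) :=
  fun K => (h K).add K (h' K)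
theorem Or.mul {n n' : ℤ} {f g : AR (CO γ)} (h : Or m n f) (h' : Or m n' g) :
    Or m (n + n') (f * g) :=
  fun K => (h K).mul K (h' K)
theorem Or.mul' {n n' k : ℤ} {f g : AR (CO γ)} (h : Or m n f) (h' : Or m n' g)
    (hk : k ≤ n + n') : Or m k (f * g) := (h.mul h').mono hk
theorem Or.conj {n : ℤ} {g : AR (CO γ)} (h : Or m n g) : Or m n (cj g) :=
  fun K => (h K).conj K
theorem Or.o0 {n : ℤ} {g : AR (CO γ)} (h : Or m n g) : O0 n g := h 0
theorem Or.dz {n : ℤ} {g : AR (CO γ)} (h : Or m n g) : Or m (n-1) (Dz g) := fun K => (h (K+1)).2.1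
theorem Or.dzb {n : ℤ} {g : AR (CO γ)} (h : Or m n g) : Or m (n-1) (Dzb g) :=
  fun K => (h (K+1)).2.2.1
theorem Or.du {n : ℤ} {g : AR (CO γ)} (h : Or m n g) : Or m (n-m) (Du g) :=
  fun K => (h (K+1)).2.2.2

theorem O0_zero (n : ℤ) : O0 n (0 : AR (CO γ)) := by
  rw [mk_zero, O0_mk]
  exact isBigO_zero _ _

theorem OK_zero (K : ℕ) : ∀ n : ℤ, OK m K n (0 : AR (CO γ)) := by
  induction K with
  | zero => intro n; exact O0_zero n
  | succ K ih =>
    intro n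
    refine ⟨O0_zero n, ?_, ?_, ?_⟩
    · rw [map_zero]; exact ih _
    · rw [map_zero]; exact ih _
    · rw [map_zero]; exact ih _

theorem Or_zero (n : ℤ) : Or m n (0 : AR (CO γ)) := fun K => OK_zero K n

theorem Or_cst (a : ℂ) : Or m 0 (cst (CO γ) a) := by
  intro K
  have h0 : O0 0 (cst (CO γ) a) := by
    unfold cst; rw [O0_mk]; exact BO.const a
  cases K with
  | zero => exact h0
  | succ K =>
    refine ⟨h0, ?_, ?_, ?_⟩
    · rw [Dz_cst]; exact OK_zero _ _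
    · rw [Dzb_cst]; exact OK_zero _ _
    · rw [Du_cst]; exact OK_zero _ _

theorem Or_nat (k : ℕ) : Or m 0 ((k : ℕ) : AR (CO γ)) := by
  rw [mk_nat]; exact Or_cst _

theorem Or_ofNat (k : ℕ) [k.AtLeastTwo] : Or m 0 (OfNat.ofNat k : AR (CO γ)) := by
  have := Or_nat (γ := γ) (m := m) k
  exact this

theorem Or_one : Or m 0 (1 : AR (CO γ)) := by
  have := Or_nat (γ := γ) (m := m) 1
  rwa [Nat.cast_one] at this

theorem Or.neg {n : ℤ} {g : AR (CO γ)} (h : Or m n g) : Or m n (-g) := by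
  have : -g = cst _ (-1) * g := by
    have : cst (CO γ) (-1) = -1 := by
      rw [mk_one, mk_neg]; rfl
    rw [this]; ring
  rw [this]
  exact ((Or_cst _).mul h).mono (by omega)

theorem Or.sub {n : ℤ} {f g : AR (CO γ)} (h : Or m n f) (h' : Or m n g) : Or m n (f - g) := by
  rw [sub_eq_add_neg]; exact h.add h'.neg

theorem Or.cmul {n : ℤ} {g : AR (CO γ)} (h : Or m n g) (k : ℕ) [k.AtLeastTwo] :
    Or m n ((OfNat.ofNat k : AR (CO γ)) * g) :=
  ((Or_ofNat k).mul h).mono (by omega)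

theorem Or.inv {n : ℤ} {f g : AR (CO γ)} (hfg : f * g = 1) (h : Or m n f) (h' : O0 (-n) g) :
    Or m (-n) g := by
  have hd : ∀ d : Derivation ℤ (AR (CO γ)) (AR (CO γ)), d g = - (g * g * d f) := by
    intro d
    have h1 := congrArg d hfg
    rw [lbz, Derivation.map_one_eq_zero] at h1
    linear_combination g * h1 - d g * hfg
  intro K
  induction K with
  | zero => exact h'
  | succ K ih =>
    have hneg : ∀ {k : ℤ} {q : AR (CO γ)}, OK m K k q → OK m K k (-q) := by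
      intro k q hq
      have : -q = cst _ (-1) * q := by
        have : cst (CO γ) (-1) = -1 := by
          rw [mk_one, mk_neg]; rfl
        rw [this]; ring
      rw [this]
      exact ((Or_cst _ K).mul K hq).mono K (by omega)
    refine ⟨h', ?_, ?_, ?_⟩
    · rw [hd]
      exact hneg (((ih.mul K ih).mul K (h.dz K)).mono K (by omega))
    · rw [hd]
      exact hneg (((ih.mul K ih).mul K (h.dzb K)).mono K (by omega))
    · rw [hd]
      exact hneg (((ih.mul K ih).mul K (h.du K)).mono K (by omega))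

end germs

end Pool.Agent.H213
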