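import Pool.Agent.H213.Alg

/-! Rings of germs of real-analytic functions along a filter. -/

open Filter Topology

namespace Pool.Agent.H213

/-- A filter each of whose sets is a neighbourhood of most points. -/
structure OFilter (E : Type*) [TopologicalSpace E] where
  f : Filter E
  h : ∀ P : E → Prop, (∀ᶠ x in f, P x) → ∀ᶠ x in f, ∀ᶠ y in 𝓝 x, P y

/-- Neighbourhoods of a point. -/
def nhdsO {E : Type*} [TopologicalSpace E] (x : E) : OFilter E :=
  ⟨𝓝 x, fun _ h => eventually_eventually_nhds.2 h⟩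

/-- Neighbourhoods of a filtered family of points. -/
def curveO {E ι : Type*} [TopologicalSpace E] (l : Filter ι) (c : ι → E) : OFilter E :=
  ⟨l.bind (fun i => 𝓝 (c i)), by
    intro P h
    rw [eventually_bind] at h ⊢
    exact h.mono fun i hi => eventually_eventually_nhds.2 hi⟩

variable {E : Type*} [NormedAddCommGroup E] [NormedSpace ℝ E] {F : OFilter E}

variable (F) in
/-- Real-analytic near the points of the filter. -/
def An (φ : E → ℂ) : Prop := ∀ᶠ p in F.f, AnalyticAt ℝ φ p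

theorem analytic_conj {φ : E → ℂ} {p : E} (hp : AnalyticAt ℝ φ p) :
    AnalyticAt ℝ (fun p => starRingEnd ℂ (φ p)) p :=
  (ContinuousLinearMap.analyticAt (Complex.conjCLE : ℂ →L[ℝ] ℂ) (φ p)).comp hp

theorem analytic_D {φ : E → ℂ} {p : E} (h : AnalyticAt ℝ φ p) (v : E) :
    AnalyticAt ℝ (fun q => fderiv ℝ φ q v) p :=
  (ContinuousLinearMap.analyticAt (ContinuousLinearMap.apply ℝ ℂ v) (fderiv ℝ φ p)).comp h.fderiv

theorem An.const (a : ℂ) : An F (fun _ => a) := Eventually.of_forall fun _ => analyticAt_const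
theorem An.add {φ ψ : E → ℂ} (h : An F φ) (h' : An F ψ) : An F (fun p => φ p + ψ p) := by
  filter_upwards [h, h'] with p a b using a.add b
theorem An.sub {φ ψ : E → ℂ} (h : An F φ) (h' : An F ψ) : An F (fun p => φ p - ψ p) := by
  filter_upwards [h, h'] with p a b using a.sub b
theorem An.mul {φ ψ : E → ℂ} (h : An F φ) (h' : An F ψ) : An F (fun p => φ p * ψ p) := by
  filter_upwards [h, h'] with p a b using a.mul b
theorem An.neg {φ : E → ℂ} (h : An F φ) : An F (fun p => - φ p) := by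
  filter_upwards [h] with p a using a.neg
theorem An.inv {φ : E → ℂ} (h : An F φ) (h0 : ∀ᶠ p in F.f, φ p ≠ 0) : An F (fun p => (φ p)⁻¹) := by
  filter_upwards [h, h0] with p a b using a.inv b
theorem An.div {φ ψ : E → ℂ} (h : An F φ) (h' : An F ψ) (h0 : ∀ᶠ p in F.f, ψ p ≠ 0) :
    An F (fun p => φ p / ψ p) := by
  filter_upwards [h, h', h0] with p a b c using a.div b c
theorem An.conj {φ : E → ℂ} (h : An F φ) : An F (fun p => starRingEnd ℂ (φ p)) := by
  filter_upwards [h] with p a using analytic_conj a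
theorem An.D {φ : E → ℂ} (h : An F φ) (v : E) : An F (fun q => fderiv ℝ φ q v) := by
  filter_upwards [h] with p a using analytic_D a v

variable (F) in
/-- The ring of germs of real-analytic functions along a filter. -/
def AR : Subring (Germ F.f ℂ) where
  carrier := {g | ∃ φ : E → ℂ, An F φ ∧ (φ : Germ F.f ℂ) = g}
  mul_mem' := by
    rintro _ _ ⟨φ, h, rfl⟩ ⟨ψ, h', rfl⟩
    exact ⟨φ * ψ, h.mul h', rfl⟩
  one_mem' := ⟨fun _ => 1, An.const 1, rfl⟩
  add_mem' := by
    rintro _ _ ⟨φ, h, rfl⟩ ⟨ψ, h', rfl⟩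
    exact ⟨φ + ψ, h.add h', rfl⟩
  zero_mem' := ⟨fun _ => 0, An.const 0, rfl⟩
  neg_mem' := by
    rintro _ ⟨φ, h, rfl⟩
    exact ⟨-φ, h.neg, rfl⟩

theorem mem_AR {φ : E → ℂ} (h : An F φ) : (φ : Germ F.f ℂ) ∈ AR F := ⟨φ, h, rfl⟩

/-- The germ of a function. -/
def mk (φ : E → ℂ) (h : An F φ) : AR F := ⟨(φ : Germ F.f ℂ), mem_AR h⟩

theorem mk_eq {φ ψ : E → ℂ} {h : An F φ} {h' : An F ψ} : mk φ h = mk ψ h' ↔ φ =ᶠ[F.f] ψ := by
  rw [Subtype.ext_iff]
  exact Germ.coe_eq

theorem exists_mk (g : AR F) : ∃ φ : E → ℂ, ∃ h : An F φ, mk φ h = g := by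
  obtain ⟨g, φ, h, rfl⟩ := g
  exact ⟨φ, h, rfl⟩

theorem mk_add {φ ψ : E → ℂ} (h : An F φ) (h' : An F ψ) :
    mk φ h + mk ψ h' = mk (fun p => φ p + ψ p) (h.add h') := rfl

theorem mk_sub {φ ψ : E → ℂ} (h : An F φ) (h' : An F ψ) :
    mk φ h - mk ψ h' = mk (fun p => φ p - ψ p) (h.sub h') := rfl

theorem mk_mul {φ ψ : E → ℂ} (h : An F φ) (h' : An F ψ) :
    mk φ h * mk ψ h' = mk (fun p => φ p * ψ p) (h.mul h') := rfl

theorem mk_neg {φ : E → ℂ} (h : An F φ) : - mk φ h = mk (fun p => - φ p) h.neg := rfl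

variable (F) in
/-- A constant. -/
def cst (a : ℂ) : AR F := mk (fun _ => a) (An.const a)

theorem mk_one : (1 : AR F) = mk (fun _ => 1) (An.const 1) := rfl
theorem mk_zero : (0 : AR F) = mk (fun _ => 0) (An.const 0) := rfl

theorem mk_nat (n : ℕ) : ((n : ℕ) : AR F) = cst F (n : ℂ) := by
  induction n with
  | zero => simp only [Nat.cast_zero]; rfl
  | succ n ih => rw [Nat.cast_succ, ih, Nat.cast_succ]; rfl

/-- Directional derivative on germs. -/
noncomputable def Dfun (v : E) (g : AR F) : AR F :=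
  mk (fun p => fderiv ℝ (exists_mk g).choose p v) ((exists_mk g).choose_spec.choose.D v)

theorem Dfun_mk (v : E) {φ : E → ℂ} (h : An F φ) :
    Dfun v (mk φ h) = mk (fun p => fderiv ℝ φ p v) (h.D v) := by
  unfold Dfun
  rw [mk_eq]
  have h1 := (exists_mk (mk φ h)).choose_spec.choose_spec
  rw [mk_eq] at h1
  filter_upwards [F.h _ h1] with p hp
  rw [EventuallyEq.fderiv_eq hp]

theorem Dfun_zero (v : E) : Dfun v (0 : AR F) = 0 := by
  rw [mk_zero, Dfun_mk, mk_eq]
  filter_upwards with p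
  simp

theorem Dfun_add (v : E) (f g : AR F) : Dfun v (f + g) = Dfun v f + Dfun v g := by
  obtain ⟨φ, h, rfl⟩ := exists_mk f
  obtain ⟨ψ, h', rfl⟩ := exists_mk g
  rw [mk_add, Dfun_mk, Dfun_mk, Dfun_mk, mk_add, mk_eq]
  filter_upwards [h, h'] with p a b
  rw [fderiv_fun_add a.differentiableAt b.differentiableAt]
  rfl

theorem Dfun_mul (v : E) (f g : AR F) : Dfun v (f * g) = f * Dfun v g + g * Dfun v f := by
  obtain ⟨φ, h, rfl⟩ := exists_mk f
  obtain ⟨ψ, h', rfl⟩ := exists_mk g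
  rw [mk_mul, Dfun_mk, Dfun_mk, Dfun_mk, mk_mul, mk_mul, mk_add, mk_eq]
  filter_upwards [h, h'] with p a b
  rw [fderiv_fun_mul a.differentiableAt b.differentiableAt]
  simp

/-- Directional derivative as a derivation. -/
noncomputable def D (v : E) : Derivation ℤ (AR F) (AR F) :=
  Derivation.mk'
    (AddMonoidHom.toIntLinearMap
      { toFun := Dfun v
        map_zero' := Dfun_zero v
        map_add' := Dfun_add v })
    (fun f g => Dfun_mul v f g)

theorem D_mk (v : E) {φ : E → ℂ} (h : An F φ) :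
    D v (mk φ h) = mk (fun p => fderiv ℝ φ p v) (h.D v) := Dfun_mk v h

theorem D_cst (v : E) (a : ℂ) : D v (cst F a) = 0 := by
  unfold cst
  rw [D_mk, mk_zero, mk_eq]
  filter_upwards with p
  simp

theorem D_comm (v w : E) (g : AR F) : D v (D w g) = D w (D v g) := by
  obtain ⟨φ, h, rfl⟩ := exists_mk g
  rw [D_mk, D_mk, D_mk, D_mk, mk_eq]
  filter_upwards [h] with p hp
  have hs : IsSymmSndFDerivAt ℝ φ p := by
    apply ContDiffAt.isSymmSndFDerivAt (n := ⊤) hp.contDiffAt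
    simp
  have hd : DifferentiableAt ℝ (fderiv ℝ φ) p := hp.fderiv.differentiableAt
  have e : ∀ v w : E, fderiv ℝ (fun q => fderiv ℝ φ q w) p v = fderiv ℝ (fderiv ℝ φ) p v w := by
    intro v w
    rw [fderiv_clm_apply hd (differentiableAt_const w)]
    simp
  rw [e, e]
  exact hs v w

theorem cj_mem (g : AR F) : g.1.map (starRingEnd ℂ) ∈ AR F := by
  obtain ⟨g, φ, h, rfl⟩ := g
  exact ⟨fun p => starRingEnd ℂ (φ p), h.conj, rfl⟩

/-- Conjugation. -/
noncomputable def cjf (g : AR F) : AR F := ⟨g.1.map (starRingEnd ℂ), cj_mem g⟩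

theorem cjf_mk {φ : E → ℂ} (h : An F φ) :
    cjf (mk φ h) = mk (fun p => starRingEnd ℂ (φ p)) h.conj := rfl

/-- Conjugation as a ring homomorphism. -/
noncomputable def cj : AR F →+* AR F where
  toFun := cjf
  map_one' := by
    rw [mk_one, cjf_mk, mk_eq]
    filter_upwards with p
    exact map_one _
  map_zero' := by
    rw [mk_zero, cjf_mk, mk_eq]
    filter_upwards with p
    exact map_zero _
  map_mul' := by
    intro f g
    obtain ⟨φ, h, rfl⟩ := exists_mk f
    obtain ⟨ψ, h', rfl⟩ := exists_mk g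
    rw [mk_mul, cjf_mk, cjf_mk, cjf_mk, mk_mul, mk_eq]
    filter_upwards with p
    exact map_mul _ _ _
  map_add' := by
    intro f g
    obtain ⟨φ, h, rfl⟩ := exists_mk f
    obtain ⟨ψ, h', rfl⟩ := exists_mk g
    rw [mk_add, cjf_mk, cjf_mk, cjf_mk, mk_add, mk_eq]
    filter_upwards with p
    exact map_add _ _ _

theorem cj_mk {φ : E → ℂ} (h : An F φ) :
    cj (mk φ h) = mk (fun p => starRingEnd ℂ (φ p)) h.conj := rfl

theorem cj_cj (g : AR F) : cj (cj g) = g := by
  obtain ⟨φ, h, rfl⟩ := exists_mk g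
  rw [cj_mk, cj_mk, mk_eq]
  filter_upwards with p
  simp

theorem cj_cst (a : ℂ) : cj (cst F a) = cst F (starRingEnd ℂ a) := rfl

theorem cj_D (v : E) (g : AR F) : cj (D v g) = D v (cj g) := by
  obtain ⟨φ, h, rfl⟩ := exists_mk g
  rw [D_mk, cj_mk, cj_mk, D_mk, mk_eq]
  filter_upwards [h] with p hp
  have e : HasFDerivAt (fun p => starRingEnd ℂ (φ p))
      ((Complex.conjCLE : ℂ →L[ℝ] ℂ).comp (fderiv ℝ φ p)) p :=
    (Complex.conjCLE : ℂ →L[ℝ] ℂ).hasFDerivAt.comp p hp.differentiableAt.hasFDerivAt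
  rw [e.fderiv]
  rfl

end Pool.Agent.H213
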