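import Pool.Agent.H213.Ring

/-! Values, ideals of vanishing order, and the operators `L`, `Lb`, `T` on germs. -/

open Filter Topology

namespace Pool.Agent.H213

section ev
variable {E : Type*} [NormedAddCommGroup E] [NormedSpace ℝ E]

/-- Value of a germ at the base point. -/
noncomputable def ev (x₀ : E) : AR (nhdsO x₀) →+* ℂ :=
  (Germ.valueRingHom (X := E) (x := x₀) (E := ℂ)).comp (AR (nhdsO x₀)).subtype

theorem ev_mk {x₀ : E} {φ : E → ℂ} (h : An (nhdsO x₀) φ) : ev x₀ (mk φ h) = φ x₀ := rfl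

theorem ev_cst {x₀ : E} (a : ℂ) : ev x₀ (cst (nhdsO x₀) a) = a := rfl

theorem ev_cj {x₀ : E} (g : AR (nhdsO x₀)) : ev x₀ (cj g) = starRingEnd ℂ (ev x₀ g) := by
  obtain ⟨φ, h, rfl⟩ := exists_mk g
  rfl

theorem exists_inv {x₀ : E} (g : AR (nhdsO x₀)) (h : ev x₀ g ≠ 0) : ∃ g', g * g' = 1 := by
  obtain ⟨φ, hφ, rfl⟩ := exists_mk g
  rw [ev_mk] at h
  have h0 : ∀ᶠ p in (nhdsO x₀).f, φ p ≠ 0 := by
    have ha : AnalyticAt ℝ φ x₀ := hφ.self_of_nhds
    exact ha.continuousAt.eventually_ne h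
  refine ⟨mk _ (hφ.inv h0), ?_⟩
  rw [mk_mul, mk_one, mk_eq]
  filter_upwards [h0] with p hp
  exact mul_inv_cancel₀ hp

/-- Vanishing to order `k` at the base point. -/
def inJ (x₀ : E) : ℕ → AR (nhdsO x₀) → Prop
  | 0, _ => True
  | k+1, g => ev x₀ g = 0 ∧ ∀ v, inJ x₀ k (D v g)

variable {x₀ : E}

theorem inJ_anti (k : ℕ) : ∀ g, inJ x₀ (k+1) g → inJ x₀ k g := by
  induction k with
  | zero => intro g _; trivial
  | succ k ih => intro g hg; exact ⟨hg.1, fun v => ih _ (hg.2 v)⟩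

theorem inJ_zero (k : ℕ) : inJ x₀ k 0 := by
  induction k with
  | zero => trivial
  | succ k ih => exact ⟨map_zero _, fun v => by rw [map_zero]; exact ih⟩

theorem inJ_add (k : ℕ) : ∀ f g, inJ x₀ k f → inJ x₀ k g → inJ x₀ k (f + g) := by
  induction k with
  | zero => intros; trivial
  | succ k ih =>
    intro f g hf hg
    exact ⟨by rw [map_add, hf.1, hg.1, add_zero], fun v => by
      rw [map_add]; exact ih _ _ (hf.2 v) (hg.2 v)⟩

theorem D_mul (v : E) {F : OFilter E} (f g : AR F) : D v (f * g) = f * D v g + g * D v f :=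
  Dfun_mul v f g

theorem inJ_mul (k : ℕ) : ∀ f g, inJ x₀ k g → inJ x₀ k (f * g) := by
  induction k with
  | zero => intros; trivial
  | succ k ih =>
    intro f g hg
    refine ⟨by rw [map_mul, hg.1, mul_zero], fun v => ?_⟩
    rw [D_mul]
    refine inJ_add _ _ _ (ih _ _ (hg.2 v)) ?_
    rw [mul_comm]
    exact ih _ _ (inJ_anti _ _ hg)

theorem inJ_mul1 (k : ℕ) : ∀ f g, inJ x₀ k f → inJ x₀ 1 g → inJ x₀ (k+1) (f * g) := by
  induction k with
  | zero => intro f g _ hg; exact inJ_mul 1 _ _ hg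
  | succ k ih =>
    intro f g hf hg
    refine ⟨by rw [map_mul, hf.1, zero_mul], fun v => ?_⟩
    rw [D_mul]
    refine inJ_add _ _ _ ?_ ?_
    · rw [mul_comm]; exact inJ_mul _ _ _ hf
    · rw [mul_comm]; exact ih _ _ (hf.2 v) hg

theorem inJ_cj (k : ℕ) : ∀ g, inJ x₀ k g → inJ x₀ k (cj g) := by
  induction k with
  | zero => intros; trivial
  | succ k ih =>
    intro g hg
    refine ⟨by rw [ev_cj, hg.1, map_zero], fun v => ?_⟩
    rw [← cj_D]
    exact ih _ (hg.2 v)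

variable (x₀) in
/-- The ideal of germs vanishing to order `k`. -/
def Jid (k : ℕ) : Ideal (AR (nhdsO x₀)) where
  carrier := {g | inJ x₀ k g}
  add_mem' := fun ha hb => inJ_add k _ _ ha hb
  zero_mem' := inJ_zero k
  smul_mem' := fun c g hg => inJ_mul k c g hg

theorem mem_Jid {k : ℕ} {g : AR (nhdsO x₀)} : g ∈ Jid x₀ k ↔ inJ x₀ k g := Iff.rfl

theorem Jid_one {g : AR (nhdsO x₀)} : g ∈ Jid x₀ 1 ↔ ev x₀ g = 0 :=
  ⟨fun h => h.1, fun h => ⟨h, fun _ => trivial⟩⟩

theorem Jid_D {k : ℕ} {g : AR (nhdsO x₀)} (h : g ∈ Jid x₀ (k+1)) (v : E) : D v g ∈ Jid x₀ k :=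
  h.2 v

end ev

section ops

/-- The parameter space of the hypersurface. -/
abbrev V := ℂ × ℝ

/-- Derivative in `z`. -/
noncomputable def dz (f : V → ℂ) (p : V) : ℂ :=
  (1 / 2 : ℂ) * (fderiv ℝ f p (1, 0) - Complex.I * fderiv ℝ f p (Complex.I, 0))
/-- Derivative in `z` conjugate. -/
noncomputable def dzb (f : V → ℂ) (p : V) : ℂ :=
  (1 / 2 : ℂ) * (fderiv ℝ f p (1, 0) + Complex.I * fderiv ℝ f p (Complex.I, 0))
/-- Derivative in `u`. -/
noncomputable def du (f : V → ℂ) (p : V) : ℂ := fderiv ℝ f p (0, 1)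

variable {F : OFilter V}

theorem An.dz {φ : V → ℂ} (h : An F φ) : An F (dz φ) :=
  (An.const (1/2)).mul ((h.D (1, 0)).sub ((An.const Complex.I).mul (h.D (Complex.I, 0))))
theorem An.dzb {φ : V → ℂ} (h : An F φ) : An F (dzb φ) :=
  (An.const (1/2)).mul ((h.D (1, 0)).add ((An.const Complex.I).mul (h.D (Complex.I, 0))))
theorem An.du {φ : V → ℂ} (h : An F φ) : An F (du φ) := h.D (0, 1)

/-- Derivation in `z`. -/
noncomputable def Dz : Derivation ℤ (AR F) (AR F) :=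
  cst F (1/2) • (D ((1, 0) : V) - cst F Complex.I • D ((Complex.I, 0) : V))
/-- Derivation in `z` conjugate. -/
noncomputable def Dzb : Derivation ℤ (AR F) (AR F) :=
  cst F (1/2) • (D ((1, 0) : V) + cst F Complex.I • D ((Complex.I, 0) : V))
/-- Derivation in `u`. -/
noncomputable def Du : Derivation ℤ (AR F) (AR F) := D ((0, 1) : V)

theorem Dz_apply (f : AR F) : Dz f =
    cst F (1/2) * (D ((1, 0) : V) f - cst F Complex.I * D ((Complex.I, 0) : V) f) := rfl
theorem Dzb_apply (f : AR F) : Dzb f =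
    cst F (1/2) * (D ((1, 0) : V) f + cst F Complex.I * D ((Complex.I, 0) : V) f) := rfl
theorem Du_apply (f : AR F) : Du f = D ((0, 1) : V) f := rfl

theorem Dz_mk {φ : V → ℂ} (h : An F φ) : Dz (mk φ h) = mk (dz φ) h.dz := by
  rw [Dz_apply, D_mk, D_mk]; rfl
theorem Dzb_mk {φ : V → ℂ} (h : An F φ) : Dzb (mk φ h) = mk (dzb φ) h.dzb := by
  rw [Dzb_apply, D_mk, D_mk]; rfl
theorem Du_mk {φ : V → ℂ} (h : An F φ) : Du (mk φ h) = mk (du φ) h.du := by
  rw [Du_apply, D_mk]; rfl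

theorem Dzb_Dz (f : AR F) : Dzb (Dz f) = Dz (Dzb f) := by
  simp only [Dzb_apply, Dz_apply, D_mul, D_cst, map_add, map_sub]
  rw [D_comm ((1, 0) : V) (Complex.I, 0)]
  ring

theorem Du_Dz (f : AR F) : Du (Dz f) = Dz (Du f) := by
  rw [Du_apply, Dz_apply, Dz_apply, D_mul, D_cst, map_sub, D_mul, D_cst, Du_apply,
    D_comm ((0, 1) : V) (Complex.I, 0), D_comm ((0, 1) : V) (1, 0)]
  ring

theorem Du_Dzb (f : AR F) : Du (Dzb f) = Dzb (Du f) := by
  rw [Du_apply, Dzb_apply, Dzb_apply, D_mul, D_cst, map_add, D_mul, D_cst, Du_apply,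
    D_comm ((0, 1) : V) (Complex.I, 0), D_comm ((0, 1) : V) (1, 0)]
  ring

theorem cj_Dz (f : AR F) : cj (Dz f) = Dzb (cj f) := by
  rw [Dz_apply, Dzb_apply, map_mul, map_sub, map_mul, cj_cst, cj_cst, cj_D, cj_D]
  have e1 : starRingEnd ℂ (1/2) = 1/2 := by
    rw [map_div₀, map_one, map_ofNat]
  have e2 : cst F (starRingEnd ℂ Complex.I) = - cst F Complex.I := by
    rw [Complex.conj_I]; rfl
  rw [e1, e2]; ring

theorem cj_Dzb (f : AR F) : cj (Dzb f) = Dz (cj f) := by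
  have := cj_Dz (cj f)
  rw [cj_cj] at this
  rw [← this, cj_cj]

theorem cj_Du (f : AR F) : cj (Du f) = Du (cj f) := cj_D _ _

theorem Dz_cst (a : ℂ) : Dz (cst F a) = 0 := by
  rw [Dz_apply, D_cst, D_cst]; ring
theorem Dzb_cst (a : ℂ) : Dzb (cst F a) = 0 := by
  rw [Dzb_apply, D_cst, D_cst]; ring
theorem Du_cst (a : ℂ) : Du (cst F a) = 0 := by
  rw [Du_apply, D_cst]

theorem lbz (d : Derivation ℤ (AR F) (AR F)) (f g : AR F) : d (f * g) = d f * g + f * d g := by
  rw [Derivation.leibniz]; simp only [smul_eq_mul]; ring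

/-- The operator `L` determined by `a`. -/
noncomputable def LL (a : AR F) : Derivation ℤ (AR F) (AR F) := Dz + a • Du
/-- The conjugate operator. -/
noncomputable def LLb (a : AR F) : Derivation ℤ (AR F) (AR F) := Dzb + cj a • Du

theorem LL_apply (a f : AR F) : LL a f = Dz f + a * Du f := rfl
theorem LLb_apply (a f : AR F) : LLb a f = Dzb f + cj a * Du f := rfl

/-- The structure of `CRRing` on germs at a point. -/
noncomputable def crOf {x₀ : V} (a : AR (nhdsO x₀)) : CRRing (AR (nhdsO x₀)) where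
  L := LL a
  Lb := LLb a
  T := Du
  cj := cj
  J := Jid x₀
  i := cst _ Complex.I
  h := cst _ (1/2)
  au := Du a
  ell := LLb a a - LL a (cj a)
  hi := by
    unfold cst
    rw [mk_mul, mk_one, mk_neg, mk_eq]
    filter_upwards with p
    simp
  hh := by
    rw [← Nat.cast_two, mk_nat]
    unfold cst
    rw [mk_mul, mk_one, mk_eq]
    filter_upwards with p
    norm_num
  Li := by rw [LL_apply, Dz_cst, Du_cst]; ring
  Lbi := by rw [LLb_apply, Dzb_cst, Du_cst]; ring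
  Ti := Du_cst _
  cji := by
    rw [cj_cst, Complex.conj_I]; rfl
  cjcj := cj_cj
  cjL := fun f => by rw [LL_apply, LLb_apply, map_add, map_mul, cj_Dz, cj_Du]
  cjT := fun f => cj_Du f
  cjell := by
    rw [map_sub, LLb_apply, LL_apply, map_add, map_add, map_mul, map_mul, cj_Dzb,
      cj_Dz, cj_cj, cj_Du, cj_Du, cj_cj]
    ring
  LbL := fun f => by
    rw [LL_apply a f, LLb_apply a f, map_add, map_add, lbz, lbz]
    rw [LLb_apply a (Dz f), LLb_apply a (Du f), LL_apply a (Dzb f), LL_apply a (Du f), Dzb_Dz,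
      Du_Dz, Du_Dzb]
    ring
  TL := fun f => by
    rw [LL_apply, LL_apply, map_add, lbz, Du_Dz]; ring
  Tell := by
    rw [map_sub, LLb_apply, LL_apply, LLb_apply, LL_apply, map_add, map_add, lbz, lbz, Du_Dzb, Du_Dz,
      cj_Du]
    ring
  anti := fun k g hg => inJ_anti k g hg
  JL := fun k f hf => by
    rw [LL_apply, Dz_apply, Du_apply]
    exact (Jid x₀ k).add_mem ((Jid x₀ k).mul_mem_left _ ((Jid x₀ k).sub_mem (Jid_D hf _)
      ((Jid x₀ k).mul_mem_left _ (Jid_D hf _)))) ((Jid x₀ k).mul_mem_left _ (Jid_D hf _))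
  JLb := fun k f hf => by
    rw [LLb_apply, Dzb_apply, Du_apply]
    exact (Jid x₀ k).add_mem ((Jid x₀ k).mul_mem_left _ ((Jid x₀ k).add_mem (Jid_D hf _)
      ((Jid x₀ k).mul_mem_left _ (Jid_D hf _)))) ((Jid x₀ k).mul_mem_left _ (Jid_D hf _))
  JT := fun k f hf => Jid_D hf _
  Jcj := fun k f hf => inJ_cj k f hf

end ops

end Pool.Agent.H213
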