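import Pool.Agent.H213.Ex

/-! Orders of the invariants along a curve. -/

open Filter Topology Asymptotics

namespace Pool.Agent.H213

open Complex (I)

variable {γ : ℝ → V}

theorem Or.LL {m α n k : ℤ} {a f : AR (CO γ)} (ha : Or m α a) (hf : Or m n f) (h1 : k ≤ n - 1)
    (h2 : k ≤ α + (n - m)) : Or m k (LL a f) := by
  rw [LL_apply]
  exact (hf.dz.mono h1).add (ha.mul' hf.du h2)

theorem Or.LLb {m α n k : ℤ} {a f : AR (CO γ)} (ha : Or m α a) (hf : Or m n f) (h1 : k ≤ n - 1)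
    (h2 : k ≤ α + (n - m)) : Or m k (LLb a f) := by
  rw [LLb_apply]
  exact (hf.dzb.mono h1).add (ha.conj.mul' hf.du h2)

theorem sigma_eq {a σ ℓ ℓ₀ l0i p h τ : AR (CO γ)}
    (hl : ℓ = ℓ₀ * (1 + p)) (hl0 : ℓ₀ * l0i = 1) (hh : (1 + p) * h = 1)
    (hL : LL a ℓ₀ = τ * ℓ₀) (hσ : σ * ℓ = LL a ℓ - Du a * ℓ) :
    σ = τ + h * LL a p - Du a := by
  have h1 : LL a ℓ = τ * ℓ + ℓ₀ * LL a p := by
    rw [hl, lbz, hL, map_add, Derivation.map_one_eq_zero]; ring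
  have h2 : σ = σ * ℓ * (l0i * h) := by
    rw [hl]; linear_combination (-σ * (1 + p) * h) * hl0 - σ * hh
  rw [h2, hσ, h1, hl]
  linear_combination ((τ - Du a) * (1 + p) * h + LL a p * h) * hl0 + (τ - Du a) * hh

theorem six_inv : (6 : AR (CO γ)) * cst (CO γ) (1/6) = 1 := by
  have h6 : (6 : AR (CO γ)) = cst (CO γ) 6 := by
    have := mk_nat (F := CO γ) 6
    rwa [Nat.cast_ofNat, Nat.cast_ofNat] at this
  rw [h6, cst_mul, ← cst_one]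
  congr 1
  norm_num

theorem steps_bound {m α δ P e : ℤ} {a σ k Q ℓ ℓ₀ l0i p h τ₀ τ₁ : AR (CO γ)}
    (ha : Or m α a) (hau : Or m δ (Du a))
    (hl : ℓ = ℓ₀ * (1 + p)) (hl0 : ℓ₀ * l0i = 1) (hh : (1 + p) * h = 1)
    (hL : LL a ℓ₀ = (τ₀ + τ₁) * ℓ₀) (hσ : σ * ℓ = LL a ℓ - Du a * ℓ)
    (hk : k = LLb a σ) (hQ : 6 * ℓ * Q = LL a k - σ * k - 2 * ℓ * Du σ)
    (h1 : Dzb τ₀ = 0) (h2 : Du τ₀ = 0) (h3 : Or m (-1) τ₀) (h4 : Or m (P - 1) τ₁)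
    (hp : Or m P p) (hhO : Or m 0 h) (hl0i : Or m (-e) l0i)
    (c1 : m ≤ α + 1) (c2 : P - 1 ≤ δ) (c3 : 1 ≤ P) (c4 : m ≤ e + 2) :
    Or m (P - 1) (σ - τ₀) ∧ Or m (P - 2) k ∧ Or m (P - 3 - e) Q := by
  have hs := sigma_eq hl hl0 hh hL hσ
  have hLp : Or m (P - 1) (LL a p) := Or.LL ha hp (by omega) (by omega)
  have hs' : Or m (P - 1) (σ - τ₀) := by
    have e1 : σ - τ₀ = τ₁ + h * LL a p - Du a := by rw [hs]; ring
    rw [e1]
    exact (h4.add (hhO.mul' hLp (by omega))).sub (hau.mono c2)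
  have hkk : k = LLb a (σ - τ₀) := by
    rw [hk, map_sub, LLb_apply a τ₀, h1, h2]; ring
  have hkO : Or m (P - 2) k := by
    rw [hkk]; exact Or.LLb ha hs' (by omega) (by omega)
  refine ⟨hs', hkO, ?_⟩
  have hN : Or m (P - 3) (LL a k - σ * k) := by
    have e1 : LL a k - σ * k = LL a k - (σ - τ₀) * k - τ₀ * k := by ring
    rw [e1]
    exact ((Or.LL ha hkO (by omega) (by omega)).sub (hs'.mul' hkO (by omega))).sub
      (h3.mul' hkO (by omega))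
  have hT : Or m (P - 1 - m) (Du σ) := by
    have e1 : Du σ = Du (σ - τ₀) := by rw [map_sub, h2]; ring
    rw [e1]; exact hs'.du
  have hQ' : Q = cst (CO γ) (1/6) * ((LL a k - σ * k) * (l0i * h) - 2 * Du σ) := by
    have e1 : (LL a k - σ * k) = 6 * ℓ * Q + 2 * ℓ * Du σ := by rw [hQ]; ring
    rw [e1, hl]
    linear_combination (-(cst (CO γ) (1/6)) * (6 * Q + 2 * Du σ) * (1 + p) * h) * hl0 -
      (cst (CO γ) (1/6)) * (6 * Q + 2 * Du σ) * hh - Q * six_inv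
  rw [hQ']
  refine (Or_cst _).mul' (n' := P - 3 - e) ?_ (by omega)
  refine (hN.mul' (hl0i.mul hhO) (by omega)).sub ?_
  exact ((Or_ofNat 2).mul hT).mono (by omega)

theorem steps_lead {m α δ P e : ℤ} {a σ k Q ℓ ℓ₀ l0i p h τ₀ τ₁ P0 : AR (CO γ)}
    (ha : Or m α a) (hau : Or m δ (Du a))
    (hl : ℓ = ℓ₀ * (1 + p)) (hl0 : ℓ₀ * l0i = 1) (hh : (1 + p) * h = 1)
    (hL : LL a ℓ₀ = (τ₀ + τ₁) * ℓ₀) (hσ : σ * ℓ = LL a ℓ - Du a * ℓ)
    (hk : k = LLb a σ) (hQ : 6 * ℓ * Q = LL a k - σ * k - 2 * ℓ * Du σ)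
    (h1 : Dzb τ₀ = 0) (h2 : Du τ₀ = 0) (h3 : Or m (-1) τ₀) (h4 : Or m P τ₁)
    (hp : Or m P p) (hP0 : Or m P P0) (hr : Or m (P + 1) (p - P0)) (hhO : Or m 0 h)
    (hl0i : Or m (-e) l0i)
    (c1 : m ≤ α) (c2 : P ≤ δ) (c3 : 1 ≤ P) (c4 : m ≤ e + 1) :
    Or m (P - 2 - e) (6 * Q - (Dz (Dzb (Dz P0)) - τ₀ * Dzb (Dz P0)) * l0i) := by
  have hb := steps_bound ha hau hl hl0 hh hL hσ hk hQ h1 h2 h3 (h4.mono (by omega)) hp hhO hl0i
    (by omega) (by omega) c3 (by omega)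
  obtain ⟨hs', hkO, hQO⟩ := hb
  have hs := sigma_eq hl hl0 hh hL hσ
  have hLp : Or m (P - 1) (LL a p) := Or.LL ha hp (by omega) (by omega)
  obtain ⟨s2, hs2⟩ : ∃ s2, s2 = σ - τ₀ - Dz P0 := ⟨_, rfl⟩
  have hs2O : Or m P s2 := by
    have e0 : LL a p = Dz P0 + (Dz (p - P0) + a * Du p) := by
      rw [LL_apply, map_sub]; ring
    have e1 : s2 = τ₁ + (Dz (p - P0) + a * Du p) - p * h * LL a p - Du a := by
      rw [hs2, hs]
      linear_combination e0 + (LL a p) * hh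
    rw [e1]
    refine ((h4.add ?_).sub ?_).sub (hau.mono c2)
    · exact (hr.dz.mono (by omega)).add (ha.mul' hp.du (by omega))
    · exact (hp.mul' hhO (by omega : P ≤ P + 0)).mul' hLp (by omega)
  obtain ⟨k1, hk1⟩ : ∃ k1, k1 = k - Dzb (Dz P0) := ⟨_, rfl⟩
  have hk1O : Or m (P - 1) k1 := by
    have hkk : k = LLb a (σ - τ₀) := by
      rw [hk, map_sub, LLb_apply a τ₀, h1, h2]; ring
    have e1 : k1 = Dzb s2 + cj a * Du (σ - τ₀) := by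
      rw [hk1, hkk, LLb_apply, hs2]
      simp only [map_sub]
      ring
    rw [e1]
    exact (hs2O.dzb).add (ha.conj.mul' hs'.du (by omega))
  have hN : Or m (P - 2) (LL a k - σ * k - (Dz (Dzb (Dz P0)) - τ₀ * Dzb (Dz P0))) := by
    have e1 : LL a k - σ * k - (Dz (Dzb (Dz P0)) - τ₀ * Dzb (Dz P0)) =
        Dz k1 + a * Du k - τ₀ * k1 - (σ - τ₀) * k := by
      rw [LL_apply, hk1]
      simp only [map_sub]
      ring
    rw [e1]
    exact (((hk1O.dz.mono (by omega)).add (ha.mul' hkO.du (by omega))).sub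
      (h3.mul' hk1O (by omega))).sub (hs'.mul' hkO (by omega))
  have hT : Or m (P - 1 - m) (Du σ) := by
    have e1 : Du σ = Du (σ - τ₀) := by rw [map_sub, h2]; ring
    rw [e1]; exact hs'.du
  have hN0 : Or m (P - 3) (Dz (Dzb (Dz P0)) - τ₀ * Dzb (Dz P0)) :=
    (hP0.dz.dzb.dz.mono (by omega)).sub (h3.mul' hP0.dz.dzb (by omega))
  have e2 : 6 * Q - (Dz (Dzb (Dz P0)) - τ₀ * Dzb (Dz P0)) * l0i =
      (LL a k - σ * k - (Dz (Dzb (Dz P0)) - τ₀ * Dzb (Dz P0))) * (l0i * h) -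
      (Dz (Dzb (Dz P0)) - τ₀ * Dzb (Dz P0)) * (l0i * (p * h)) - 2 * Du σ := by
    have e1 : (LL a k - σ * k) = 6 * ℓ * Q + 2 * ℓ * Du σ := by rw [hQ]; ring
    rw [e1, hl]
    linear_combination (-(6 * Q + 2 * Du σ) * (1 + p) * h) * hl0 -
      (6 * Q + 2 * Du σ) * hh + (Dz (Dzb (Dz P0)) - τ₀ * Dzb (Dz P0)) * l0i * hh
  rw [e2]
  refine ((hN.mul' (hl0i.mul hhO) (by omega)).sub
    (hN0.mul' (hl0i.mul (hp.mul hhO)) (by omega))).sub ?_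
  exact ((Or_ofNat 2).mul hT).mono (by omega)

end Pool.Agent.H213
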